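import Mathlib

/-! Classes of germs of holomorphic functions of bounded complexity. -/

set_option autoImplicit false

open Filter Topology
open scoped PeriodPair

namespace Pool.Agent.Helper6.EU

/-- The germs at `z0` of the functions which are built from constants and the function `z` by
addition, multiplication, division, the exponential function, and the Weierstrass functions `℘` and
`℘'` of arbitrary lattices, with at most `n` nested operations. -/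
inductive ExpEllD (z0 : ℂ) : ℕ → (ℂ → ℂ) → Prop
  | const (n : ℕ) (c : ℂ) : ExpEllD z0 n fun _ => c
  | var (n : ℕ) : ExpEllD z0 n fun z => z
  | add {n : ℕ} {f g : ℂ → ℂ} : ExpEllD z0 n f → ExpEllD z0 n g →
      ExpEllD z0 (n + 1) fun z => f z + g z
  | mul {n : ℕ} {f g : ℂ → ℂ} : ExpEllD z0 n f → ExpEllD z0 n g →
      ExpEllD z0 (n + 1) fun z => f z * g z
  | div {n : ℕ} {f g : ℂ → ℂ} : ExpEllD z0 n f → ExpEllD z0 n g → g z0 ≠ 0 →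
      ExpEllD z0 (n + 1) fun z => f z / g z
  | exp {n : ℕ} {f : ℂ → ℂ} : ExpEllD z0 n f → ExpEllD z0 (n + 1) fun z => Complex.exp (f z)
  | wp {n : ℕ} (Λ : PeriodPair) {f : ℂ → ℂ} : ExpEllD z0 n f → f z0 ∉ Λ.lattice →
      ExpEllD z0 (n + 1) fun z => ℘[Λ] (f z)
  | wp' {n : ℕ} (Λ : PeriodPair) {f : ℂ → ℂ} : ExpEllD z0 n f → f z0 ∉ Λ.lattice →
      ExpEllD z0 (n + 1) fun z => ℘'[Λ] (f z)

/-- The germs at `z0` of the functions which are built from the functions in `ExpEllD z0 s` by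
addition, multiplication, division, integration, and the Weierstrass functions `℘` and `℘'` of
arbitrary lattices, with at most `n` nested operations. -/
inductive IntEllD (s : ℕ) (z0 : ℂ) : ℕ → (ℂ → ℂ) → Prop
  | base {n : ℕ} {f : ℂ → ℂ} : ExpEllD z0 s f → IntEllD s z0 n f
  | add {n : ℕ} {f g : ℂ → ℂ} : IntEllD s z0 n f → IntEllD s z0 n g →
      IntEllD s z0 (n + 1) fun z => f z + g z
  | mul {n : ℕ} {f g : ℂ → ℂ} : IntEllD s z0 n f → IntEllD s z0 n g →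
      IntEllD s z0 (n + 1) fun z => f z * g z
  | div {n : ℕ} {f g : ℂ → ℂ} : IntEllD s z0 n f → IntEllD s z0 n g → g z0 ≠ 0 →
      IntEllD s z0 (n + 1) fun z => f z / g z
  | int {n : ℕ} {f g : ℂ → ℂ} : IntEllD s z0 n f → (∀ᶠ z in 𝓝 z0, HasDerivAt g (f z) z) →
      IntEllD s z0 (n + 1) g
  | wp {n : ℕ} (Λ : PeriodPair) {f : ℂ → ℂ} : IntEllD s z0 n f → f z0 ∉ Λ.lattice →
      IntEllD s z0 (n + 1) fun z => ℘[Λ] (f z)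
  | wp' {n : ℕ} (Λ : PeriodPair) {f : ℂ → ℂ} : IntEllD s z0 n f → f z0 ∉ Λ.lattice →
      IntEllD s z0 (n + 1) fun z => ℘'[Λ] (f z)

theorem ExpEllD.cases' {z0 : ℂ} {n : ℕ} {h : ℂ → ℂ} (H : ExpEllD z0 (n + 1) h) :
    (∃ c : ℂ, h = fun _ => c) ∨ (h = fun z => z) ∨
    (∃ f g, (ExpEllD z0 n f ∧ ExpEllD z0 n g) ∧ h = fun z => f z + g z) ∨
    (∃ f g, (ExpEllD z0 n f ∧ ExpEllD z0 n g) ∧ h = fun z => f z * g z) ∨
    (∃ f g, (ExpEllD z0 n f ∧ ExpEllD z0 n g ∧ g z0 ≠ 0) ∧ h = fun z => f z / g z) ∨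
    (∃ f, ExpEllD z0 n f ∧ h = fun z => Complex.exp (f z)) ∨
    (∃ (Λ : PeriodPair) (f : ℂ → ℂ), (ExpEllD z0 n f ∧ f z0 ∉ Λ.lattice) ∧
      h = fun z => ℘[Λ] (f z)) ∨
    (∃ (Λ : PeriodPair) (f : ℂ → ℂ), (ExpEllD z0 n f ∧ f z0 ∉ Λ.lattice) ∧
      h = fun z => ℘'[Λ] (f z)) := by
  cases H with
  | const _ c => exact Or.inl ⟨c, rfl⟩
  | var _ => exact Or.inr (Or.inl rfl)
  | add h1 h2 => exact Or.inr (Or.inr (Or.inl ⟨_, _, ⟨h1, h2⟩, rfl⟩))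
  | mul h1 h2 => exact Or.inr (Or.inr (Or.inr (Or.inl ⟨_, _, ⟨h1, h2⟩, rfl⟩)))
  | div h1 h2 h3 => exact Or.inr (Or.inr (Or.inr (Or.inr (Or.inl ⟨_, _, ⟨h1, h2, h3⟩, rfl⟩))))
  | exp h1 => exact Or.inr (Or.inr (Or.inr (Or.inr (Or.inr (Or.inl ⟨_, h1, rfl⟩)))))
  | wp Λ h1 h2 =>
    exact Or.inr (Or.inr (Or.inr (Or.inr (Or.inr (Or.inr (Or.inl ⟨Λ, _, ⟨h1, h2⟩, rfl⟩))))))
  | wp' Λ h1 h2 =>
    exact Or.inr (Or.inr (Or.inr (Or.inr (Or.inr (Or.inr (Or.inr ⟨Λ, _, ⟨h1, h2⟩, rfl⟩))))))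

theorem ExpEllD.cases0 {z0 : ℂ} {h : ℂ → ℂ} (H : ExpEllD z0 0 h) :
    (∃ c : ℂ, h = fun _ => c) ∨ (h = fun z => z) := by
  cases H with
  | const _ c => exact Or.inl ⟨c, rfl⟩
  | var _ => exact Or.inr rfl

theorem IntEllD.cases' {s : ℕ} {z0 : ℂ} {n : ℕ} {h : ℂ → ℂ} (H : IntEllD s z0 (n + 1) h) :
    ExpEllD z0 s h ∨
    (∃ f g, (IntEllD s z0 n f ∧ IntEllD s z0 n g) ∧ h = fun z => f z + g z) ∨
    (∃ f g, (IntEllD s z0 n f ∧ IntEllD s z0 n g) ∧ h = fun z => f z * g z) ∨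
    (∃ f g, (IntEllD s z0 n f ∧ IntEllD s z0 n g ∧ g z0 ≠ 0) ∧ h = fun z => f z / g z) ∨
    (∃ f, IntEllD s z0 n f ∧ ∀ᶠ z in 𝓝 z0, HasDerivAt h (f z) z) ∨
    (∃ (Λ : PeriodPair) (f : ℂ → ℂ), (IntEllD s z0 n f ∧ f z0 ∉ Λ.lattice) ∧
      h = fun z => ℘[Λ] (f z)) ∨
    (∃ (Λ : PeriodPair) (f : ℂ → ℂ), (IntEllD s z0 n f ∧ f z0 ∉ Λ.lattice) ∧
      h = fun z => ℘'[Λ] (f z)) := by
  cases H with
  | base h => exact Or.inl h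
  | add h1 h2 => exact Or.inr (Or.inl ⟨_, _, ⟨h1, h2⟩, rfl⟩)
  | mul h1 h2 => exact Or.inr (Or.inr (Or.inl ⟨_, _, ⟨h1, h2⟩, rfl⟩))
  | div h1 h2 h3 => exact Or.inr (Or.inr (Or.inr (Or.inl ⟨_, _, ⟨h1, h2, h3⟩, rfl⟩)))
  | int h1 h2 => exact Or.inr (Or.inr (Or.inr (Or.inr (Or.inl ⟨_, h1, h2⟩))))
  | wp Λ h1 h2 =>
    exact Or.inr (Or.inr (Or.inr (Or.inr (Or.inr (Or.inl ⟨Λ, _, ⟨h1, h2⟩, rfl⟩)))))
  | wp' Λ h1 h2 =>
    exact Or.inr (Or.inr (Or.inr (Or.inr (Or.inr (Or.inr ⟨Λ, _, ⟨h1, h2⟩, rfl⟩)))))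

theorem IntEllD.cases0 {s : ℕ} {z0 : ℂ} {h : ℂ → ℂ} (H : IntEllD s z0 0 h) :
    ExpEllD z0 s h := by
  cases H with
  | base h => exact h

end Pool.Agent.Helper6.EU
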