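import Pool.Agent.Helper6.EU.Main

/-! Coverings by rational and elliptic curves. -/

set_option autoImplicit false
set_option linter.unusedSectionVars false

namespace Pool.Agent.Helper6.EU

open EE IntermediateField
open Pool.Agent.TH143.GT (FunField Covered Pluricanonical)

/-- The variety with the function field `K` is covered by elliptic curves: `K` embeds in the function
field `M(x, y)` of an elliptic curve `y² = x³ + a x + b` over a field `M`, and the image is not
contained in `M`. -/
def CoveredEll (K : Type) [Field K] [Algebra ℂ K] : Prop :=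
  ∃ (L : Type) (_ : Field L) (_ : Algebra ℂ L) (M : IntermediateField ℂ L) (a b : M) (x y : L),
    4 * a ^ 3 + 27 * b ^ 2 ≠ 0 ∧ Transcendental M x ∧ y ^ 2 = x ^ 3 + a * x + b ∧
    ∃ φ : K →ₐ[ℂ] L, (∀ r, φ r ∈ IntermediateField.adjoin ℂ ((M : Set L) ∪ {x, y})) ∧
      ∃ r, φ r ∉ M

section

variable {C L : Type} [Field C] [CharZero C] [Field L] [Algebra C L] [Algebra ℂ C] [Algebra ℂ L]
  [IsScalarTower ℂ C L]

theorem adj_res (F : IntermediateField C L) (T : Set L) :
    (IntermediateField.adjoin C ((F : Set L) ∪ T)).restrictScalars ℂ =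
      IntermediateField.adjoin ℂ ((F.restrictScalars ℂ : Set L) ∪ T) := by
  set N := IntermediateField.adjoin ℂ ((F.restrictScalars ℂ : Set L) ∪ T) with hN
  have hsub : ∀ z ∈ F, z ∈ N := fun z hz => subset_adjoin ℂ _ (Or.inl hz)
  apply le_antisymm
  · have hc : ∀ c : C, algebraMap C L c ∈ N := fun c =>
      hsub _ (IntermediateField.algebraMap_mem _ _)
    have h3 : IntermediateField.adjoin C ((F : Set L) ∪ T) ≤ upC N hc := by
      rw [IntermediateField.adjoin_le_iff]
      rintro z (hz | hz)
      · exact hsub _ hz
      · exact subset_adjoin ℂ _ (Or.inr hz)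
    exact fun z hz => h3 hz
  · rw [hN, IntermediateField.adjoin_le_iff]
    rintro z (hz | hz)
    · exact subset_adjoin C _ (Or.inl hz)
    · exact subset_adjoin C _ (Or.inr hz)

/-- Subfields of good fields. -/
theorem Good.cov {E : C → C → Prop} {F : IntermediateField C L} (h : Good E F) {K : Type} [Field K]
    [Algebra ℂ K] (ψ : K →ₐ[ℂ] L) : (∀ r, ψ r ∈ F) → Covered K ∨ CoveredEll K ∨
      ∀ r, ∃ c : C, algebraMap C L c = ψ r := by
  induction h with
  | bot =>
    intro hψ
    refine Or.inr (Or.inr fun r => ?_)
    obtain ⟨c, hc⟩ := IntermediateField.mem_bot.1 (hψ r)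
    exact ⟨c, hc⟩
  | @step F τ P h hτ hP ih =>
    intro hψ
    by_cases hall : ∀ r, ψ r ∈ F
    · exact ih hall
    have hone : ∀ q : L, Transcendental F q → τ.adj F P =
        IntermediateField.adjoin C ((F : Set L) ∪ {q}) → Covered K := by
      intro q hq hadj
      have h1 : E8helper4.EL.Ch (F.restrictScalars ℂ)
          (E8helper4.EL.adj (F.restrictScalars ℂ) q) :=
        E8helper4.EL.Ch.step E8helper4.EL.Ch.base hq
      rcases h1.dich ψ (fun e => by
        have h2 := hψ e
        rw [hadj] at h2
        have h3 : ψ e ∈ (IntermediateField.adjoin C ((F : Set L) ∪ {q})).restrictScalars ℂ := h2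
        rw [adj_res] at h3
        exact h3) with h2 | h2
      · exact absurd h2 hall
      · exact h2
    have hell : AE E τ → CoveredEll K := by
      rintro ⟨a', b', -, hd, rfl⟩
      obtain ⟨x', y', hc, hx', -, -, heq⟩ := gen_ell hP
      have hF2 : (Ell a' b').adj F P =
          IntermediateField.adjoin C ((F : Set L) ∪ {x', y'}) := by
        rw [adj_eq, hc]
        congr 2
        ext w
        simp
      push Not at hall
      refine ⟨L, inferInstance, inferInstance, F.restrictScalars ℂ,
        ⟨algebraMap C L a', F.algebraMap_mem a'⟩, ⟨algebraMap C L b', F.algebraMap_mem b'⟩, x', y',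
        ?_, hx', heq, ψ, ?_, hall⟩
      · intro h0
        apply hd
        have h1 := congrArg (fun u : F.restrictScalars ℂ => (u : L)) h0
        apply (algebraMap C L).injective
        rw [map_add, map_mul, map_mul, map_pow, map_pow, map_ofNat, map_ofNat, map_zero]
        exact h1
      · intro r
        have h2 := hψ r
        rw [hF2] at h2
        have h3 : ψ r ∈ (IntermediateField.adjoin C
          ((F : Set L) ∪ {x', y'})).restrictScalars ℂ := h2
        rw [adj_res] at h3
        exact h3
    rcases hτ with (rfl | hτ) | (rfl | hτ)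
    · obtain ⟨q, hq, hqt⟩ := hP
      have hq' : q = ((Additive.toMul P : Lˣ) : L) := List.mem_singleton.1 hq
      refine Or.inl (hone q hqt ?_)
      rw [adj_eq]
      congr 2
      ext w
      rw [hq', Set.mem_singleton_iff]
      exact List.mem_singleton
    · exact Or.inr (Or.inl (hell hτ))
    · obtain ⟨q, hq, hqt⟩ := hP
      have hq' : q = (P : L) := List.mem_singleton.1 hq
      refine Or.inl (hone q hqt ?_)
      rw [adj_eq]
      congr 2
      ext w
      rw [hq', Set.mem_singleton_iff]
      exact List.mem_singleton
    · exact Or.inr (Or.inl (hell hτ))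

end

end Pool.Agent.Helper6.EU
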