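import Pool.Agent.Helper6.EU.PresK

/-! Pluricanonical forms on a variety which is covered by images of products of elliptic curves:
ratios are constant on the images. -/

set_option autoImplicit false
set_option linter.unusedSectionVars false
set_option linter.overlappingInstances false

open FF IntermediateField Pool.Agent.W619.PQ Pool.Agent.W603.LV Pool.Agent.W619.TW
open Pool.Agent.W602.GT (Divisorial DerReg DerLog IsPluri RegAt GeneralType exists_der)
open Pool.Agent.TH143.GT

namespace Pool.Agent.Helper6.EU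

open EE

section
variable {C A : Type} [Field C] [CharZero C] [IsAlgClosed C] [Field A] [Algebra C A]
  [Algebra ℂ C] [Algebra ℂ A] [IsScalarTower ℂ C A] {n m : ℕ}
  {x y : Fin n → A} {a b : Fin n → C} {δ : Fin n → Derivation C A A}

/-- a place over the complex numbers -/
def rk0 {M : IntermediateField C A} (w : Place M A) : Place ℂ A where
  ord := w.ord
  ord_zero := w.ord_zero
  ord_mul := w.ord_mul
  ord_add := w.ord_add
  ord_const := fun {c} hc => by
    have h1 : algebraMap ℂ A c ∈ M := by
      rw [IsScalarTower.algebraMap_apply ℂ C A]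
      exact M.algebraMap_mem _
    exact ord_M w h1
  surj := w.surj

theorem rk0_reg {M : IntermediateField C A} (w : Place M A) {z : A} :
    (rk0 w).Reg z ↔ w.Reg z := Iff.rfl

/-- extensions of the derivations of the constants -/
structure Frm (t : Fin m → C) (x : Fin n → A) (d : Fin m → Derivation ℂ C C)
    (Dl : Fin m → Derivation ℂ A A) : Prop where
  basis : IsTranscendenceBasis ℂ t
  val : ∀ l j, Dl l (algebraMap C A (t j)) = if l = j then 1 else 0
  zero : ∀ l i, Dl l (x i) = 0
  con : ∀ l c, Dl l (algebraMap C A c) = algebraMap C A (d l c)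

theorem basis_all (h : EPr x y a b) {t : Fin m → C} (ht : IsTranscendenceBasis ℂ t) :
    IsTranscendenceBasis ℂ (Sum.elim x (algebraMap C A ∘ t)) := ht.sumElim_comp h.basis

theorem trdeg_all (h : EPr x y a b) {t : Fin m → C} (ht : IsTranscendenceBasis ℂ t) :
    Algebra.trdeg ℂ A = ((m + n : ℕ) : Cardinal) := by
  rw [← (basis_all h ht).cardinalMk_eq_trdeg]
  simp [add_comm]

theorem exists_frm (h : EPr x y a b) (hm : Algebra.trdeg ℂ C = m) :
    ∃ (t : Fin m → C) (d : Fin m → Derivation ℂ C C) (Dl : Fin m → Derivation ℂ A A),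
      Frm t x d Dl := by
  obtain ⟨t, ht⟩ : ∃ t : Fin m → C, IsTranscendenceBasis ℂ t := by
    obtain ⟨B, hB⟩ := exists_isTranscendenceBasis ℂ C
    have hcard := hB.cardinalMk_eq_trdeg
    rw [hm] at hcard
    have hfin : Finite B := by
      rw [← Cardinal.lt_aleph0_iff_finite, hcard]
      exact Cardinal.natCast_lt_aleph0
    obtain ⟨m', ⟨e⟩⟩ := Finite.exists_equiv_fin B
    obtain rfl : m' = m := by
      rw [Cardinal.mk_congr e, Cardinal.mk_fin] at hcard
      exact_mod_cast hcard
    exact ⟨fun i => (e.symm i : C), hB.comp_equiv e.symm⟩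
  choose d hd using fun l : Fin m => exists_der t ht (fun j => if l = j then (1 : C) else 0)
  choose Dl hDl using fun l : Fin m => exists_der _ (basis_all h ht)
    (Sum.elim (fun _ => 0) fun j => if l = j then (1 : A) else 0)
  have hval : ∀ l j, Dl l (algebraMap C A (t j)) = if l = j then 1 else 0 := fun l j =>
    hDl l (Sum.inr j)
  refine ⟨t, d, Dl, ht, hval, fun l i => hDl l (Sum.inl i), fun l c => ?_⟩
  apply der_comp (d l) (Dl l) t ht
  intro j
  rw [hval, hd]
  split_ifs
  · rw [map_one]
  · rw [map_zero]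

variable {t : Fin m → C} {d : Fin m → Derivation ℂ C C} {Dl : Fin m → Derivation ℂ A A}

theorem divisorial0 (h : EPr x y a b) (ht : IsTranscendenceBasis ℂ t) (i : Fin n)
    (w : Place (MM (fun i => (Fc x y i : IntermediateField C A)) i) A) :
    Divisorial (m + n) (rk0 w) := by
  obtain ⟨n', rfl⟩ : ∃ n', n = n' + 1 := ⟨n - 1, by have := i.pos; omega⟩
  change Divisorial ((m + n') + 1) (rk0 w)
  let σ : Fin (m + n') → Fin (n' + 1) ⊕ Fin m := fun s =>
    (Sum.elim Sum.inr (fun j => Sum.inl (i.succAbove j)) : Fin m ⊕ Fin n' → Fin (n' + 1) ⊕ Fin m)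
      (finSumFinEquiv.symm s)
  have hσ : Function.Injective σ := by
    apply Function.Injective.comp _ finSumFinEquiv.symm.injective
    rintro (j | j) (j' | j') hjj
    · simpa using hjj
    · simp at hjj
    · simp at hjj
    · simp only [Sum.elim_inr, Sum.inl.injEq] at hjj
      rw [Fin.succAbove_right_injective hjj]
  have hmem : ∀ s, (Sum.elim x (algebraMap C A ∘ t)) (σ s) ∈
      MM (fun i => (Fc x y i : IntermediateField C A)) i := by
    intro s
    simp only [σ]
    rcases finSumFinEquiv.symm s with j | j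
    · exact IntermediateField.algebraMap_mem _ _
    · exact le_MM (fun i => (Fc x y i : IntermediateField C A)) (Fin.succAbove_ne i j)
        (mem_Fc_x _)
  have hall : ∀ G : MvPolynomial (Fin (m + n')) ℂ, MvPolynomial.aeval
      (fun s => (Sum.elim x (algebraMap C A ∘ t)) (σ s)) G ∈
      MM (fun i => (Fc x y i : IntermediateField C A)) i := by
    intro G
    induction G using MvPolynomial.induction_on with
    | C c =>
      rw [MvPolynomial.aeval_C, IsScalarTower.algebraMap_apply ℂ C A]
      exact IntermediateField.algebraMap_mem _ _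
    | add p q hp hq => rw [map_add]; exact add_mem hp hq
    | mul_X p s hp =>
      rw [map_mul, MvPolynomial.aeval_X]
      exact mul_mem hp (hmem s)
  refine ⟨fun s => (Sum.elim x (algebraMap C A ∘ t)) (σ s), fun G hG => ?_⟩
  have h1 : AlgebraicIndependent ℂ (fun s => (Sum.elim x (algebraMap C A ∘ t)) (σ s)) :=
    (basis_all h ht).1.comp _ hσ
  exact ⟨fun h0 => hG (h1.eq_zero_of_aeval_eq_zero G h0), ord_M w (hall G)⟩

/-- the frame spans all derivations -/
theorem frm_span (h : EPr x y a b) (h' : Inva x y δ) (hF : Frm t x d Dl) (D : Derivation ℂ A A) :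
    D = ∑ l, D (algebraMap C A (t l)) • Dl l +
      ∑ i, (D (x i) / (2 * y i)) • (δ i).restrictScalars ℂ := by
  have hA := cz (C := C) A
  have e1 : ∀ z, (∑ l, D (algebraMap C A (t l)) • Dl l +
      ∑ i, (D (x i) / (2 * y i)) • (δ i).restrictScalars ℂ : Derivation ℂ A A) z =
      ∑ l, D (algebraMap C A (t l)) * Dl l z + ∑ i, (D (x i) / (2 * y i)) * δ i z := by
    intro z
    rw [Derivation.add_apply, der_sum, der_sum]
    rfl
  apply Pool.Agent.W602.GT.der_ext _ (basis_all h hF.basis)
  rintro (i | j)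
  · rw [e1]
    change D (x i) = ∑ l, D (algebraMap C A (t l)) * Dl l (x i) +
      ∑ i', (D (x i') / (2 * y i')) * δ i' (x i)
    have h1 : ∑ l, D (algebraMap C A (t l)) * Dl l (x i) = 0 :=
      Finset.sum_eq_zero fun l _ => by rw [hF.zero, mul_zero]
    rw [h1, zero_add, Finset.sum_eq_single i]
    · rw [h'.one, div_mul_cancel₀ _ (mul_ne_zero two_ne_zero (h.y_ne i))]
    · intro l _ hl
      rw [h'.off (Ne.symm hl) _ (mem_Fc_x i), mul_zero]
    · intro h0
      exact absurd (Finset.mem_univ i) h0
  · rw [e1]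
    change D (algebraMap C A (t j)) = ∑ l, D (algebraMap C A (t l)) * Dl l (algebraMap C A (t j)) +
      ∑ i', (D (x i') / (2 * y i')) * δ i' (algebraMap C A (t j))
    have h1 : ∑ i', (D (x i') / (2 * y i')) * δ i' (algebraMap C A (t j)) = 0 :=
      Finset.sum_eq_zero fun l _ => by rw [(δ l).map_algebraMap, mul_zero]
    rw [h1, add_zero, Finset.sum_eq_single j]
    · rw [hF.val, if_pos rfl, mul_one]
    · intro l _ hl
      rw [hF.val, if_neg hl, mul_zero]
    · intro h0
      exact absurd (Finset.mem_univ j) h0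

end

section
variable {C A K : Type} [Field C] [CharZero C] [IsAlgClosed C] [Field A] [Algebra C A]
  [Algebra ℂ C] [Algebra ℂ A] [IsScalarTower ℂ C A] [Field K] [Algebra ℂ K] [Algebra K A]
  [IsScalarTower ℂ K A] {n m w : ℕ} {x y : Fin n → A} {a b : Fin n → C}

/-- **Forms on varieties covered by images of products of elliptic curves.** -/
theorem ratio_const (h : EPr x y a b) (hm : Algebra.trdeg ℂ C = m) [Algebra.EssFiniteType ℂ K]
    (hw : Algebra.trdeg ℂ K = w) : ∃ (u : Fin w → K) (E : Fin w → Derivation ℂ K K) (q : A),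
      Dual u E ∧ q ≠ 0 ∧ ∀ N : ℕ, 0 < N → ∀ ω : (Fin w → Derivation ℂ K K) → K,
        Pluricanonical w N ω → ∃ c : C, algebraMap C A c = algebraMap K A (ω E) * q ^ N := by
  classical
  have hA := cz (C := C) A
  obtain ⟨u, E, hE⟩ := exists_dual (K := K) hw
  obtain ⟨δ, hδ⟩ := h.exists_inva
  obtain ⟨t, d, Dl, hF⟩ := exists_frm h hm
  let R1 : Fin m → Fin w → A := fun l j => Dl l (algebraMap K A (u j))
  let R2 : Fin n → Fin w → A := fun i j => δ i (algebraMap K A (u j))
  let Θ : Fin m ⊕ Fin n → Derivation ℂ A A := Sum.elim Dl fun i => (δ i).restrictScalars ℂ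
  have hΘ : ∀ s, (fun j => Θ s (algebraMap K A (u j))) = Sum.elim R1 R2 s := by
    rintro (l | i) <;> rfl
  have hvE : vol u E = 1 := by
    rw [vol_apply]
    have : (Matrix.of fun i j => E i (u j)) = (1 : Matrix (Fin w) (Fin w) K) := by
      ext i j
      rw [Matrix.of_apply, hE.2, Matrix.one_apply]
    rw [this, Matrix.det_one]
  have hv0 : vol u ≠ 0 := by
    intro h0
    rw [h0] at hvE
    exact zero_ne_one hvE
  -- the rows span
  have hspan : Submodule.span A (Set.range (Sum.elim R1 R2)) = ⊤ := by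
    obtain ⟨Q, hQ⟩ := pull_ne (vol u) hv0 hE (fun s : Fin (m + n) => Θ (finSumFinEquiv.symm s))
      (fun D => ⟨fun s => (Sum.elim (fun l => D (algebraMap C A (t l)))
        fun i => D (x i) / (2 * y i)) (finSumFinEquiv.symm s), by
          rw [Equiv.sum_comp finSumFinEquiv.symm fun s => (Sum.elim
            (fun l => D (algebraMap C A (t l))) fun i => D (x i) / (2 * y i)) s • Θ s,
            Fintype.sum_sum_type]
          exact frm_span h hδ hF D⟩)
    rw [pull_vol hE] at hQ
    have h1 : LinearIndependent A (Matrix.of fun i j =>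
        Θ (finSumFinEquiv.symm (Q i)) (algebraMap K A (u j))).row := by
      rw [Matrix.linearIndependent_rows_iff_isUnit, Matrix.isUnit_iff_isUnit_det]
      exact isUnit_iff_ne_zero.2 hQ
    have h2 := h1.span_eq_top_of_card_eq_finrank' (by
      rw [Module.finrank_fintype_fun_eq_card])
    rw [eq_top_iff, ← h2]
    apply Submodule.span_mono
    rintro _ ⟨i, rfl⟩
    exact ⟨finSumFinEquiv.symm (Q i), (hΘ _).symm⟩
  obtain ⟨e, he1, he2⟩ := sel R1 R2 hspan
  set q : A := (Matrix.of fun i => Sum.elim R1 R2 (e i)).det with hq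
  have hq0 : q ≠ 0 := by
    have h1 : LinearIndependent A (Matrix.of fun i => Sum.elim R1 R2 (e i)).row := he1
    rw [Matrix.linearIndependent_rows_iff_isUnit, Matrix.isUnit_iff_isUnit_det] at h1
    exact h1.ne_zero
  refine ⟨u, E, q, hE, hq0, fun N hN ω hω => ?_⟩
  apply h.const
  intro i P
  have hC : ∀ l, ∀ c : C, ∃ c' : C, (Dl l).restrictScalars ℤ (algebraMap C A c) =
      algebraMap C A c' := fun l c => ⟨d l c, hF.con l c⟩
  choose f hf using fun l => reg_mod h hδ ((Dl l).restrictScalars ℤ) (hC l)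
    (fun i => hF.zero l i) i P
  obtain ⟨dd, hd1, hd2⟩ := he2 i
  let g : Fin w → A := fun s => Sum.elim f (fun _ => 0) (e s)
  let Dm : Fin w → Derivation ℂ A A := fun s => Θ (e s) - g s • (δ i).restrictScalars ℂ
  have hDreg : ∀ s, DerReg (rk0 P) (Dm s) := by
    intro s z hz
    change P.Reg (Θ (e s) z - g s * δ i z)
    simp only [g]
    rcases e s with l | j
    · exact hf l z hz
    · change P.Reg (δ j z - 0 * δ i z)
      rw [zero_mul, sub_zero]
      exact hδ.reg h i j P z hz
  have hdet : pull (vol u) u E Dm = q := by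
    rw [pull_vol hE, hq]
    have h1 := det_mod (fun s => Sum.elim R1 R2 (e s)) g dd (by
      intro s
      simp only [g]
      rcases hs : e s with l | j
      · exact Or.inr (hd1 s l hs)
      · exact Or.inl rfl)
    rw [← h1]
    congr 1
    ext s j
    rw [Matrix.of_apply, Matrix.of_apply]
    change Θ (e s) (algebraMap K A (u j)) - g s * δ i (algebraMap K A (u j)) = _
    have h2 : δ i (algebraMap K A (u j)) = ∑ l, dd l * Sum.elim R1 R2 (e l) j := by
      have h3 := congrFun hd2 j
      rw [Finset.sum_apply] at h3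
      exact h3
    rw [h2]
    have h4 := congrFun (hΘ (e s)) j
    rw [← h4]
  have h1 := (local_reg hw (trdeg_all h hF.basis) (vol u) hN (ω E) (Bd := fun _ => False)
    (by
      intro v hv D hD
      rw [← pluri_eval' hE hω.1]
      exact hω.2 v hv D fun i => log_reg (hD i))
    (by
      intro v hv _ D hD
      rw [← pluri_eval' hE hω.1]
      exact hω.2 v hv D hD) hE (rk0 P) (divisorial0 h hF.basis i P) Dm).2 hDreg
        (fun _ _ _ h => h)
  rw [hdet] at h1
  exact h1

/-- ratios of pluricanonical forms are constants -/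
theorem ratio_con (h : EPr x y a b) (hm : Algebra.trdeg ℂ C = m) [Algebra.EssFiniteType ℂ K]
    (hw : Algebra.trdeg ℂ K = w) {N : ℕ} (hN : 0 < N) {ω₁ ω₂ : (Fin w → Derivation ℂ K K) → K}
    (h1 : Pluricanonical w N ω₁) (h2 : Pluricanonical w N ω₂) {D : Fin w → Derivation ℂ K K}
    (hD : ω₂ D ≠ 0) : ∃ c : C, algebraMap C A c = algebraMap K A (ω₁ D / ω₂ D) := by
  obtain ⟨u, E, q, hE, hq, hall⟩ := ratio_const (K := K) (w := w) h hm hw
  obtain ⟨c₁, hc₁⟩ := hall N hN ω₁ h1
  obtain ⟨c₂, hc₂⟩ := hall N hN ω₂ h2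
  rw [pluri_eval' hE h2.1] at hD
  have h3 : ω₂ E ≠ 0 := left_ne_zero_of_mul hD
  have h4 : vol u D ^ N ≠ 0 := right_ne_zero_of_mul hD
  have h5 : ω₁ D / ω₂ D = ω₁ E / ω₂ E := by
    rw [pluri_eval' hE h1.1, pluri_eval' hE h2.1, mul_div_mul_right _ _ h4]
  refine ⟨c₁ / c₂, ?_⟩
  rw [h5, map_div₀, map_div₀, hc₁, hc₂, mul_div_mul_right _ _ (pow_ne_zero _ hq)]

/-- varieties of general type are not covered by images of products of elliptic curves -/
theorem gt_const (h : EPr x y a b) (hm : Algebra.trdeg ℂ C = m) [Algebra.EssFiniteType ℂ K]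
    (hg : GeneralType ℂ K w) (r : K) : ∃ c : C, algebraMap C A c = algebraMap K A r := by
  obtain ⟨hw, N, hN, ω, h1, h2, D, hD, hind⟩ := hg
  have h3 : ∀ j, Pluricanonical w N (ω j) := fun j => ⟨h1 j, fun P hP => h2 P hP j⟩
  have h4 : ∀ i : Fin w, ∃ c : C, algebraMap C A c = algebraMap K A (ω i.succ D / ω 0 D) :=
    fun i => ratio_con h hm hw hN (h3 _) (h3 _) hD
  have hb : IsTranscendenceBasis ℂ (fun i : Fin w => ω i.succ D / ω 0 D) := by
    apply hind.isTranscendenceBasis_of_trdeg_le_of_finite
    rw [hw, Cardinal.mk_fin]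
  have halg := hb.isAlgebraic_field.isAlgebraic r
  have h5 : IsAlgebraic C (algebraMap K A r) := by
    obtain ⟨p, hp, hpr⟩ := halg
    have h6 : ∀ e : IntermediateField.adjoin ℂ
        (Set.range fun i : Fin w => ω i.succ D / ω 0 D), algebraMap K A (e : K) ∈
          (⊥ : IntermediateField C A) := by
      intro e
      have h7 : IntermediateField.adjoin ℂ (Set.range fun i : Fin w => ω i.succ D / ω 0 D) ≤
          ((⊥ : IntermediateField C A).restrictScalars ℂ).comap (IsScalarTower.toAlgHom ℂ K A) := by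
        rw [IntermediateField.adjoin_le_iff]
        rintro _ ⟨i, rfl⟩
        obtain ⟨c, hc⟩ := h4 i
        exact IntermediateField.mem_bot.2 ⟨c, hc⟩
      exact h7 e.2
    let φ : IntermediateField.adjoin ℂ (Set.range fun i : Fin w => ω i.succ D / ω 0 D) →+*
        (⊥ : IntermediateField C A) :=
      { toFun := fun e => ⟨algebraMap K A (e : K), h6 e⟩
        map_one' := Subtype.ext (map_one _)
        map_mul' := fun e e' => Subtype.ext (map_mul _ _ _)
        map_zero' := Subtype.ext (map_zero _)
        map_add' := fun e e' => Subtype.ext (map_add _ _ _) }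
    have h8 : IsAlgebraic (⊥ : IntermediateField C A) (algebraMap K A r) := by
      refine ⟨p.map φ, (Polynomial.map_ne_zero_iff φ.injective).2 hp, ?_⟩
      rw [Polynomial.aeval_def, Polynomial.eval₂_map]
      have h9 := congrArg (algebraMap K A) hpr
      rw [Polynomial.aeval_def, Polynomial.hom_eval₂, map_zero] at h9
      exact h9
    have hbot : Algebra.IsAlgebraic C (⊥ : IntermediateField C A) := ⟨fun x => by
      obtain ⟨c, hc⟩ := IntermediateField.mem_bot.1 x.2
      have : x = algebraMap C (⊥ : IntermediateField C A) c := Subtype.ext hc.symm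
      rw [this]
      exact isAlgebraic_algebraMap c⟩
    exact IsAlgebraic.restrictScalars C h8
  obtain ⟨c, hc⟩ := Pool.Agent.W602.GT.const_of_algebraic h5
  exact ⟨c, hc.symm⟩

end

end Pool.Agent.Helper6.EU
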