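import Pool.Agent.Helper6.EE.Pl2

/-! Derivations of elliptic function fields which do not kill the constants: regularity modulo the
invariant derivation. -/

set_option autoImplicit false
set_option linter.unusedSectionVars false

open Polynomial FF IntermediateField Pool.Agent.W603.LV

namespace Pool.Agent.Helper6.EU

open EE

variable {k K : Type} [Field k] [Field K] [Algebra k K]

/-- the local ring of a place as a localization -/
theorem loc_of (w : Place k K) {u v : K} {u₀ v₀ : k}
    (htop : IntermediateField.adjoin k {u, v} = ⊤) (hu : 0 < w.ord (u - algebraMap k K u₀))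
    (hv : Ge w 1 (v - algebraMap k K v₀)) (α β : k[X][X]) (hα : aevalAeval u₀ v₀ α ≠ 0)
    (h : (v - algebraMap k K v₀) * aevalAeval u v α =
      (u - algebraMap k K u₀) * aevalAeval u v β) (z : K) (hz : Ge w 0 z) :
    ∃ F G : k[X][X], aevalAeval u v G ≠ 0 ∧ w.ord (aevalAeval u v G) = 0 ∧
      z = aevalAeval u v F / aevalAeval u v G := by
  have hu1 : Ge w 1 (u - algebraMap k K u₀) := Or.inr (by omega)
  have hπ0 : u - algebraMap k K u₀ ≠ 0 := by
    intro h0
    rw [h0, w.ord_zero] at hu; omega
  have hu0 : Ge w 0 u := by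
    have := (hu1.mono (by norm_num : (0 : ℤ) ≤ 1)).add (Ge.const (P := w) u₀)
    simpa using this
  have hv0 : Ge w 0 v := by
    have := (hv.mono (by norm_num : (0 : ℤ) ≤ 1)).add (Ge.const (P := w) v₀)
    simpa using this
  have hreg : ∀ F : k[X][X], Ge w 0 (aevalAeval u v F) := by
    intro F
    induction F using Polynomial.induction_on with
    | C p => rw [aevalAeval_C]; exact ge_aeval w hu0 p
    | add p q hp hq => rw [map_add]; exact hp.add hq
    | monomial n p hp =>
      rw [pow_succ, ← mul_assoc, map_mul, aevalAeval_Y]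
      simpa using hp.mul hv0
  have hval : ∀ F : k[X][X], Ge w 1 (aevalAeval u v F - algebraMap k K (aevalAeval u₀ v₀ F)) := by
    intro F
    obtain ⟨H₁, H₂, e⟩ := taylor2 u₀ v₀ F
    have h1 := congrArg (aevalAeval u v) e
    simp only [map_add, map_sub, map_mul, aevalAeval_C, aevalAeval_Y, aeval_X, aeval_C] at h1
    rw [h1]
    have h2 := (hu1.mul (hreg H₁)).add (hv.mul (hreg H₂))
    have h3 : algebraMap k K (aevalAeval u₀ v₀ F) + (u - algebraMap k K u₀) * aevalAeval u v H₁ +
        (v - algebraMap k K v₀) * aevalAeval u v H₂ - algebraMap k K (aevalAeval u₀ v₀ F) =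
        (u - algebraMap k K u₀) * aevalAeval u v H₁ +
        (v - algebraMap k K v₀) * aevalAeval u v H₂ := by ring
    rw [h3]
    simpa using h2
  have hunit : ∀ F : k[X][X], aevalAeval u₀ v₀ F ≠ 0 →
      aevalAeval u v F ≠ 0 ∧ w.ord (aevalAeval u v F) = 0 := by
    intro F hF
    have h1 : algebraMap k K (aevalAeval u₀ v₀ F) ≠ 0 := by simpa using hF
    have h2 : aevalAeval u v F = algebraMap k K (aevalAeval u₀ v₀ F) +
        (aevalAeval u v F - algebraMap k K (aevalAeval u₀ v₀ F)) := by ring
    rcases hval F with h3 | h3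
    · rw [h2, h3, add_zero]
      exact ⟨h1, w.ord_const hF⟩
    · by_cases h4 : aevalAeval u v F - algebraMap k K (aevalAeval u₀ v₀ F) = 0
      · rw [h2, h4, add_zero]
        exact ⟨h1, w.ord_const hF⟩
      · have h5 := w.ord_add_eq h1 h4 (by rw [w.ord_const hF]; omega)
        rw [← h2] at h5
        exact ⟨h5.1, by rw [h5.2, w.ord_const hF]⟩
  -- elements of positive order are multiples of the uniformizer
  have hdec : ∀ F G : k[X][X], aevalAeval u₀ v₀ G ≠ 0 → aevalAeval u₀ v₀ F = 0 →
      ∃ F' G' : k[X][X], aevalAeval u₀ v₀ G' ≠ 0 ∧ aevalAeval u v F / aevalAeval u v G =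
        (u - algebraMap k K u₀) * (aevalAeval u v F' / aevalAeval u v G') := by
    intro F G hG hF
    obtain ⟨h1, h2⟩ := hunit G hG
    obtain ⟨h1α, h2α⟩ := hunit α hα
    obtain ⟨H₁, H₂, e⟩ := taylor2 u₀ v₀ F
    rw [hF] at e
    have h6 := congrArg (aevalAeval u v) e
    simp only [map_add, map_sub, map_mul, aevalAeval_C, aevalAeval_Y, aeval_X, aeval_C, map_zero,
      zero_add] at h6
    refine ⟨H₁ * α + H₂ * β, G * α, ?_, ?_⟩
    · rw [map_mul]
      exact mul_ne_zero hG hα
    · simp only [map_mul, map_add]
      field_simp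
      linear_combination (aevalAeval u v α) * h6 + (aevalAeval u v H₂) * h
  have hnz : ∀ F G : k[X][X], aevalAeval u₀ v₀ G ≠ 0 →
      Ge w 1 (aevalAeval u v F / aevalAeval u v G) → aevalAeval u₀ v₀ F = 0 := by
    intro F G hG hge
    by_contra hF
    obtain ⟨h1, h2⟩ := hunit F hF
    obtain ⟨h3, h4⟩ := hunit G hG
    rcases hge with h5 | h5
    · exact (div_ne_zero h1 h3) h5
    · rw [w.ord_div h1 h3, h2, h4] at h5
      omega
  have one : aevalAeval u₀ v₀ (1 : k[X][X]) ≠ 0 := by rw [map_one]; exact one_ne_zero
  have key : ∀ n : ℕ, ∀ F G F' G' : k[X][X], aevalAeval u₀ v₀ G ≠ 0 → aevalAeval u₀ v₀ G' ≠ 0 →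
      aevalAeval u v F' / aevalAeval u v G' ≠ 0 →
      w.ord (aevalAeval u v F' / aevalAeval u v G') < n →
      z * (aevalAeval u v F' / aevalAeval u v G') = aevalAeval u v F / aevalAeval u v G →
      ∃ F G : k[X][X], aevalAeval u v G ≠ 0 ∧ w.ord (aevalAeval u v G) = 0 ∧
        z = aevalAeval u v F / aevalAeval u v G := by
    intro n
    induction n with
    | zero =>
      intro F G F' G' hG hG' h0 hn
      exfalso
      have h1 := hreg F'
      obtain ⟨h3, h4⟩ := hunit G' hG'
      have h5 : aevalAeval u v F' ≠ 0 := fun h => h0 (by rw [h, zero_div])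
      rw [w.ord_div h5 h3, h4] at hn
      have := h1.resolve_left h5
      push_cast at hn
      omega
    | succ n ih =>
      intro F G F' G' hG hG' h0 hn hzz
      by_cases hF' : aevalAeval u₀ v₀ F' = 0
      · obtain ⟨F1, G1, hG1, e1⟩ := hdec F' G' hG' hF'
        have hF0 : aevalAeval u₀ v₀ F = 0 := by
          apply hnz F G hG
          rw [← hzz, e1]
          have h2 : Ge w 0 (aevalAeval u v F1 / aevalAeval u v G1) := by
            obtain ⟨h3, h4⟩ := hunit G1 hG1
            rcases hreg F1 with h5 | h5
            · rw [h5, zero_div]; exact Or.inl rfl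
            · by_cases h6 : aevalAeval u v F1 = 0
              · rw [h6, zero_div]; exact Or.inl rfl
              · right
                rw [w.ord_div h6 h3, h4]; omega
          simpa using hz.mul (hu1.mul h2)
        obtain ⟨F2, G2, hG2, e2⟩ := hdec F G hG hF0
        have hne : aevalAeval u v F1 / aevalAeval u v G1 ≠ 0 := by
          intro h3
          rw [e1, h3, mul_zero] at h0
          exact h0 rfl
        refine ih F2 G2 F1 G1 hG2 hG1 hne ?_ ?_
        · rw [e1, w.ord_mul hπ0 hne] at hn
          push_cast at hn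
          omega
        · rw [e1, e2] at hzz
          apply mul_left_cancel₀ hπ0
          linear_combination hzz
      · obtain ⟨h3, h4⟩ := hunit F' hF'
        obtain ⟨h5, h6⟩ := hunit G hG
        obtain ⟨h7, h8⟩ := hunit G' hG'
        refine ⟨F * G', G * F', ?_, ?_, ?_⟩
        · rw [map_mul]
          exact mul_ne_zero h5 h3
        · rw [map_mul, w.ord_mul h5 h3, h6, h4, add_zero]
        · rw [map_mul, map_mul]
          field_simp at hzz ⊢
          linear_combination hzz
  have hz' : z ∈ IntermediateField.adjoin k {u, v} := by rw [htop]; trivial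
  rw [IntermediateField.mem_adjoin_iff_div] at hz'
  obtain ⟨r, hr, s, hs, e⟩ := hz'
  rw [range_aa] at hr hs
  obtain ⟨F, rfl⟩ := hr
  obtain ⟨G, rfl⟩ := hs
  change z = aevalAeval u v F / aevalAeval u v G at e
  by_cases hG : aevalAeval u v G = 0
  · refine ⟨0, 1, by simp, by rw [map_one, w.ord_one], ?_⟩
    rw [e, hG]; simp
  · obtain ⟨n, hn⟩ : ∃ n : ℕ, w.ord (aevalAeval u v G / aevalAeval u v (1 : k[X][X])) < n :=
      ⟨(w.ord (aevalAeval u v G / aevalAeval u v (1 : k[X][X]))).toNat + 1, by push_cast; omega⟩
    refine key n F 1 G 1 one one ?_ hn ?_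
    · rw [map_one, div_one]; exact hG
    · rw [map_one, div_one, div_one, e, div_mul_cancel₀ _ hG]

theorem der_reg (w : Place k K) {u v : K} (D : Derivation ℤ K K)
    (hk : ∀ c : k, Ge w 0 (D (algebraMap k K c))) (hu : Ge w 0 u) (hv : Ge w 0 v)
    (hDu : Ge w 0 (D u)) (hDv : Ge w 0 (D v)) (F : k[X][X]) :
    Ge w 0 (aevalAeval u v F) ∧ Ge w 0 (D (aevalAeval u v F)) := by
  have hmul : ∀ p q : K, Ge w 0 p ∧ Ge w 0 (D p) → Ge w 0 q ∧ Ge w 0 (D q) →
      Ge w 0 (p * q) ∧ Ge w 0 (D (p * q)) := by
    intro p q hp hq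
    refine ⟨by simpa using hp.1.mul hq.1, ?_⟩
    rw [D.leibniz, smul_eq_mul, smul_eq_mul]
    refine Ge.add ?_ ?_
    · simpa using hp.1.mul hq.2
    · simpa using hq.1.mul hp.2
  have hone : ∀ p : k[X], Ge w 0 (aeval u p) ∧ Ge w 0 (D (aeval u p)) := by
    intro p
    induction p using Polynomial.induction_on with
    | C c => rw [aeval_C]; exact ⟨Ge.const c, hk c⟩
    | add p q hp hq => rw [map_add, map_add]; exact ⟨hp.1.add hq.1, hp.2.add hq.2⟩
    | monomial n c hp =>
      rw [pow_succ, ← mul_assoc, map_mul, aeval_X]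
      exact hmul _ _ hp ⟨hu, hDu⟩
  induction F using Polynomial.induction_on with
  | C p => rw [aevalAeval_C]; exact hone p
  | add p q hp hq => rw [map_add, map_add]; exact ⟨hp.1.add hq.1, hp.2.add hq.2⟩
  | monomial n p hp =>
    rw [pow_succ, ← mul_assoc, map_mul, aevalAeval_Y]
    exact hmul _ _ hp ⟨hv, hDv⟩

/-- derivations which are regular on generators are regular -/
theorem der_loc (w : Place k K) {u v : K} {u₀ v₀ : k}
    (htop : IntermediateField.adjoin k {u, v} = ⊤) (hu : 0 < w.ord (u - algebraMap k K u₀))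
    (hv : Ge w 1 (v - algebraMap k K v₀)) (α β : k[X][X]) (hα : aevalAeval u₀ v₀ α ≠ 0)
    (h : (v - algebraMap k K v₀) * aevalAeval u v α =
      (u - algebraMap k K u₀) * aevalAeval u v β) (D : Derivation ℤ K K)
    (hk : ∀ c : k, Ge w 0 (D (algebraMap k K c)))
    (hDu : Ge w 0 (D u)) (hDv : Ge w 0 (D v)) (z : K) (hz : Ge w 0 z) : Ge w 0 (D z) := by
  have hu1 : Ge w 1 (u - algebraMap k K u₀) := Or.inr (by omega)
  have hu0 : Ge w 0 u := by
    have := (hu1.mono (by norm_num : (0 : ℤ) ≤ 1)).add (Ge.const (P := w) u₀)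
    simpa using this
  have hv0 : Ge w 0 v := by
    have := (hv.mono (by norm_num : (0 : ℤ) ≤ 1)).add (Ge.const (P := w) v₀)
    simpa using this
  obtain ⟨F, G, h1, h2, h3⟩ := loc_of w htop hu hv α β hα h z hz
  have hF := der_reg w D hk hu0 hv0 hDu hDv F
  have hG := der_reg w D hk hu0 hv0 hDu hDv G
  set n := aevalAeval u v F
  set d := aevalAeval u v G
  have h4 : D z = (D n - z * D d) * d⁻¹ := by
    have h5 : n = z * d := by rw [h3]; field_simp
    rw [h5, D.leibniz, smul_eq_mul, smul_eq_mul]
    field_simp
    ring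
  have hdi : Ge w 0 d⁻¹ := Or.inr (by rw [w.ord_inv, h2]; simp)
  rw [h4]
  have h5 : Ge w 0 (z * D d) := by simpa using hz.mul hG.2
  simpa using (hF.2.sub h5).mul hdi

section
variable [CharZero k] [IsFF k K] [IsAlgClosed k]

/-- **Regularity modulo the invariant derivation.** -/
theorem ell_mod (w : Place k K) {a b : k} (hab : 4 * a ^ 3 + 27 * b ^ 2 ≠ 0) {x y : K}
    (hx : Transcendental k x)
    (hy : y ^ 2 = x ^ 3 + algebraMap k K a * x + algebraMap k K b)
    (htop : IntermediateField.adjoin k {x, y} = ⊤) {δ : Derivation k K K} (hδ : δ x = 2 * y)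
    (D : Derivation ℤ K K) (hk : ∀ c : k, ∃ c' : k, D (algebraMap k K c) = algebraMap k K c')
    (hDx : D x = 0) : ∃ f : K, ∀ z, Ge w 0 z → Ge w 0 (D z - f * δ z) := by
  have hK : CharZero K := charZero_of_injective_algebraMap (algebraMap k K).injective
  have hy0 : y ≠ 0 := by
    rintro rfl
    have h1 : aeval x (cub a b) = 0 := by rw [aeval_cub, ← hy]; simp
    exact cub_ne_zero a b (transcendental_iff.1 hx _ h1)
  have hyt : Transcendental k y := by
    intro hya
    have h1 : aeval x (cub a b) = y ^ 2 := by rw [aeval_cub, hy]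
    have h2 : Transcendental k (aeval x (cub a b)) := by
      apply hx.aeval
      · rw [cub_natDegree]; norm_num
      · exact mem_nonZeroDivisors_of_ne_zero (leadingCoeff_ne_zero.2 (cub_ne_zero a b))
    rw [h1] at h2
    exact h2 (hya.pow 2)
  have hδy : δ y = 3 * x ^ 2 + algebraMap k K a := by
    have h1 := congrArg δ hy
    simp only [map_add, δ.leibniz_pow, δ.leibniz, δ.map_algebraMap, smul_eq_mul, nsmul_eq_mul,
      hδ] at h1
    push_cast at h1
    have h2 : 2 * y * δ y = 2 * y * (3 * x ^ 2 + algebraMap k K a) := by linear_combination h1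
    exact mul_left_cancel₀ (mul_ne_zero two_ne_zero hy0) h2
  obtain ⟨a', ha'⟩ := hk a
  obtain ⟨b', hb'⟩ := hk b
  have hDy2 : 2 * y * D y = algebraMap k K a' * x + algebraMap k K b' := by
    have h1 := congrArg D hy
    simp only [map_add, D.leibniz_pow, D.leibniz, smul_eq_mul, nsmul_eq_mul, hDx, ha', hb'] at h1
    push_cast at h1
    linear_combination h1
  have hDy : D y = (algebraMap k K a' * x + algebraMap k K b') / (2 * y) := by
    rw [eq_div_iff (mul_ne_zero two_ne_zero hy0)]
    linear_combination hDy2
  have two : w.ord (2 : K) = 0 := by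
    have := w.ord_const (c := (2 : k)) two_ne_zero
    rwa [map_ofNat] at this
  have hkreg : ∀ c : k, Ge w 0 (D (algebraMap k K c)) := by
    intro c
    obtain ⟨c', hc'⟩ := hk c
    rw [hc']
    exact Ge.const c'
  have ge_div : ∀ {p q : K} {M : ℤ}, Ge w M p → q ≠ 0 → Ge w (M - w.ord q) (p / q) := by
    intro p q M hp hq
    by_cases hp0 : p = 0
    · rw [hp0, zero_div]; exact Or.inl rfl
    · right
      rw [w.ord_div hp0 hq]
      have := hp.resolve_left hp0
      omega
  by_cases hreg : Ge w 0 x
  · have hyreg : Ge w 0 y := by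
      right
      have h1 : Ge w 0 (y ^ 2) := by
        rw [hy]
        refine ((?_ : Ge w 0 (x ^ 3)).add ?_).add (Ge.const b)
        · simpa using hreg.pow 3
        · simpa using (Ge.const (P := w) a).mul hreg
      have h2 := h1.resolve_left (pow_ne_zero 2 hy0)
      rw [w.ord_pow] at h2
      push_cast at h2; omega
    have hlin : Ge w 0 (algebraMap k K a' * x + algebraMap k K b') := by
      refine Ge.add ?_ (Ge.const b')
      simpa using (Ge.const (P := w) a').mul hreg
    obtain ⟨x₀, hx₀⟩ := ord_sub_const w hx hreg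
    obtain ⟨y₀, hy₀⟩ := ord_sub_const w hyt hyreg
    have hx1 : Ge w 1 (x - algebraMap k K x₀) := Or.inr (by omega)
    have hy1 : Ge w 1 (y - algebraMap k K y₀) := Or.inr (by omega)
    -- the point lies on the curve
    have heq : y₀ ^ 2 = x₀ ^ 3 + a * x₀ + b := by
      have h1 : Ge w 1 (algebraMap k K (y₀ ^ 2 - (x₀ ^ 3 + a * x₀ + b))) := by
        have h2 : algebraMap k K (y₀ ^ 2 - (x₀ ^ 3 + a * x₀ + b)) =
            (x - algebraMap k K x₀) * (x ^ 2 + x * algebraMap k K x₀ + algebraMap k K x₀ ^ 2 +
              algebraMap k K a) - (y - algebraMap k K y₀) * (y + algebraMap k K y₀) := by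
          simp only [map_sub, map_add, map_mul, map_pow]
          linear_combination hy
        rw [h2]
        refine Ge.sub ?_ ?_
        · refine (hx1.mul (M := 0) ?_).mono (by norm_num)
          refine (Ge.add (Ge.add ?_ ?_) ?_).add (Ge.const a)
          · simpa using hreg.pow 2
          · simpa using hreg.mul (Ge.const x₀)
          · rw [← map_pow]; exact Ge.const _
        · exact (hy1.mul (hyreg.add (Ge.const y₀))).mono (by norm_num)
      by_contra hne
      have h3 : y₀ ^ 2 - (x₀ ^ 3 + a * x₀ + b) ≠ 0 := sub_ne_zero.2 hne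
      rcases h1 with h1 | h1
      · exact h3 ((map_eq_zero _).1 h1)
      · rw [w.ord_const h3] at h1; omega
    by_cases hy00 : y₀ = 0
    · -- two-torsion
      subst hy00
      have hf' : 3 * x₀ ^ 2 + a ≠ 0 := by
        intro h0
        apply hab
        have h1 : x₀ ^ 3 + a * x₀ + b = 0 := by rw [← heq]; ring
        linear_combination (27 * b - 18 * a * x₀) * h1 +
          (6 * a * x₀ ^ 2 - 9 * b * x₀ + 4 * a ^ 2) * h0
      have hy2 : 0 < w.ord (y - algebraMap k K 0) := hy₀
      have h3 := (ge_one_of_const w (z := 3 * x ^ 2 + algebraMap k K a)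
        (c := 3 * x₀ ^ 2 + a) (by
          have h4 : 3 * x ^ 2 + algebraMap k K a - algebraMap k K (3 * x₀ ^ 2 + a) =
              (x - algebraMap k K x₀) * (algebraMap k K 3 * (x + algebraMap k K x₀)) := by
            simp only [map_add, map_mul, map_pow, map_ofNat]; ring
          rw [h4]
          have := hx1.mul ((Ge.const (P := w) (3 : k)).mul (hreg.add (Ge.const x₀)))
          simpa using this) hf')
      set g := 3 * x ^ 2 + algebraMap k K a with hg
      let f : K := (algebraMap k K a' * x + algebraMap k K b') / (2 * y * g)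
      let E : Derivation ℤ K K := D - f • δ.restrictScalars ℤ
      have hE : ∀ z, E z = D z - f * δ z := fun z => rfl
      refine ⟨f, fun z hz => ?_⟩
      rw [← hE]
      refine der_loc w (u := y) (v := x) (u₀ := 0) (v₀ := x₀) ?_ hy2 hx1
          (X ^ 2 + C (C x₀) * X + C (C (x₀ ^ 2 + a))) (C X) ?_ ?_ E ?_ ?_ ?_ z hz
      · rw [← htop, Set.pair_comm]
      · simp only [map_add, map_mul, map_pow, aevalAeval_Y, aevalAeval_C, aeval_C]
        simp only [Algebra.algebraMap_self, RingHom.id_apply]
        intro h0; apply hf'; linear_combination h0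
      · simp only [map_add, map_mul, map_pow, aevalAeval_Y, aevalAeval_C, aeval_C, aeval_X,
          map_zero, sub_zero]
        have heqK := congrArg (algebraMap k K) heq
        simp only [map_add, map_mul, map_pow, map_zero] at heqK
        linear_combination -hy + heqK
      · intro c
        rw [hE, δ.map_algebraMap, mul_zero, sub_zero]
        exact hkreg c
      · rw [hE, hδy, hDy]
        left
        have hg0 := h3.1
        change (algebraMap k K a' * x + algebraMap k K b') / (2 * y) -
          (algebraMap k K a' * x + algebraMap k K b') / (2 * y * g) * g = 0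
        rw [div_mul_eq_mul_div, mul_div_mul_right _ _ hg0, sub_self]
      · rw [hE, hDx, hδ]
        have h5 : 0 - f * (2 * y) = -((algebraMap k K a' * x + algebraMap k K b') / g) := by
          have hg0 := h3.1
          simp only [f]
          field_simp
          ring
        rw [h5]
        apply Ge.neg
        have := ge_div hlin h3.1
        rwa [h3.2, sub_zero] at this
    · refine ⟨0, fun z hz => ?_⟩
      rw [zero_mul, sub_zero]
      have h3 := ge_one_of_const w (z := y) hy1 hy00
      refine der_loc w (u := x) (v := y) (u₀ := x₀) (v₀ := y₀) htop hx₀ hy1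
          (X + C (C y₀)) (C (X ^ 2 + C x₀ * X + C (x₀ ^ 2 + a))) ?_ ?_ D hkreg ?_ ?_ z hz
      · simp only [map_add, aevalAeval_Y, aevalAeval_C, aeval_C]
        simp only [Algebra.algebraMap_self, RingHom.id_apply]
        intro h0
        apply hy00
        have h5 : (2 : k) * y₀ = 0 := by linear_combination h0
        exact (mul_eq_zero.1 h5).resolve_left two_ne_zero
      · simp only [map_add, map_mul, map_pow, aevalAeval_Y, aevalAeval_C, aeval_C, aeval_X]
        have heqK := congrArg (algebraMap k K) heq
        simp only [map_add, map_mul, map_pow] at heqK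
        linear_combination hy - heqK
      · rw [hDx]; exact Or.inl rfl
      · rw [hDy]
        have := ge_div hlin (mul_ne_zero two_ne_zero hy0)
        rwa [w.ord_mul two_ne_zero hy0, two, h3.2, add_zero, sub_zero] at this
  · -- infinity
    have hneg : w.ord x < 0 := by
      by_contra h
      exact hreg (Or.inr (by omega))
    have hx0 : x ≠ 0 := by
      rintro rfl
      exact hreg (Or.inl rfl)
    obtain ⟨-, hxy⟩ := pole_xy w hneg hy
    have hlin : Ge w (w.ord x) (algebraMap k K a' * x + algebraMap k K b') := by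
      refine Ge.add ?_ ((Ge.const b').mono (by omega))
      simpa using (Ge.const (P := w) a').mul (Or.inr le_rfl : Ge w (w.ord x) x)
    set s := x / y with hs
    set t := y⁻¹ with ht
    have hs0 : s ≠ 0 := div_ne_zero hx0 hy0
    have hsord : w.ord s = w.ord x - w.ord y := w.ord_div hx0 hy0
    have htord : w.ord t = - w.ord y := w.ord_inv y
    refine ⟨0, fun z hz => ?_⟩
    rw [zero_mul, sub_zero]
    have hy3 : (2 : K) * y ^ 3 ≠ 0 := mul_ne_zero two_ne_zero (pow_ne_zero 3 hy0)
    have hord3 : w.ord ((2 : K) * y ^ 3) = 3 * w.ord y := by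
      rw [w.ord_mul two_ne_zero (pow_ne_zero 3 hy0), two, w.ord_pow]
      push_cast
      ring
    refine der_loc w (u := s) (v := t) (u₀ := 0) (v₀ := 0) ?_ ?_ ?_
        (1 - C (C a * X) * X - C (C b) * X ^ 2) (C (X ^ 2)) ?_ ?_ D hkreg ?_ ?_ z hz
    · rw [eq_top_iff, ← htop]
      apply IntermediateField.adjoin_le_iff.2
      have hsm : s ∈ IntermediateField.adjoin k {s, t} := subset_adjoin _ _ (by simp)
      have htm : t ∈ IntermediateField.adjoin k {s, t} := subset_adjoin _ _ (by simp)
      have hym : y ∈ IntermediateField.adjoin k {s, t} := by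
        have := inv_mem htm
        rwa [ht, inv_inv] at this
      intro z hz
      rcases hz with rfl | hz
      · have := mul_mem hsm hym
        rwa [hs, div_mul_cancel₀ _ hy0] at this
      · rw [Set.mem_singleton_iff] at hz
        subst hz
        exact hym
    · rw [map_zero, sub_zero]; omega
    · right; rw [map_zero, sub_zero]; omega
    · simp only [map_sub, map_one, map_mul, map_pow, aevalAeval_Y, aevalAeval_C, aeval_C,
        aeval_X]
      simp
    · simp only [map_sub, map_one, map_mul, map_pow, aevalAeval_Y, aevalAeval_C, aeval_C,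
        aeval_X, map_zero, sub_zero]
      rw [hs, ht]
      field_simp
      linear_combination hy
    · have h5 : D s = -(x * (algebraMap k K a' * x + algebraMap k K b') / (2 * y ^ 3)) := by
        rw [hs, D.leibniz_div, hDx, hDy]
        simp only [smul_eq_mul]
        field_simp
        ring
      rw [h5]
      apply Ge.neg
      have hxx : Ge w (w.ord x) x := Or.inr le_rfl
      have h6 := ge_div (hxx.mul hlin) hy3
      refine h6.mono ?_
      rw [hord3]
      omega
    · have h5 : D t = -((algebraMap k K a' * x + algebraMap k K b') / (2 * y ^ 3)) := by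
        rw [ht, D.leibniz_inv, hDy]
        simp only [smul_eq_mul]
        field_simp
      rw [h5]
      apply Ge.neg
      have h6 := ge_div hlin hy3
      refine h6.mono ?_
      rw [hord3]
      omega

end

end Pool.Agent.Helper6.EU
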