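import Pool.Agent.Helper6.EU.Red
import Pool.Agent.Helper6.EE.Ent

/-! Families of germs of curves of bounded complexity. -/

set_option autoImplicit false
set_option linter.unusedSectionVars false

namespace Pool.Agent.Helper6.EU

open EE Filter Topology MvPolynomial Pool.Agent.Y377.IL Pool.Agent.E8helper4.EL
open scoped LinearAlgebra.Projectivization PeriodPair
open Pool.Agent.TH143.GT (FunField Covered Pluricanonical)
open Pool.Agent.W602.GT (IsForm coords exists_embedding GeneralType)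
open Pool.Agent.TH143.EL (HolMap Rep InV inV_iff inV_of_punct mero_id freq_of_ev codis_ev mero_eval
  rep_rep codis_rep codis_nhds)
open Pool.Agent.Y564.IL (t_TAY)

variable {N : ℕ} {p : Ideal (MvPolynomial (Fin (N + 1)) ℂ)} {K : Type} [Field K] [Algebra ℂ K]
  {w : ℕ} {y : Fin (N + 1) → K}

/-- The forms that do not vanish on the variety. -/
def NF (p : Ideal (MvPolynomial (Fin (N + 1)) ℂ)) : Type :=
  {G : MvPolynomial (Fin (N + 1)) ℂ // IsForm G ∧ G ∉ p}

theorem mem_iff (hy : FunField p 1 K w y) {G : MvPolynomial (Fin (N + 1)) ℂ} (hG : IsForm G) :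
    G ∈ p ↔ aeval y G = 0 := ⟨fun h => hy.sub.mem G h, fun h => hy.mem G hG h⟩

theorem form_mul {A B : MvPolynomial (Fin (N + 1)) ℂ} (hA : IsForm A) (hB : IsForm B) :
    IsForm (A * B) := by
  obtain ⟨a, ha⟩ := hA
  obtain ⟨b, hb⟩ := hB
  exact ⟨a + b, ha.mul hb⟩

theorem exists_U (hy : FunField p 1 K w y) : ∃ U : Ultrafilter (NF p), ∀ G1 : NF p,
    ∀ᶠ i in (U : Filter (NF p)), G1.1 ∣ i.1 := by
  have hone : Nonempty (NF p) := by
    refine ⟨⟨1, ⟨0, isHomogeneous_one _ _⟩, ?_⟩⟩
    rw [mem_iff hy ⟨0, isHomogeneous_one _ _⟩, map_one]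
    exact one_ne_zero
  let F : Filter (NF p) := ⨅ G1 : NF p, 𝓟 {i | G1.1 ∣ i.1}
  have hF : F.NeBot := by
    apply iInf_neBot_of_directed
    · intro G1 G2
      refine ⟨⟨G1.1 * G2.1, form_mul G1.2.1 G2.2.1, ?_⟩, ?_, ?_⟩
      · rw [mem_iff hy (form_mul G1.2.1 G2.2.1), map_mul, mul_eq_zero, ← mem_iff hy G1.2.1,
          ← mem_iff hy G2.2.1]
        rintro (h | h)
        · exact G1.2.2 h
        · exact G2.2.2 h
      · exact principal_mono.2 fun i hi => dvd_trans (dvd_mul_right _ _) hi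
      · exact principal_mono.2 fun i hi => dvd_trans (dvd_mul_left _ _) hi
    · intro G1
      exact principal_neBot_iff.2 ⟨G1, dvd_rfl⟩
  refine ⟨Ultrafilter.of F, fun G1 => ?_⟩
  exact (Ultrafilter.of_le F) (mem_iInf_of_mem G1 (mem_principal_self _))

section

variable {ι : Type} {U : Ultrafilter ι} {D : Derivation ℂ LK LK} {C L : Type} [Field C]
  [CharZero C] [Field L] [Algebra C L] [Algebra ℂ C] [Algebra ℂ L] [IsScalarTower ℂ C L]
  {D' : Derivation C L L} {π : (ι → LK) →+* L} {θ : (ι → ℂ) →+* C} {z : ι → ℂ}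

theorem cl_eval (hu : Ult U D C L D' π θ) (hθ : ∀ c, algebraMap ℂ C c = θ fun _ => c)
    {h : ι → Fin (N + 1) → ℂ → ℂ} (han : ∀ i j, AnalyticAt ℂ (h i j) (z i))
    (G : MvPolynomial (Fin (N + 1)) ℂ) :
    cl π z (fun i w => eval (fun j => h i j w) G) = aeval (fun j => cl π z fun i => h i j) G := by
  have hG : ∀ (G : MvPolynomial (Fin (N + 1)) ℂ) i,
      AnalyticAt ℂ (fun w => eval (fun j => h i j w) G) (z i) := fun G i =>
    (ty_eval' (han i) G).1
  induction G using MvPolynomial.induction_on with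
  | C a =>
    simp only [eval_C, algHom_C]
    rw [cl_const hu (fun _ => a), ← hθ, ← IsScalarTower.algebraMap_apply]
  | add q r hq hr =>
    simp only [map_add]
    rw [cl_add hu (Eventually.of_forall fun i => hG q i) (Eventually.of_forall fun i => hG r i),
      hq, hr]
  | mul_X q j hq =>
    simp only [map_mul, eval_X, aeval_X]
    rw [cl_mul hu (Eventually.of_forall fun i => hG q i) (Eventually.of_forall fun i => han i j),
      hq]

theorem cl_zero (hu : Ult U D C L D' π θ) {f : ι → ℂ → ℂ} (hf : ∀ i, AnalyticAt ℂ (f i) (z i)) :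
    cl π z f = 0 ↔ ∀ᶠ i in (U : Filter ι), ∀ᶠ w in 𝓝 (z i), f i w = 0 := by
  unfold cl
  rw [hu.zero]
  constructor
  · intro h
    filter_upwards [h] with i hi
    exact (ty_zero t_TAY (hf i)).1 hi
  · intro h
    filter_upwards [h] with i hi
    exact (ty_zero t_TAY (hf i)).2 hi

/-- The function field of the variety embeds in the ultrapower. -/
theorem emb_U (hy : FunField p 1 K w y) (hu : Ult U D C L D' π θ)
    (hθ : ∀ c, algebraMap ℂ C c = θ fun _ => c)
    {h : ι → Fin (N + 1) → ℂ → ℂ} (han : ∀ i j, AnalyticAt ℂ (h i j) (z i))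
    (h1 : ∀ i, ∀ G : MvPolynomial (Fin (N + 1)) ℂ, IsForm G → G ∈ p →
      ∀ᶠ w in 𝓝 (z i), eval (fun j => h i j w) G = 0)
    (h2 : ∀ G : MvPolynomial (Fin (N + 1)) ℂ, IsForm G → G ∉ p →
      ∀ᶠ i in (U : Filter ι), ¬ ∀ᶠ w in 𝓝 (z i), eval (fun j => h i j w) G = 0)
    {F : IntermediateField C L} (hF : ∀ j, cl π z (fun i => h i j) ∈ F) :
    ∃ ψ : K →ₐ[ℂ] L, (∀ r, ψ r ∈ F) ∧
      ∀ (d : ℕ) (A B : MvPolynomial (Fin (N + 1)) ℂ), A.IsHomogeneous d → B.IsHomogeneous d →
        B ∉ p → (∃ c : C, algebraMap C L c = ψ (aeval y A / aeval y B)) →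
        ∀ᶠ i in (U : Filter ι), ∃ c : ℂ, ∀ᶠ w in 𝓝 (z i),
          eval (fun j => h i j w) A = c * eval (fun j => h i j w) B := by
  have hG : ∀ (G : MvPolynomial (Fin (N + 1)) ℂ) i,
      AnalyticAt ℂ (fun w => eval (fun j => h i j w) G) (z i) := fun G i =>
    (ty_eval' (han i) G).1
  let v : Fin (N + 1) → L := fun j => cl π z fun i => h i j
  have hv : ∀ G : MvPolynomial (Fin (N + 1)) ℂ, aeval v G =
      cl π z (fun i w => eval (fun j => h i j w) G) := fun G => (cl_eval hu hθ han G).symm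
  have hrel : ∀ G : MvPolynomial (Fin (N + 1)) ℂ, IsForm G → (G ∈ p ↔ aeval v G = 0) := by
    intro G hGf
    rw [hv, cl_zero hu (hG G)]
    constructor
    · intro h3
      exact Eventually.of_forall fun i => h1 i G hGf h3
    · intro h3
      by_contra hcon
      obtain ⟨i, hi1, hi2⟩ := (h3.and (h2 G hGf hcon)).exists
      exact hi2 hi1
  have hrel' : ∀ G : MvPolynomial (Fin (N + 1)) ℂ, IsForm G →
      (W602.GT.val y G = 0 ↔ W602.GT.val v G = 0) := fun G hGf =>
    (mem_iff hy hGf).symm.trans (hrel G hGf)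
  obtain ⟨l, hl⟩ : ∃ l, y l ≠ 0 := Function.ne_iff.1 hy.sub.ne
  have hl1 : (X l : MvPolynomial (Fin (N + 1)) ℂ) ∉ p := by
    rw [mem_iff hy ⟨1, isHomogeneous_X _ _⟩, aeval_X]
    exact hl
  have hl' : v l ≠ 0 := by
    intro h0
    apply hl1
    rw [hrel _ ⟨1, isHomogeneous_X _ _⟩, aeval_X]
    exact h0
  obtain ⟨ψ, hψ⟩ := exists_embedding (k := ℂ) (y := y) (i0 := l) (y' := v) hl hl' hy.sub.gen hrel'
  refine ⟨ψ, ?_, ?_⟩
  · have h5 : (⊤ : IntermediateField ℂ K) ≤ (F.restrictScalars ℂ).comap ψ := by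
      rw [← hy.sub.gen]
      unfold coords
      rw [IntermediateField.adjoin_le_iff]
      rintro _ ⟨i, j, hj, rfl⟩
      change ψ (y i / y j) ∈ F
      have h6 : y i / y j = (y i / y l) / (y j / y l) := (div_div_div_cancel_right₀ hl _ _).symm
      rw [h6, map_div₀, hψ, hψ]
      exact div_mem (div_mem (hF i) (hF l)) (div_mem (hF j) (hF l))
    exact fun r => h5 (by trivial : r ∈ (⊤ : IntermediateField ℂ K))
  · rintro d A B hA hB hBp ⟨c, hc⟩
    have hsc : ∀ {M : Type} [Field M] [Algebra ℂ M] (u : Fin (N + 1) → M), u l ≠ 0 →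
        ∀ {G : MvPolynomial (Fin (N + 1)) ℂ}, G.IsHomogeneous d →
        aeval u G = u l ^ d * aeval (fun j => u j / u l) G := by
      intro M _ _ u hul G hGd
      rw [← form_scale hGd (u l) (fun j => u j / u l)]
      congr 2
      funext j
      field_simp
    have hψ2 : ∀ G : MvPolynomial (Fin (N + 1)) ℂ,
        ψ (aeval (fun j => y j / y l) G) = aeval (fun j => v j / v l) G := by
      intro G
      have e1 := MvPolynomial.comp_aeval_apply (f := fun j => y j / y l) ψ G
      rw [e1]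
      congr 2
      funext j
      exact hψ j
    have hB0 : aeval v B ≠ 0 := fun h0 => hBp ((hrel B ⟨d, hB⟩).2 h0)
    have h5 : ψ (aeval y A / aeval y B) = aeval v A / aeval v B := by
      rw [hsc y hl hA, hsc y hl hB, hsc v hl' hA, hsc v hl' hB,
        mul_div_mul_left _ _ (pow_ne_zero _ hl), mul_div_mul_left _ _ (pow_ne_zero _ hl'),
        map_div₀, hψ2, hψ2]
    rw [h5, eq_div_iff hB0, hv, hv] at hc
    obtain ⟨c, rfl⟩ := hu.tsurj c
    rw [← cl_const hu (z := z), ← cl_mul hu (f := fun i _ => c i)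
      (Eventually.of_forall fun i => analyticAt_const)
      (Eventually.of_forall fun i => hG B i), ← sub_eq_zero] at hc
    unfold cl at hc
    rw [← map_sub, hu.zero] at hc
    filter_upwards [hc] with i hi
    refine ⟨c i, ?_⟩
    have h6 : ty (z i) (fun w => c i * eval (fun j => h i j w) B) =
        ty (z i) (fun w => eval (fun j => h i j w) A) := by
      rwa [Pi.sub_apply, sub_eq_zero] at hi
    have a1 : AnalyticAt ℂ (fun w => c i * eval (fun j => h i j w) B) (z i) :=
      analyticAt_const.mul (hG B i)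
    have a2 : AnalyticAt ℂ (fun w => (-1) * (c i * eval (fun j => h i j w) B)) (z i) :=
      analyticAt_const.mul a1
    have a3 : AnalyticAt ℂ (fun w => (-1) * (c i * eval (fun j => h i j w) B) +
        eval (fun j => h i j w) A) (z i) := a2.add (hG A i)
    have h7 : ty (z i) (fun w => (-1) * (c i * eval (fun j => h i j w) B) +
        eval (fun j => h i j w) A) = 0 := by
      rw [ty_add t_TAY a2 (hG A i), ty_mul t_TAY analyticAt_const a1, h6, ty_const t_TAY]
      simp
    rw [ty_zero t_TAY a3] at h7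
    filter_upwards [h7] with w hw
    linear_combination hw

end

end Pool.Agent.Helper6.EU
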