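import Pool.Agent.Helper6.EU.SetU

/-! Sequences of germs of bounded complexity. -/

set_option autoImplicit false
set_option linter.unusedSectionVars false

open WeierstrassCurve Filter Topology
open scoped PeriodPair

namespace Pool.Agent.Helper6.EU

open EE Pool.Agent.Y377.IL Pool.Agent.E8helper4.EL
open Pool.Agent.Y564.IL (t_TAY)

theorem ExpEllD.an {z0 : ℂ} {n : ℕ} {f : ℂ → ℂ} (h : ExpEllD z0 n f) : AnalyticAt ℂ f z0 := by
  induction h with
  | const n c => exact analyticAt_const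
  | var n => exact analyticAt_id
  | add _ _ h1 h2 => exact h1.add h2
  | mul _ _ h1 h2 => exact h1.mul h2
  | div _ _ h0 h1 h2 => exact h1.div h2 h0
  | exp _ h1 => exact h1.cexp
  | wp Λ _ h0 h1 => exact wp_an h1 h0
  | wp' Λ _ h0 h1 => exact wp'_an h1 h0

theorem IntEllD.an {s : ℕ} {z0 : ℂ} {n : ℕ} {f : ℂ → ℂ} (h : IntEllD s z0 n f) :
    AnalyticAt ℂ f z0 := by
  induction h with
  | base h => exact h.an
  | add _ _ h1 h2 => exact h1.add h2
  | mul _ _ h1 h2 => exact h1.mul h2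
  | div _ _ h0 h1 h2 => exact h1.div h2 h0
  | int _ h2 _ =>
    apply Complex.analyticAt_iff_eventually_differentiableAt.2
    filter_upwards [h2] with z hz
    exact hz.differentiableAt
  | wp Λ _ h0 h1 => exact wp_an h1 h0
  | wp' Λ _ h0 h1 => exact wp'_an h1 h0

section

variable {ι : Type} {U : Ultrafilter ι} {D : Derivation ℂ LK LK} {C L : Type} [Field C]
  [CharZero C] [Field L] [Algebra C L] {D' : Derivation C L L} {π : (ι → LK) →+* L}
  {θ : (ι → ℂ) →+* C} {z : ι → ℂ}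

/-- the class of a sequence of germs -/
noncomputable def cl (π : (ι → LK) →+* L) (z : ι → ℂ) (f : ι → ℂ → ℂ) : L :=
  π fun i => ty (z i) (f i)

theorem cl_congr (h : Ult U D C L D' π θ) {f g : ι → ℂ → ℂ}
    (hfg : ∀ᶠ i in (U : Filter ι), f i = g i) : cl π z f = cl π z g := by
  unfold cl
  rw [h.eq]
  filter_upwards [hfg] with i hi
  rw [hi]

theorem cl_add (h : Ult U D C L D' π θ) {f g : ι → ℂ → ℂ}
    (hf : ∀ᶠ i in (U : Filter ι), AnalyticAt ℂ (f i) (z i))
    (hg : ∀ᶠ i in (U : Filter ι), AnalyticAt ℂ (g i) (z i)) :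
    cl π z (fun i w => f i w + g i w) = cl π z f + cl π z g := by
  unfold cl
  rw [← map_add, h.eq]
  filter_upwards [hf, hg] with i h1 h2
  exact ty_add t_TAY h1 h2

theorem cl_mul (h : Ult U D C L D' π θ) {f g : ι → ℂ → ℂ}
    (hf : ∀ᶠ i in (U : Filter ι), AnalyticAt ℂ (f i) (z i))
    (hg : ∀ᶠ i in (U : Filter ι), AnalyticAt ℂ (g i) (z i)) :
    cl π z (fun i w => f i w * g i w) = cl π z f * cl π z g := by
  unfold cl
  rw [← map_mul, h.eq]
  filter_upwards [hf, hg] with i h1 h2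
  exact ty_mul t_TAY h1 h2

theorem cl_div (h : Ult U D C L D' π θ) {f g : ι → ℂ → ℂ}
    (hf : ∀ᶠ i in (U : Filter ι), AnalyticAt ℂ (f i) (z i))
    (hg : ∀ᶠ i in (U : Filter ι), AnalyticAt ℂ (g i) (z i))
    (h0 : ∀ᶠ i in (U : Filter ι), g i (z i) ≠ 0) :
    cl π z (fun i w => f i w / g i w) = cl π z f / cl π z g := by
  unfold cl
  rw [← h.div, h.eq]
  filter_upwards [hf, hg, h0] with i h1 h2 h3
  exact (ty_div t_TAY h1 h2 h3).2

theorem cl_const (h : Ult U D C L D' π θ) (c : ι → ℂ) :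
    cl π z (fun i _ => c i) = algebraMap C L (θ c) := by
  unfold cl
  rw [← h.alg]
  congr 1
  funext i
  exact ty_const t_TAY _

theorem cl_two (h : Ult U D C L D' π θ) {f : ι → ℂ → ℂ}
    (hf : ∀ᶠ i in (U : Filter ι), AnalyticAt ℂ (f i) (z i)) {F : IntermediateField C L}
    (hF : cl π z (fun i w => f i w / 2) ∈ F) : cl π z f ∈ F := by
  have h1 : cl π z f = algebraMap C L (θ fun _ => 2) * cl π z (fun i w => f i w / 2) := by
    rw [← cl_const h (z := z), ← cl_mul h (f := fun _ _ => (2 : ℂ)) (g := fun i w => f i w / 2)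
      (Eventually.of_forall fun i => analyticAt_const)
      (hf.mono fun i hi => hi.div analyticAt_const two_ne_zero)]
    apply cl_congr h
    refine Eventually.of_forall fun i => ?_
    funext w
    ring
  rw [h1]
  exact mul_mem (F.algebraMap_mem _) hF

theorem mem_G1_succU (h : Ult U D C L D' π θ) {n : ℕ} {τ : AGp C} (hτ : A1 (EU θ) τ) {P : τ.G L}
    {f : ι → ℂ → ℂ} (hf : ∀ᶠ i in (U : Filter ι), AnalyticAt ℂ (f i) (z i))
    (hG : cl π z f ∈ G1 (EU θ) D' (HU h z) (cl π z fun _ w => w) n)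
    (hl : τ.lam D' P = D' (cl π z f)) : ∀ x ∈ τ.coord P,
      x ∈ G1inf (EU θ) D' (HU h z) (cl π z fun _ w => w) := by
  intro x hx
  have hU : τ.lam D' P ∈ U1 D' (HU h z) (G1 (EU θ) D' (HU h z) (cl π z fun _ w => w) n) :=
    ⟨_, hG, mem_HU h hf, hl⟩
  exact ⟨n + 1, sat_nxt hτ hU x hx⟩

theorem mem_G2_succU (h : Ult U D C L D' π θ) {n : ℕ} {τ : AGp C} (hτ : A2 (EU θ) τ) {P : τ.G L}
    {f : ι → ℂ → ℂ} (hf : ∀ᶠ i in (U : Filter ι), AnalyticAt ℂ (f i) (z i))
    (hG : D' (cl π z f) ∈ G2 (EU θ) D' (HU h z) (cl π z fun _ w => w) n)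
    (hl : τ.lam D' P = D' (cl π z f)) : ∀ x ∈ τ.coord P,
      x ∈ G2inf (EU θ) D' (HU h z) (cl π z fun _ w => w) := by
  intro x hx
  have hU : τ.lam D' P ∈ U2 D' (HU h z) (G2 (EU θ) D' (HU h z) (cl π z fun _ w => w) n) :=
    ⟨by rw [hl]; exact hG, _, mem_HU h hf, hl⟩
  exact ⟨n + 1, sat_nxt hτ hU x hx⟩

theorem memU1 (hD : GD D) (h : Ult U D C L D' π θ) (z : ι → ℂ) (n : ℕ) : ∀ f : ι → ℂ → ℂ,
    (∀ᶠ i in (U : Filter ι), ExpEllD (z i) n (f i)) →
    cl π z f ∈ G1inf (EU θ) D' (HU h z) (cl π z fun _ w => w) := by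
  have hconst : ∀ f : ι → ℂ → ℂ, (∀ᶠ i in (U : Filter ι), ∃ c : ℂ, f i = fun _ => c) →
      cl π z f ∈ G1inf (EU θ) D' (HU h z) (cl π z fun _ w => w) := by
    intro f hf
    obtain ⟨c, hc⟩ := hf.choice
    rw [cl_congr h hc, cl_const h]
    exact IntermediateField.algebraMap_mem _ _
  have hvar : ∀ f : ι → ℂ → ℂ, (∀ᶠ i in (U : Filter ι), f i = fun w => w) →
      cl π z f ∈ G1inf (EU θ) D' (HU h z) (cl π z fun _ w => w) := by
    intro f hf
    rw [cl_congr h (g := fun _ w => w) hf]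
    exact ⟨0, (Ga : AGp C).rat_adj ⊥ _ _ (List.mem_singleton_self _)⟩
  induction n with
  | zero =>
    intro f hf
    have h1 := hf.mono fun i hi => hi.cases0
    rw [Ultrafilter.eventually_or] at h1
    rcases h1 with h1 | h1
    · exact hconst f h1
    · exact hvar f h1
  | succ n ih =>
    intro f hf
    have h1 := hf.mono fun i hi => hi.cases'
    simp only [Ultrafilter.eventually_or] at h1
    rcases h1 with h1 | h1 | h1 | h1 | h1 | h1 | h1 | h1
    · exact hconst f h1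
    · exact hvar f h1
    · have h2 : ∀ᶠ i in (U : Filter ι), ∃ p : (ℂ → ℂ) × (ℂ → ℂ),
          (ExpEllD (z i) n p.1 ∧ ExpEllD (z i) n p.2) ∧ f i = fun w => p.1 w + p.2 w := by
        filter_upwards [h1] with i hi
        obtain ⟨g, g', h3, h4⟩ := hi
        exact ⟨(g, g'), h3, h4⟩
      obtain ⟨p, hp⟩ := h2.choice
      rw [cl_congr h (hp.mono fun i hi => hi.2), cl_add h (hp.mono fun i hi => hi.1.1.an)
        (hp.mono fun i hi => hi.1.2.an)]
      exact add_mem (ih _ (hp.mono fun i hi => hi.1.1)) (ih _ (hp.mono fun i hi => hi.1.2))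
    · have h2 : ∀ᶠ i in (U : Filter ι), ∃ p : (ℂ → ℂ) × (ℂ → ℂ),
          (ExpEllD (z i) n p.1 ∧ ExpEllD (z i) n p.2) ∧ f i = fun w => p.1 w * p.2 w := by
        filter_upwards [h1] with i hi
        obtain ⟨g, g', h3, h4⟩ := hi
        exact ⟨(g, g'), h3, h4⟩
      obtain ⟨p, hp⟩ := h2.choice
      rw [cl_congr h (hp.mono fun i hi => hi.2), cl_mul h (hp.mono fun i hi => hi.1.1.an)
        (hp.mono fun i hi => hi.1.2.an)]
      exact mul_mem (ih _ (hp.mono fun i hi => hi.1.1)) (ih _ (hp.mono fun i hi => hi.1.2))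
    · have h2 : ∀ᶠ i in (U : Filter ι), ∃ p : (ℂ → ℂ) × (ℂ → ℂ),
          (ExpEllD (z i) n p.1 ∧ ExpEllD (z i) n p.2 ∧ p.2 (z i) ≠ 0) ∧
          f i = fun w => p.1 w / p.2 w := by
        filter_upwards [h1] with i hi
        obtain ⟨g, g', h3, h4⟩ := hi
        exact ⟨(g, g'), h3, h4⟩
      obtain ⟨p, hp⟩ := h2.choice
      rw [cl_congr h (hp.mono fun i hi => hi.2), cl_div h (hp.mono fun i hi => hi.1.1.an)
        (hp.mono fun i hi => hi.1.2.1.an) (hp.mono fun i hi => hi.1.2.2)]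
      exact div_mem (ih _ (hp.mono fun i hi => hi.1.1)) (ih _ (hp.mono fun i hi => hi.1.2.1))
    · obtain ⟨g, hg⟩ := h1.choice
      obtain ⟨m, hm⟩ := ih _ (hg.mono fun i hi => hi.1)
      have han : ∀ᶠ i in (U : Filter ι), AnalyticAt ℂ (g i) (z i) := hg.mono fun i hi => hi.1.an
      obtain ⟨R, hc, hl⟩ := exists_unitU hD h han
      rw [cl_congr h (hg.mono fun i hi => hi.2)]
      apply mem_G1_succU h (Or.inl rfl) han hm hl
      rw [hc]
      exact List.mem_singleton_self _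
    · have h2 : ∀ᶠ i in (U : Filter ι), ∃ p : PeriodPair × (ℂ → ℂ),
          (ExpEllD (z i) n p.2 ∧ p.2 (z i) ∉ p.1.lattice) ∧ f i = fun w => ℘[p.1] (p.2 w) := by
        filter_upwards [h1] with i hi
        obtain ⟨g, g', h3, h4⟩ := hi
        exact ⟨(g, g'), h3, h4⟩
      have hne : Nonempty (PeriodPair × (ℂ → ℂ)) := by
        obtain ⟨i, p, -⟩ := h2.exists
        exact ⟨p⟩
      obtain ⟨p, hp⟩ := h2.choice
      obtain ⟨m, hm⟩ := ih _ (hp.mono fun i hi => hi.1.1)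
      have han := hp.mono fun i hi => hi.1.1.an
      obtain ⟨R, hc, hl⟩ := exists_ptU hD h (fun i => (p i).1)
        (hp.mono fun i hi => ⟨hi.1.1.an, hi.1.2⟩)
      rw [cl_congr h (hp.mono fun i hi => hi.2)]
      apply mem_G1_succU h (Or.inr (ae_U h _)) han hm hl
      rw [hc]
      exact List.mem_cons_self
    · have h2 : ∀ᶠ i in (U : Filter ι), ∃ p : PeriodPair × (ℂ → ℂ),
          (ExpEllD (z i) n p.2 ∧ p.2 (z i) ∉ p.1.lattice) ∧ f i = fun w => ℘'[p.1] (p.2 w) := by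
        filter_upwards [h1] with i hi
        obtain ⟨g, g', h3, h4⟩ := hi
        exact ⟨(g, g'), h3, h4⟩
      have hne : Nonempty (PeriodPair × (ℂ → ℂ)) := by
        obtain ⟨i, p, -⟩ := h2.exists
        exact ⟨p⟩
      obtain ⟨p, hp⟩ := h2.choice
      obtain ⟨m, hm⟩ := ih _ (hp.mono fun i hi => hi.1.1)
      have han := hp.mono fun i hi => hi.1.1.an
      obtain ⟨R, hc, hl⟩ := exists_ptU hD h (fun i => (p i).1)
        (hp.mono fun i hi => ⟨hi.1.1.an, hi.1.2⟩)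
      rw [cl_congr h (hp.mono fun i hi => hi.2)]
      apply cl_two h (hp.mono fun i hi => wp'_an hi.1.1.an hi.1.2)
      apply mem_G1_succU h (Or.inr (ae_U h _)) han hm hl
      rw [hc]
      exact List.mem_cons_of_mem _ (List.mem_singleton_self _)

theorem cl_deriv (hD : GD D) (h : Ult U D C L D' π θ) {f g : ι → ℂ → ℂ}
    (hf : ∀ᶠ i in (U : Filter ι), AnalyticAt ℂ (f i) (z i) ∧
      ∀ᶠ w in 𝓝 (z i), HasDerivAt (f i) (g i w) w) : D' (cl π z f) = cl π z g := by
  unfold cl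
  rw [h.der, h.eq]
  filter_upwards [hf] with i hi
  exact (ty_deriv t_TAY hD.hD hi.1).trans (ty_congr t_TAY (hi.2.mono fun z hz => hz.deriv))

theorem memU2 [IsAlgClosed C] (hD : GD D) (h : Ult U D C L D' π θ) (z : ι → ℂ) (s n : ℕ) : ∀ f : ι → ℂ → ℂ,
    (∀ᶠ i in (U : Filter ι), IntEllD s (z i) n (f i)) →
    cl π z f ∈ G2inf (EU θ) D' (HU h z) (cl π z fun _ w => w) := by
  have st : Setup (EU θ) D' (HU h z) (cl π z fun _ w => w) := setupU hD h z
  have hbase : ∀ f : ι → ℂ → ℂ, (∀ᶠ i in (U : Filter ι), ExpEllD (z i) s (f i)) →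
      cl π z f ∈ G2inf (EU θ) D' (HU h z) (cl π z fun _ w => w) := fun f hf =>
    ⟨0, memU1 hD h z s f hf⟩
  induction n with
  | zero =>
    intro f hf
    exact hbase f (hf.mono fun i hi => hi.cases0)
  | succ n ih =>
    intro f hf
    have h1 := hf.mono fun i hi => hi.cases'
    simp only [Ultrafilter.eventually_or] at h1
    rcases h1 with h1 | h1 | h1 | h1 | h1 | h1 | h1
    · exact hbase f h1
    · have h2 : ∀ᶠ i in (U : Filter ι), ∃ p : (ℂ → ℂ) × (ℂ → ℂ),
          (IntEllD s (z i) n p.1 ∧ IntEllD s (z i) n p.2) ∧ f i = fun w => p.1 w + p.2 w := by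
        filter_upwards [h1] with i hi
        obtain ⟨g, g', h3, h4⟩ := hi
        exact ⟨(g, g'), h3, h4⟩
      obtain ⟨p, hp⟩ := h2.choice
      rw [cl_congr h (hp.mono fun i hi => hi.2), cl_add h (hp.mono fun i hi => hi.1.1.an)
        (hp.mono fun i hi => hi.1.2.an)]
      exact add_mem (ih _ (hp.mono fun i hi => hi.1.1)) (ih _ (hp.mono fun i hi => hi.1.2))
    · have h2 : ∀ᶠ i in (U : Filter ι), ∃ p : (ℂ → ℂ) × (ℂ → ℂ),
          (IntEllD s (z i) n p.1 ∧ IntEllD s (z i) n p.2) ∧ f i = fun w => p.1 w * p.2 w := by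
        filter_upwards [h1] with i hi
        obtain ⟨g, g', h3, h4⟩ := hi
        exact ⟨(g, g'), h3, h4⟩
      obtain ⟨p, hp⟩ := h2.choice
      rw [cl_congr h (hp.mono fun i hi => hi.2), cl_mul h (hp.mono fun i hi => hi.1.1.an)
        (hp.mono fun i hi => hi.1.2.an)]
      exact mul_mem (ih _ (hp.mono fun i hi => hi.1.1)) (ih _ (hp.mono fun i hi => hi.1.2))
    · have h2 : ∀ᶠ i in (U : Filter ι), ∃ p : (ℂ → ℂ) × (ℂ → ℂ),
          (IntEllD s (z i) n p.1 ∧ IntEllD s (z i) n p.2 ∧ p.2 (z i) ≠ 0) ∧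
          f i = fun w => p.1 w / p.2 w := by
        filter_upwards [h1] with i hi
        obtain ⟨g, g', h3, h4⟩ := hi
        exact ⟨(g, g'), h3, h4⟩
      obtain ⟨p, hp⟩ := h2.choice
      rw [cl_congr h (hp.mono fun i hi => hi.2), cl_div h (hp.mono fun i hi => hi.1.1.an)
        (hp.mono fun i hi => hi.1.2.1.an) (hp.mono fun i hi => hi.1.2.2)]
      exact div_mem (ih _ (hp.mono fun i hi => hi.1.1)) (ih _ (hp.mono fun i hi => hi.1.2.1))
    · obtain ⟨g, hg⟩ := h1.choice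
      obtain ⟨m, hm⟩ := ih _ (hg.mono fun i hi => hi.1)
      have han : ∀ᶠ i in (U : Filter ι), AnalyticAt ℂ (f i) (z i) := hf.mono fun i hi => hi.an
      have h3 : D' (cl π z f) = cl π z g := by
        apply cl_deriv hD h
        filter_upwards [han, hg] with i h4 h5
        exact ⟨h4, h5.2⟩
      refine mem_G2_succU h (n := m) (τ := Ga) (P := (cl π z f : L)) (Or.inl rfl) han ?_ rfl _
        (List.mem_singleton_self _)
      rw [h3]
      exact hm
    · have h2 : ∀ᶠ i in (U : Filter ι), ∃ p : PeriodPair × (ℂ → ℂ),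
          (IntEllD s (z i) n p.2 ∧ p.2 (z i) ∉ p.1.lattice) ∧ f i = fun w => ℘[p.1] (p.2 w) := by
        filter_upwards [h1] with i hi
        obtain ⟨g, g', h3, h4⟩ := hi
        exact ⟨(g, g'), h3, h4⟩
      have hne : Nonempty (PeriodPair × (ℂ → ℂ)) := by
        obtain ⟨i, p, -⟩ := h2.exists
        exact ⟨p⟩
      obtain ⟨p, hp⟩ := h2.choice
      obtain ⟨m, hm⟩ := ih _ (hp.mono fun i hi => hi.1.1)
      have han := hp.mono fun i hi => hi.1.1.an
      obtain ⟨R, hc, hl⟩ := exists_ptU hD h (fun i => (p i).1)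
        (hp.mono fun i hi => ⟨hi.1.1.an, hi.1.2⟩)
      rw [cl_congr h (hp.mono fun i hi => hi.2)]
      apply mem_G2_succU h (Or.inr (ae_U h _)) han ((inv_G2 st m).stab _ hm) hl
      rw [hc]
      exact List.mem_cons_self
    · have h2 : ∀ᶠ i in (U : Filter ι), ∃ p : PeriodPair × (ℂ → ℂ),
          (IntEllD s (z i) n p.2 ∧ p.2 (z i) ∉ p.1.lattice) ∧ f i = fun w => ℘'[p.1] (p.2 w) := by
        filter_upwards [h1] with i hi
        obtain ⟨g, g', h3, h4⟩ := hi
        exact ⟨(g, g'), h3, h4⟩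
      have hne : Nonempty (PeriodPair × (ℂ → ℂ)) := by
        obtain ⟨i, p, -⟩ := h2.exists
        exact ⟨p⟩
      obtain ⟨p, hp⟩ := h2.choice
      obtain ⟨m, hm⟩ := ih _ (hp.mono fun i hi => hi.1.1)
      have han := hp.mono fun i hi => hi.1.1.an
      obtain ⟨R, hc, hl⟩ := exists_ptU hD h (fun i => (p i).1)
        (hp.mono fun i hi => ⟨hi.1.1.an, hi.1.2⟩)
      rw [cl_congr h (hp.mono fun i hi => hi.2)]
      apply cl_two h (hp.mono fun i hi => wp'_an hi.1.1.an hi.1.2)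
      apply mem_G2_succU h (Or.inr (ae_U h _)) han ((inv_G2 st m).stab _ hm) hl
      rw [hc]
      exact List.mem_cons_of_mem _ (List.mem_singleton_self _)

end

end Pool.Agent.Helper6.EU
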