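import Pool.Agent.Helper6.EU.MemU
import Pool.Agent.Helper6.EE.Fin

/-! Fields generated by successive generic points, over an arbitrary algebraically closed field of
constants. -/

set_option autoImplicit false
set_option linter.unusedSectionVars false

open WeierstrassCurve IntermediateField
open Pool.Agent.TH143.GT (Covered)

namespace Pool.Agent.Helper6.EU

open EE

section
variable {C L : Type} [Field C] [CharZero C] [Field L] [Algebra C L]

/-- presentations of a subfield -/
def HasPresC (F : IntermediateField C L) : Prop :=
  ∃ (ι κ : Type) (_ : Finite ι) (_ : Finite κ) (t : ι → L) (x y : κ → L) (a b : κ → C),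
    AlgebraicIndependent C (Sum.elim t x) ∧ (∀ j, 4 * a j ^ 3 + 27 * b j ^ 2 ≠ 0) ∧
    (∀ j, y j ^ 2 = x j ^ 3 + algebraMap C L (a j) * x j + algebraMap C L (b j)) ∧
    F = IntermediateField.adjoin C (Set.range t ∪ Set.range x ∪ Set.range y)

theorem indep_option {σ : Type} {s : σ → L} (hs : AlgebraicIndependent C s)
    {F : IntermediateField C L} (hF : ∀ i, s i ∈ F) {p : L} (hp : Transcendental F p) :
    AlgebraicIndependent C (fun o : Option σ => o.elim p s) := by
  rw [hs.option_iff_transcendental]
  have hle : Algebra.adjoin C (Set.range s) ≤ F.toSubalgebra := by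
    rw [Algebra.adjoin_le_iff]
    rintro _ ⟨i, rfl⟩
    exact hF i
  rintro ⟨q, hq, hqp⟩
  apply hp
  refine ⟨q.map (Subalgebra.inclusion hle : _ →+* F.toSubalgebra), ?_, ?_⟩
  · exact (Polynomial.map_ne_zero_iff (Subalgebra.inclusion_injective hle)).2 hq
  · rw [Polynomial.aeval_def, Polynomial.eval₂_map]
    exact hqp

theorem Good.presC {E : C → C → Prop} {F : IntermediateField C L} (h : Good E F) :
    HasPresC F := by
  induction h with
  | bot =>
    refine ⟨Empty, Empty, inferInstance, inferInstance, Empty.elim, Empty.elim, Empty.elim,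
      Empty.elim, Empty.elim, ?_, fun j => j.elim, fun j => j.elim, ?_⟩
    · have : IsEmpty (Empty ⊕ Empty) := inferInstance
      exact algebraicIndependent_empty_type_iff.2 (algebraMap C L).injective
    · simp only [Set.range_eq_empty, Set.union_empty, IntermediateField.adjoin_empty]
  | @step F τ P h hτ hP ih =>
    obtain ⟨ι, κ, i1, i2, t, x, y, a, b, h1, h1', h2, h3⟩ := ih
    have hgen : ∀ z ∈ Set.range t ∪ Set.range x ∪ Set.range y, z ∈ F := by
      intro z hz
      rw [h3]
      exact IntermediateField.subset_adjoin C _ hz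
    have hs : ∀ i, (Sum.elim t x) i ∈ F := by
      rintro (i | j)
      · exact hgen _ (Or.inl (Or.inl ⟨i, rfl⟩))
      · exact hgen _ (Or.inl (Or.inr ⟨j, rfl⟩))
    have hone : ∀ p : L, Transcendental F p → τ.adj F P =
        IntermediateField.adjoin C ((F : Set L) ∪ {p}) → HasPresC (τ.adj F P) := by
      intro p hp hadj
      refine ⟨Option ι, κ, inferInstance, i2, fun o => o.elim p t, x, y, a, b, ?_, h1', h2, ?_⟩
      · have h4 := indep_option h1 hs hp
        refine (algebraicIndependent_equiv' (e1 ι κ) ?_).1 h4
        funext o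
        rcases o with _ | (_ | _) <;> rfl
      · rw [hadj, h3]
        apply le_antisymm
        · rw [IntermediateField.adjoin_le_iff]
          rintro z (hz | hz)
          · have h5 : IntermediateField.adjoin C (Set.range t ∪ Set.range x ∪ Set.range y) ≤
                IntermediateField.adjoin C (Set.range (fun o : Option ι => o.elim p t) ∪
                  Set.range x ∪ Set.range y) := by
              apply IntermediateField.adjoin.mono
              rintro w ((⟨i, rfl⟩ | hw) | hw)
              · exact Or.inl (Or.inl ⟨some i, rfl⟩)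
              · exact Or.inl (Or.inr hw)
              · exact Or.inr hw
            exact h5 hz
          · rw [Set.mem_singleton_iff] at hz
            rw [hz]
            exact IntermediateField.subset_adjoin C _ (Or.inl (Or.inl ⟨none, rfl⟩))
        · rw [IntermediateField.adjoin_le_iff]
          rintro w ((⟨_ | i, rfl⟩ | hw) | hw)
          · exact IntermediateField.subset_adjoin C _ (Or.inr rfl)
          · exact IntermediateField.subset_adjoin C _ (Or.inl
              (IntermediateField.subset_adjoin C _ (Or.inl (Or.inl ⟨i, rfl⟩))))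
          · exact IntermediateField.subset_adjoin C _ (Or.inl
              (IntermediateField.subset_adjoin C _ (Or.inl (Or.inr hw))))
          · exact IntermediateField.subset_adjoin C _ (Or.inl
              (IntermediateField.subset_adjoin C _ (Or.inr hw)))
    have hell : AE E τ → HasPresC (τ.adj F P) := by
      rintro ⟨a', b', -, hd, rfl⟩
      obtain ⟨x', y', hc, hx', -, ⟨hns, -⟩, -⟩ := gen_ell hP
      have heq := ((WK_nonsingular _ _ x' y').1 hns).1
      have hF2 : (Ell a' b').adj F P =
          IntermediateField.adjoin C ((F : Set L) ∪ {x', y'}) := by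
        rw [adj_eq, hc]
        congr 2
        ext w
        simp
      refine ⟨ι, Option κ, i1, inferInstance, t, fun o => o.elim x' x,
        fun o => o.elim y' y, fun o => o.elim a' a, fun o => o.elim b' b, ?_, ?_, ?_, ?_⟩
      · have h4 := indep_option h1 hs hx'
        refine (algebraicIndependent_equiv' (e2 ι κ) ?_).1 h4
        funext o
        rcases o with _ | (_ | _) <;> rfl
      · rintro (_ | j)
        · exact hd
        · exact h1' j
      · rintro (_ | j)
        · exact heq
        · exact h2 j
      · rw [hF2]
        apply le_antisymm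
        · rw [IntermediateField.adjoin_le_iff]
          rintro z (hz | hz)
          · have h5 : IntermediateField.adjoin C (Set.range t ∪ Set.range x ∪ Set.range y) ≤
                IntermediateField.adjoin C (Set.range t ∪
                  Set.range (fun o : Option κ => o.elim x' x) ∪
                  Set.range (fun o : Option κ => o.elim y' y)) := by
              apply IntermediateField.adjoin.mono
              rintro w ((hw | ⟨i, rfl⟩) | ⟨i, rfl⟩)
              · exact Or.inl (Or.inl hw)
              · exact Or.inl (Or.inr ⟨some i, rfl⟩)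
              · exact Or.inr ⟨some i, rfl⟩
            rw [SetLike.mem_coe, h3] at hz
            exact h5 hz
          · rcases hz with rfl | hz
            · exact IntermediateField.subset_adjoin C _ (Or.inl (Or.inr ⟨none, rfl⟩))
            · rw [Set.mem_singleton_iff] at hz
              rw [hz]
              exact IntermediateField.subset_adjoin C _ (Or.inr ⟨none, rfl⟩)
        · rw [IntermediateField.adjoin_le_iff]
          rintro w ((hw | ⟨_ | i, rfl⟩) | ⟨_ | i, rfl⟩)
          · exact IntermediateField.subset_adjoin C _ (Or.inl (hgen _ (Or.inl (Or.inl hw))))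
          · exact IntermediateField.subset_adjoin C _ (Or.inr (Or.inl rfl))
          · exact IntermediateField.subset_adjoin C _ (Or.inl
              (hgen _ (Or.inl (Or.inr ⟨i, rfl⟩))))
          · exact IntermediateField.subset_adjoin C _ (Or.inr (Or.inr rfl))
          · exact IntermediateField.subset_adjoin C _ (Or.inl (hgen _ (Or.inr ⟨i, rfl⟩)))
    rcases hτ with (rfl | hτ) | (rfl | hτ)
    · obtain ⟨p, hp, hpt⟩ := hP
      have hp' : p = ((Additive.toMul P : Lˣ) : L) := List.mem_singleton.1 hp
      refine hone p hpt ?_
      rw [adj_eq]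
      congr 2
      ext w
      rw [hp', Set.mem_singleton_iff]
      exact List.mem_singleton
    · exact hell hτ
    · obtain ⟨p, hp, hpt⟩ := hP
      have hp' : p = (P : L) := List.mem_singleton.1 hp
      refine hone p hpt ?_
      rw [adj_eq]
      congr 2
      ext w
      rw [hp', Set.mem_singleton_iff]
      exact List.mem_singleton
    · exact hell hτ

end

section
variable {C L : Type} [Field C] [CharZero C] [Field L] [Algebra C L] [Algebra ℂ C] [Algebra ℂ L]
  [IsScalarTower ℂ C L] {m n : ℕ} {t : Fin m → L} {x y : Fin n → L} {a b : Fin n → C}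

/-- the function field of the product of the elliptic curves -/
noncomputable def A0C (C : Type) [Field C] [Algebra C L] (x y : Fin n → L) :
    IntermediateField C L := IntermediateField.adjoin C (Set.range x ∪ Set.range y)

/-- adjunction of the first coordinates -/
noncomputable def MiC (C : Type) [Field C] [Algebra C L] (t : Fin m → L) (x y : Fin n → L)
    (i : ℕ) : IntermediateField C L :=
  IntermediateField.adjoin C
    ((A0C C x y : IntermediateField C L) ∪ {z | ∃ k : Fin m, (k : ℕ) < i ∧ z = t k})

theorem MiC_trans (h1 : AlgebraicIndependent C (Sum.elim t x))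
    (h2 : ∀ j, y j ^ 2 = x j ^ 3 + algebraMap C L (a j) * x j + algebraMap C L (b j))
    (i : Fin m) : Transcendental (MiC C t x y i) (t i) := by
  intro halg
  let S : Set (Fin m ⊕ Fin n) := {s | ∀ k : Fin m, s = Sum.inl k → (k : ℕ) < i}
  have hS : (Sum.inl i : Fin m ⊕ Fin n) ∉ S := fun h => lt_irrefl _ (h i rfl)
  have h3 := h1.transcendental_adjoin hS
  apply h3
  set T : Set L := (Sum.elim t x) '' S with hT
  open scoped algebraAdjoinAdjoin in
  rw [IsFractionRing.isAlgebraic_iff (Algebra.adjoin C T) (IntermediateField.adjoin C T) L]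
  change IsAlgebraic (IntermediateField.adjoin C T) (t i)
  rw [← mem_acl]
  apply acl_idem
  rw [mem_acl]
  refine alg_mono ?_ halg
  unfold MiC
  rw [IntermediateField.adjoin_le_iff]
  have hx : ∀ j, x j ∈ IntermediateField.adjoin C T := fun j =>
    subset_adjoin C _ ⟨Sum.inr j, fun k hk => by simp at hk, rfl⟩
  rintro z (hz | ⟨k, hk, rfl⟩)
  · have h4 : (A0C C x y : IntermediateField C L) ≤ acl (IntermediateField.adjoin C T) := by
      unfold A0C
      rw [IntermediateField.adjoin_le_iff]
      rintro w (⟨j, rfl⟩ | ⟨j, rfl⟩)
      · exact le_acl _ (hx j)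
      · rw [SetLike.mem_coe, mem_acl]
        have h5 : y j ^ 2 ∈ IntermediateField.adjoin C T := by
          rw [h2]
          exact add_mem (add_mem (pow_mem (hx j) 3)
            (mul_mem (IntermediateField.algebraMap_mem _ _) (hx j)))
            (IntermediateField.algebraMap_mem _ _)
        exact IsAlgebraic.of_pow two_pos
          (isAlgebraic_algebraMap (⟨_, h5⟩ : IntermediateField.adjoin C T))
    exact h4 hz
  · apply le_acl
    exact subset_adjoin C _ ⟨Sum.inl k, fun k' hk' => by
      have := Sum.inl_injective hk'
      rw [← this]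
      exact hk, rfl⟩

/-- fields containing the constants -/
def upC (N : IntermediateField ℂ L) (h : ∀ c : C, algebraMap C L c ∈ N) :
    IntermediateField C L where
  carrier := N
  mul_mem' := N.mul_mem
  add_mem' := N.add_mem
  algebraMap_mem' := h
  inv_mem' := fun _ h => N.inv_mem h

theorem MiC_chain (h1 : AlgebraicIndependent C (Sum.elim t x))
    (h2 : ∀ j, y j ^ 2 = x j ^ 3 + algebraMap C L (a j) * x j + algebraMap C L (b j)) (i : ℕ)
    (hi : i ≤ m) : E8helper4.EL.Ch ((A0C C x y).restrictScalars ℂ)
      ((MiC C t x y i).restrictScalars ℂ) := by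
  induction i with
  | zero =>
    have e : MiC C t x y 0 = A0C C x y := by
      unfold MiC
      apply le_antisymm
      · rw [IntermediateField.adjoin_le_iff]
        rintro z (hz | ⟨k, hk, -⟩)
        · exact hz
        · exact absurd hk (Nat.not_lt_zero _)
      · exact fun z hz => subset_adjoin C _ (Or.inl hz)
    rw [e]
    exact E8helper4.EL.Ch.base
  | succ i ih =>
    have e : (MiC C t x y (i + 1)).restrictScalars ℂ =
        E8helper4.EL.adj ((MiC C t x y i).restrictScalars ℂ) (t ⟨i, hi⟩) := by
      unfold E8helper4.EL.adj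
      set N := IntermediateField.adjoin ℂ
        ((((MiC C t x y i).restrictScalars ℂ : IntermediateField ℂ L) : Set L) ∪ {t ⟨i, hi⟩})
        with hN
      have hsub : ∀ z ∈ MiC C t x y i, z ∈ N := fun z hz => subset_adjoin ℂ _ (Or.inl hz)
      apply le_antisymm
      · have hc : ∀ c : C, algebraMap C L c ∈ N := fun c =>
          hsub _ (IntermediateField.algebraMap_mem _ _)
        have h3 : MiC C t x y (i + 1) ≤ upC N hc := by
          conv_lhs => unfold MiC
          rw [IntermediateField.adjoin_le_iff]
          rintro z (hz | ⟨k, hk, rfl⟩)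
          · exact hsub _ (subset_adjoin C _ (Or.inl hz))
          · by_cases h : (k : ℕ) = i
            · have hk' : k = ⟨i, hi⟩ := Fin.ext h
              rw [hk']
              exact subset_adjoin ℂ _ (Or.inr rfl)
            · exact hsub _ (subset_adjoin C _ (Or.inr ⟨k, by omega, rfl⟩))
        exact fun z hz => h3 hz
      · rw [hN, IntermediateField.adjoin_le_iff]
        rintro z (hz | hz)
        · have h3 : MiC C t x y i ≤ MiC C t x y (i + 1) := by
            unfold MiC
            apply IntermediateField.adjoin.mono
            rintro w (hw | ⟨k, hk, rfl⟩)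
            · exact Or.inl hw
            · exact Or.inr ⟨k, by omega, rfl⟩
          exact h3 hz
        · rw [Set.mem_singleton_iff] at hz
          rw [hz]
          exact subset_adjoin C _ (Or.inr ⟨⟨i, hi⟩, Nat.lt_succ_self i, rfl⟩)
    rw [e]
    exact (ih (by omega)).step (MiC_trans h1 h2 ⟨i, hi⟩)

/-- **The dichotomy.** -/
theorem dichC {F : IntermediateField C L} (h : HasPresC F) {K : Type} [Field K] [Algebra ℂ K]
    (ψ : K →ₐ[ℂ] L) (hψ : ∀ r, ψ r ∈ F) : Covered K ∨
      ∃ (n : ℕ) (x y : Fin n → L) (a b : Fin n → C), AlgebraicIndependent C x ∧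
        (∀ j, 4 * a j ^ 3 + 27 * b j ^ 2 ≠ 0) ∧
        (∀ j, y j ^ 2 = x j ^ 3 + algebraMap C L (a j) * x j + algebraMap C L (b j)) ∧
        ∀ r, ψ r ∈ A0C C x y := by
  obtain ⟨ι, κ, i1, i2, t, x, y, a, b, h1, h1', h2, h3⟩ := h
  obtain ⟨m, ⟨ea⟩⟩ := Finite.exists_equiv_fin ι
  obtain ⟨n, ⟨eb⟩⟩ := Finite.exists_equiv_fin κ
  have h4 : AlgebraicIndependent C (Sum.elim (fun i => t (ea.symm i)) fun i => x (eb.symm i)) := by
    have h5 : AlgebraicIndependent C (fun s : Fin m ⊕ Fin n =>
        (Sum.elim t x) (Sum.map ea.symm eb.symm s)) :=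
      h1.comp _ (Function.Injective.sumMap ea.symm.injective eb.symm.injective)
    convert h5 using 1
    funext s
    rcases s with s | s <;> rfl
  have h6 := MiC_chain (m := m) h4 (y := fun i => y (eb.symm i)) (a := fun i => a (eb.symm i))
    (b := fun i => b (eb.symm i)) (fun j => h2 _) m le_rfl
  have h7 : F ≤ MiC C (fun i => t (ea.symm i)) (fun i => x (eb.symm i))
      (fun i => y (eb.symm i)) m := by
    rw [h3, IntermediateField.adjoin_le_iff]
    rintro z ((⟨i, rfl⟩ | ⟨j, rfl⟩) | ⟨j, rfl⟩)
    · exact subset_adjoin C _ (Or.inr ⟨ea i, (ea i).2, by simp⟩)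
    · exact subset_adjoin C _ (Or.inl (subset_adjoin C _ (Or.inl ⟨eb j, by simp⟩)))
    · exact subset_adjoin C _ (Or.inl (subset_adjoin C _ (Or.inr ⟨eb j, by simp⟩)))
  rcases h6.dich ψ (fun e => h7 (hψ e)) with h8 | h8
  · right
    exact ⟨n, _, _, _, _, h4.comp Sum.inr Sum.inr_injective, fun j => h1' _, fun j => h2 _, h8⟩
  · exact Or.inl h8

end

end Pool.Agent.Helper6.EU
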