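import Pool.Agent.Helper6.EE.Kod2
import Pool.Graph.R_seed8.TH143.GT.Core

/-! Linear algebra for the choice of frames. -/

set_option autoImplicit false
set_option linter.unusedSectionVars false

open Pool.Agent.TH143.GT

namespace Pool.Agent.Helper6.EU

open EE

section
variable {A : Type} [Field A] {m n w : ℕ}

/-- choice of a basis which contains a basis of the span of the second family -/
theorem sel (R1 : Fin m → Fin w → A) (R2 : Fin n → Fin w → A)
    (hspan : Submodule.span A (Set.range (Sum.elim R1 R2)) = ⊤) :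
    ∃ e : Fin w → Fin m ⊕ Fin n, LinearIndependent A (fun i => Sum.elim R1 R2 (e i)) ∧
      ∀ j, ∃ d : Fin w → A, (∀ i l, e i = Sum.inl l → d i = 0) ∧
        R2 j = ∑ i, d i • Sum.elim R1 R2 (e i) := by
  classical
  set R := Sum.elim R1 R2 with hR
  obtain ⟨S, hS1, -, hS2, hS3⟩ := exists_linearIndepOn_extension (K := A) (v := R) (s := ∅)
    (t := Set.range Sum.inr) (linearIndepOn_empty A R) (Set.empty_subset _)
  obtain ⟨B, -, hB1, hB2, hB3⟩ := exists_linearIndepOn_extension (K := A) (v := R) (s := S)
    (t := Set.univ) hS3 (Set.subset_univ _)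
  have hB4 : LinearIndependent A (fun i : B => R i) := hB3
  have htop : Submodule.span A (Set.range fun i : B => R i) = ⊤ := by
    rw [eq_top_iff, ← hspan, Submodule.span_le]
    intro v hv
    have h1 : v ∈ R '' Set.univ := by rwa [Set.image_univ]
    have h2 := hB2 h1
    have h3 : R '' B = Set.range fun i : B => R i := by
      ext z; simp
    rwa [h3] at h2
  have hfin : Fintype B := Fintype.ofFinite B
  let bs : Module.Basis B A (Fin w → A) := Module.Basis.mk hB4 htop.ge
  have hcard : Fintype.card B = w := by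
    rw [← Module.finrank_eq_card_basis bs, Module.finrank_fintype_fun_eq_card, Fintype.card_fin]
  let e0 : Fin w ≃ B := (Fintype.equivFinOfCardEq hcard).symm
  refine ⟨fun i => (e0 i : Fin m ⊕ Fin n), hB4.comp e0 e0.injective, fun j => ?_⟩
  have h1 : R2 j ∈ Submodule.span A (R '' S) := by
    have h2 : R (Sum.inr j) ∈ R '' Set.range (Sum.inr : Fin n → Fin m ⊕ Fin n) :=
      ⟨_, ⟨j, rfl⟩, rfl⟩
    exact hS2 h2
  rw [Finsupp.mem_span_image_iff_linearCombination] at h1
  obtain ⟨c, hc, hcs⟩ := h1
  have hcS : ∀ s, s ∉ S → c s = 0 := by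
    intro s hs
    by_contra h0
    exact hs (hc (Finsupp.mem_support_iff.2 h0))
  refine ⟨fun i => c (e0 i : Fin m ⊕ Fin n), fun i l hl => ?_, ?_⟩
  · apply hcS
    intro h2
    obtain ⟨j', hj'⟩ := hS1 h2
    have h3 : (e0 i : Fin m ⊕ Fin n) = Sum.inl l := hl
    rw [h3] at hj'
    exact absurd hj' (by simp)
  · rw [← hcs, Finsupp.linearCombination_apply, Finsupp.sum]
    have h2 : ∑ i, c (e0 i : Fin m ⊕ Fin n) • R (e0 i) = ∑ b : B, c b • R b :=
      Equiv.sum_comp e0 fun b : B => c (b : Fin m ⊕ Fin n) • R b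
    change ∑ a ∈ c.support, c a • R a = ∑ i, c (e0 i : Fin m ⊕ Fin n) • R (e0 i)
    rw [h2]
    have h3 : ∑ b : B, c (b : Fin m ⊕ Fin n) • R b =
        ∑ s ∈ Finset.univ.filter (fun s => s ∈ B), c s • R s := by
      symm
      exact Finset.sum_subtype _ (by simp) fun s => c s • R s
    rw [h3]
    refine Finset.sum_subset ?_ ?_
    · intro s hs
      rw [Finset.mem_filter]
      refine ⟨Finset.mem_univ _, ?_⟩
      by_contra h4
      exact Finsupp.mem_support_iff.1 hs (hcS s fun h5 => h4 (hB1 h5))
    · intro s _ hs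
      rw [Finsupp.notMem_support_iff.1 hs, zero_smul]

/-- row operations -/
theorem det_mod (R : Fin w → Fin w → A) (g d : Fin w → A) (hgd : ∀ i, g i = 0 ∨ d i = 0) :
    (Matrix.of fun i j => R i j - g i * ∑ l, d l * R l j).det = (Matrix.of R).det := by
  have h1 : (Matrix.of fun i j => R i j - g i * ∑ l, d l * R l j) =
      (1 + Matrix.replicateCol Unit (-g) * Matrix.replicateRow Unit d) * Matrix.of R := by
    ext i j
    rw [add_mul, one_mul, Matrix.mul_assoc]
    rw [Matrix.add_apply, Matrix.mul_apply]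
    simp [Matrix.mul_apply, sub_eq_add_neg]
  rw [h1, Matrix.det_mul, Matrix.det_one_add_replicateCol_mul_replicateRow]
  have h2 : d ⬝ᵥ (-g) = 0 := by
    rw [dotProduct]
    apply Finset.sum_eq_zero
    intro i _
    rcases hgd i with h3 | h3
    · rw [Pi.neg_apply, h3, neg_zero, mul_zero]
    · rw [h3, zero_mul]
  rw [h2, add_zero, one_mul]

end

section
variable {K A : Type} [Field K] [Field A] [Algebra ℂ K] [Algebra ℂ A] [Algebra K A]
  [IsScalarTower ℂ K A] {w : ℕ}

/-- the pull-back of the volume form -/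
theorem pull_vol {u : Fin w → K} {E : Fin w → Derivation ℂ K K} (h : Dual u E)
    (D : Fin w → Derivation ℂ A A) :
    pull (vol u) u E D = (Matrix.of fun i j => D i (algebraMap K A (u j))).det := by
  classical
  have h1 : (Matrix.of fun i j => D i (algebraMap K A (u j))).det =
      (Matrix.detRowAlternating (n := Fin w) (R := A)) (fun i => ∑ l,
        D i (algebraMap K A (u l)) • (Pi.single l (1 : A) : Fin w → A)) := by
    congr 1
    funext i j
    simp [Finset.sum_apply, Pi.single_apply]
  have h2 := MultilinearMap.map_sum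
    ((Matrix.detRowAlternating (n := Fin w) (R := A)).toMultilinearMap)
    (fun i l => D i (algebraMap K A (u l)) • (Pi.single l (1 : A) : Fin w → A))
  rw [h1]
  change _ = (Matrix.detRowAlternating (n := Fin w) (R := A)).toMultilinearMap _
  rw [h2]
  unfold pull
  refine Finset.sum_congr rfl fun J _ => ?_
  rw [MultilinearMap.map_smul_univ, smul_eq_mul]
  congr 1
  rw [vol_apply, RingHom.map_det]
  congr 1
  ext i j
  rw [RingHom.mapMatrix_apply, Matrix.map_apply, Matrix.of_apply, h.2]
  by_cases hij : J i = j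
  · rw [if_pos hij, map_one, hij, Pi.single_eq_same]
  · rw [if_neg hij, map_zero, Pi.single_eq_of_ne (Ne.symm hij)]

end

end Pool.Agent.Helper6.EU
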