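import Pool.Agent.Helper6.EU.Loc
import Pool.Agent.Helper6.EU.Sel

/-! Derivations of the function field of a product of elliptic curves which do not kill the
constants. -/

set_option autoImplicit false
set_option linter.unusedSectionVars false
set_option linter.overlappingInstances false

open FF IntermediateField Pool.Agent.W619.PQ Pool.Agent.W603.LV Pool.Agent.W619.TW
open Pool.Agent.W602.GT (Divisorial DerReg DerLog IsPluri RegAt GeneralType exists_der)
open Pool.Agent.TH143.GT

namespace Pool.Agent.Helper6.EU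

open EE

section

variable {k L : Type} [Field k] [Field L] [Algebra k L] [CharZero k] [IsAlgClosed k]
  {M F : IntermediateField k L}

/-- A derivation which preserves `M` and the valuation ring of `F` preserves the valuation
ring of `L`. -/
theorem cur_pres (h : Cur M F) (w : Place M L) (D : Derivation ℤ L L) (hM : ∀ z ∈ M, D z ∈ M)
    (hF : ∀ β : F, w.Reg (β : L) → w.Reg (D (β : L))) (z : L) (hz : w.Reg z) : w.Reg (D z) := by
  classical
  have hff := h.ff
  have hL := h.isFF
  have hchar : CharZero M := charZero_M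
  obtain ⟨x, hx, hxr⟩ := exists_reg_transcendental (F := F) w
  have hint : ∀ n : L, IsIntegral (Algebra.adjoin M {(x : L)}) n → w.Reg (D n) := by
    intro n hn
    have h1 := h.integral_mem hx hn
    obtain ⟨s, β, hs, hβ⟩ := h.expand_reg w h1 (integral_reg w hxr hn)
    rw [hs, map_sum]
    refine Ge.sum (N := 0) s _ fun i hi => ?_
    rw [D.leibniz, smul_eq_mul, smul_eq_mul]
    refine Ge.add ?_ ?_
    · have h2 : Ge w 0 (D (β i : L)) := hF _ (hβ i hi)
      simpa using (ge_M w (Module.Basis.ofVectorSpace k M i).2).mul h2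
    · have h2 : Ge w 0 (β i : L) := hβ i hi
      simpa using h2.mul (ge_M w (hM _ (Module.Basis.ofVectorSpace k M i).2))
  obtain ⟨n, d, hn, hd, hd0, hdord, hzd⟩ := exists_localize w (h.tr x hx) hxr hz
  have h1 : D z = (D n - z * D d) * d⁻¹ := by
    rw [← hzd, D.leibniz, smul_eq_mul, smul_eq_mul]
    field_simp
    ring
  have hz' : Ge w 0 z := hz
  have hn' : Ge w 0 (D n) := hint n hn
  have hd' : Ge w 0 (D d) := hint d hd
  have hdi : Ge w 0 d⁻¹ := Or.inr (by rw [w.ord_inv, hdord]; simp)
  have h2 : Ge w 0 (D z) := by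
    rw [h1]
    have h3 : Ge w 0 (z * D d) := by simpa using hz'.mul hd'
    simpa using (hn'.sub h3).mul hdi
  exact h2

/-- the elements of an intermediate field sent into it by a derivation -/
def stabZ (D : Derivation ℤ L L) (hC : ∀ c : k, ∃ c' : k, D (algebraMap k L c) = algebraMap k L c')
    (M : IntermediateField k L) : IntermediateField k L where
  carrier := {z | z ∈ M ∧ D z ∈ M}
  mul_mem' := fun {a b} ha hb => ⟨mul_mem ha.1 hb.1, by
    rw [D.leibniz]
    exact add_mem (mul_mem ha.1 hb.2) (mul_mem hb.1 ha.2)⟩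
  one_mem' := ⟨one_mem _, by rw [D.map_one_eq_zero]; exact zero_mem _⟩
  add_mem' := fun {a b} ha hb => ⟨add_mem ha.1 hb.1, by
    rw [map_add]; exact add_mem ha.2 hb.2⟩
  zero_mem' := ⟨zero_mem _, by rw [map_zero]; exact zero_mem _⟩
  algebraMap_mem' := fun r => ⟨M.algebraMap_mem r, by
    obtain ⟨c', hc'⟩ := hC r
    rw [hc']; exact M.algebraMap_mem c'⟩
  inv_mem' := fun a ha => ⟨inv_mem ha.1, by
    rw [D.leibniz_inv]
    exact mul_mem (neg_mem (pow_mem (inv_mem ha.1) _)) ha.2⟩

theorem stabZ_iSup {ι : Type} (D : Derivation ℤ L L)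
    (hC : ∀ c : k, ∃ c' : k, D (algebraMap k L c) = algebraMap k L c')
    (F : ι → IntermediateField k L) (h : ∀ i, ∀ z ∈ F i, D z ∈ F i) :
    ∀ z ∈ ⨆ i, F i, D z ∈ ⨆ i, F i := by
  intro z hz
  have hle : ⨆ i, F i ≤ stabZ D hC (⨆ i, F i) :=
    iSup_le fun i y hy => ⟨le_iSup F i hy, le_iSup F i (h i y hy)⟩
  exact (hle hz).2

end

section
variable {C A : Type} [Field C] [CharZero C] [IsAlgClosed C] [Field A] [Algebra C A] {n : ℕ}
  {x y : Fin n → A} {a b : Fin n → C} {δ : Fin n → Derivation C A A}

theorem adj_top_Fc {i : Fin n} : IntermediateField.adjoin C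
    {(⟨x i, mem_Fc_x i⟩ : (Fc x y i : IntermediateField C A)), ⟨y i, mem_Fc_y i⟩} = ⊤ := by
  apply IntermediateField.map_injective (Fc x y i : IntermediateField C A).val
  rw [IntermediateField.adjoin_map]
  have h2 : (Fc x y i : IntermediateField C A).val ''
      {(⟨x i, mem_Fc_x i⟩ : (Fc x y i : IntermediateField C A)), ⟨y i, mem_Fc_y i⟩} =
      {x i, y i} := by
    rw [Set.image_pair]
    rfl
  rw [h2]
  ext z
  constructor
  · intro hz
    exact ⟨⟨z, hz⟩, trivial, rfl⟩
  · rintro ⟨w, -, rfl⟩
    exact w.2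

theorem Fc_stab (h : EPr x y a b) (D : Derivation ℤ A A)
    (hC : ∀ c : C, ∃ c' : C, D (algebraMap C A c) = algebraMap C A c') (hD : ∀ i, D (x i) = 0)
    (i : Fin n) : ∀ z ∈ (Fc x y i : IntermediateField C A), D z ∈ (Fc x y i : IntermediateField C A) := by
  have hA := cz (C := C) A
  obtain ⟨a', ha'⟩ := hC (a i)
  obtain ⟨b', hb'⟩ := hC (b i)
  have hy0 := h.y_ne i
  have hDy2 : 2 * y i * D (y i) = algebraMap C A a' * x i + algebraMap C A b' := by
    have h1 := congrArg D (h.eq i)
    simp only [map_add, D.leibniz_pow, D.leibniz, smul_eq_mul, nsmul_eq_mul, hD, ha', hb'] at h1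
    push_cast at h1
    linear_combination h1
  have hDy : D (y i) = (algebraMap C A a' * x i + algebraMap C A b') / (2 * y i) := by
    rw [eq_div_iff (mul_ne_zero two_ne_zero hy0)]
    linear_combination hDy2
  have h2 : (2 : A) ∈ (Fc x y i : IntermediateField C A) := by
    have := (Fc x y i : IntermediateField C A).algebraMap_mem 2
    rwa [map_ofNat] at this
  have h3 : (Fc x y i : IntermediateField C A) ≤ stabZ D hC (Fc x y i) := by
    conv_lhs => unfold Fc
    rw [IntermediateField.adjoin_le_iff]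
    rintro z (rfl | hz)
    · exact ⟨mem_Fc_x i, by rw [hD]; exact zero_mem _⟩
    · rw [Set.mem_singleton_iff] at hz
      subst hz
      refine ⟨mem_Fc_y i, ?_⟩
      rw [hDy]
      refine div_mem (add_mem (mul_mem (IntermediateField.algebraMap_mem _ _) (mem_Fc_x i))
        (IntermediateField.algebraMap_mem _ _))
        (mul_mem h2 (mem_Fc_y i))
  exact fun z hz => (h3 hz).2

/-- **Regularity modulo the invariant derivation of the factor.** -/
theorem reg_mod (h : EPr x y a b) (h' : Inva x y δ) (D : Derivation ℤ A A)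
    (hC : ∀ c : C, ∃ c' : C, D (algebraMap C A c) = algebraMap C A c') (hD : ∀ i, D (x i) = 0)
    (i : Fin n) (w : Place (MM (fun i => (Fc x y i : IntermediateField C A)) i) A) :
    ∃ f : A, ∀ z, w.Reg z → w.Reg (D z - f * δ i z) := by
  have hFF := h.isFF
  have hst := Fc_stab h D hC hD
  have hMM : ∀ z ∈ MM (fun i => (Fc x y i : IntermediateField C A)) i,
      D z ∈ MM (fun i => (Fc x y i : IntermediateField C A)) i :=
    stabZ_iSup D hC (fun l : {l : Fin n // l ≠ i} => (Fc x y l.1 : IntermediateField C A))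
      (fun l => hst l.1)
  have key : ∀ f : A, (∀ β : (Fc x y i : IntermediateField C A), w.Reg (β : A) →
      w.Reg (D (β : A) - f * δ i (β : A))) → ∀ z, w.Reg z → w.Reg (D z - f * δ i z) := by
    intro f hf z hz
    refine cur_pres (h.cur i) w (D - f • (δ i).restrictScalars ℤ) ?_ ?_ z hz
    · intro z hz
      change D z - f * δ i z ∈ _
      rw [h'.zero i z hz, mul_zero, sub_zero]
      exact hMM z hz
    · exact hf
  rcases (h.cur i).trichotomy w with h1 | ⟨q, hq⟩
  · refine ⟨0, key 0 fun β hβ => ?_⟩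
    rw [zero_mul, sub_zero]
    exact Or.inr (h1 ⟨_, hst i β β.2⟩).ge
  · let F : IntermediateField C A := Fc x y i
    let d : Derivation C F F := Derivation.mk'
      { toFun := fun z => ⟨δ i z, h'.self h i z z.2⟩
        map_add' := fun u v => Subtype.ext (map_add (δ i) _ _)
        map_smul' := fun c u => Subtype.ext ((δ i).map_smul c _) }
      (fun u v => Subtype.ext ((δ i).leibniz _ _))
    let E : Derivation ℤ F F := Derivation.mk'
      { toFun := fun z => ⟨D z, hst i z z.2⟩
        map_add' := fun u v => Subtype.ext (map_add D _ _)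
        map_smul' := fun c u => Subtype.ext (by
          change D ((c • u : F) : A) = c • D (u : A)
          have h5 : ((c • u : F) : A) = c • (u : A) := rfl
          rw [h5, D.map_smul]) }
      (fun u v => Subtype.ext (D.leibniz _ _))
    have heq : (⟨y i, mem_Fc_y i⟩ : F) ^ 2 = (⟨x i, mem_Fc_x i⟩ : F) ^ 3 +
        algebraMap C F (a i) * ⟨x i, mem_Fc_x i⟩ + algebraMap C F (b i) :=
      Subtype.ext (h.eq i)
    have hx : Transcendental C (⟨x i, mem_Fc_x i⟩ : F) := by
      intro h1
      exact (h.ind.transcendental i) (h1.algHom F.val)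
    have hd : d ⟨x i, mem_Fc_x i⟩ = 2 * ⟨y i, mem_Fc_y i⟩ := Subtype.ext (h'.one i)
    have hE : E ⟨x i, mem_Fc_x i⟩ = 0 := Subtype.ext (hD i)
    obtain ⟨f, hf⟩ := ell_mod q (h.disc i) hx heq adj_top_Fc hd E (fun c => by
      obtain ⟨c', hc'⟩ := hC c
      exact ⟨c', Subtype.ext hc'⟩) hE
    refine ⟨f, key f fun β hβ => ?_⟩
    have hβ' : Ge q 0 β := by
      rcases hβ with h1 | h1
      · exact Or.inl (Subtype.ext h1)
      · right
        rw [← hq]
        exact h1
    have h4 := hf β hβ'
    have h6 : D (β : A) - f * δ i (β : A) = ((E β - f * d β : F) : A) := rfl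
    rw [h6]
    rcases h4 with h4 | h4
    · left; rw [h4]; rfl
    · right; rw [hq]; exact h4

end

end Pool.Agent.Helper6.EU
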