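import Pool.Agent.Helper6.EU.Ultra
import Pool.Agent.Helper6.EE.Kod

/-! Points of elliptic curves over an ultrapower. -/

set_option autoImplicit false
set_option linter.unusedSectionVars false

open WeierstrassCurve Filter

namespace Pool.Agent.Helper6.EU

open EE

section rel
variable {C K : Type} [Field C] [CharZero C] [Field K] [Algebra C K] {a b : C}

/-- the addition law in terms of coordinates -/
def AddRel (a : K) (l1 l2 l3 : List K) : Prop :=
  (l1 = [] ∧ l3 = l2) ∨ (l2 = [] ∧ l3 = l1) ∨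
  (∃ x y, l1 = [x, y] ∧ l2 = [x, -y] ∧ l3 = []) ∨
  (∃ x₁ y₁ x₂ y₂ l, l1 = [x₁, y₁] ∧ l2 = [x₂, y₂] ∧ x₁ ≠ x₂ ∧ l * (x₁ - x₂) = y₁ - y₂ ∧
    l3 = [l ^ 2 - x₁ - x₂, l * (x₁ - (l ^ 2 - x₁ - x₂)) - y₁]) ∨
  (∃ x y l, l1 = [x, y] ∧ l2 = [x, y] ∧ y ≠ 0 ∧ 2 * y * l = 3 * x ^ 2 + a ∧
    l3 = [l ^ 2 - x - x, l * (x - (l ^ 2 - x - x)) - y])

theorem coord_nil {P : (Ell a b).G K} (h : (Ell a b).coord P = []) : P = 0 := by
  rcases P with _ | ⟨x, y, hP⟩
  · rfl
  · exact absurd h (List.cons_ne_nil _ _)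

theorem coord_zero : (Ell a b).coord (0 : (Ell a b).G K) = [] := rfl

theorem coord_some {P : (Ell a b).G K} {x y : K} (h : (Ell a b).coord P = [x, y]) :
    ∃ hP : (WK a b K).Nonsingular x y, P = Affine.Point.some x y hP := by
  rcases P with _ | ⟨x', y', hP⟩
  · exact absurd h.symm (List.cons_ne_nil _ _)
  · have h' : [x', y'] = [x, y] := h
    simp only [List.cons.injEq, and_true] at h'
    obtain ⟨rfl, rfl⟩ := h'
    exact ⟨hP, rfl⟩

theorem add_rel (P Q : (Ell a b).G K) : AddRel (algebraMap C K a) ((Ell a b).coord P)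
    ((Ell a b).coord Q) ((Ell a b).coord (P + Q)) := by
  classical
  have hK := cz (C := C) K
  by_cases hP0 : P = 0
  · left
    rw [hP0]
    exact ⟨rfl, by rw [zero_add]⟩
  by_cases hQ0 : Q = 0
  · right; left
    rw [hQ0]
    exact ⟨rfl, by rw [add_zero]⟩
  rcases P with _ | ⟨x₁, y₁, h₁⟩
  · exact absurd rfl hP0
  rcases Q with _ | ⟨x₂, y₂, h₂⟩
  · exact absurd rfl hQ0
  have E1 := ((WK_nonsingular a b x₁ y₁).1 h₁).1
  have E2 := ((WK_nonsingular a b x₂ y₂).1 h₂).1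
  by_cases hxy : x₁ = x₂ ∧ y₁ = (WK a b K).negY x₂ y₂
  · right; right; left
    refine ⟨x₁, y₁, rfl, ?_, ?_⟩
    · change [x₂, y₂] = _
      rw [hxy.1, hxy.2, WK_negY, neg_neg]
    · change (Ell a b).coord ((Affine.Point.some x₁ y₁ h₁ : (WK a b K).Point) +
        Affine.Point.some x₂ y₂ h₂ : (WK a b K).Point) = _
      rw [Affine.Point.add_of_Y_eq hxy.1 hxy.2]
      rfl
  have hsum : (Ell a b).coord ((Affine.Point.some x₁ y₁ h₁ : (WK a b K).Point) +
      Affine.Point.some x₂ y₂ h₂ : (WK a b K).Point) =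
      [(WK a b K).addX x₁ x₂ ((WK a b K).slope x₁ x₂ y₁ y₂),
        (WK a b K).addY x₁ x₂ y₁ ((WK a b K).slope x₁ x₂ y₁ y₂)] := by
    rw [Affine.Point.add_some hxy]
    rfl
  rw [WK_addX, WK_addY] at hsum
  by_cases hx : x₁ = x₂
  · right; right; right; right
    have hy : y₁ ≠ (WK a b K).negY x₂ y₂ := fun h => hxy ⟨hx, h⟩
    have hl2 := Affine.slope_of_Y_ne hx hy
    simp only [WK_a₁, WK_a₂, WK_a₄, WK_negY] at hl2
    rw [WK_negY] at hy
    subst hx
    have h12 : y₁ = y₂ := by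
      have : (y₁ - y₂) * (y₁ + y₂) = 0 := by linear_combination E1 - E2
      rcases mul_eq_zero.1 this with h | h
      · exact sub_eq_zero.1 h
      · exact absurd (eq_neg_of_add_eq_zero_left h) hy
    subst h12
    have hy0 : y₁ ≠ 0 := by
      rintro h; apply hy; rw [h]; simp
    refine ⟨x₁, y₁, (WK a b K).slope x₁ x₁ y₁ y₁, rfl, rfl, hy0, ?_, hsum⟩
    rw [hl2]
    have : y₁ - -y₁ ≠ 0 := by
      intro h; apply hy; linear_combination h
    field_simp
    ring
  · right; right; right; left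
    refine ⟨x₁, y₁, x₂, y₂, (WK a b K).slope x₁ x₂ y₁ y₂, rfl, rfl, hx, ?_, hsum⟩
    rw [Affine.slope_of_X_ne hx]
    field_simp [sub_ne_zero.2 hx]

theorem rel_fun {a : K} [CharZero K] {l1 l2 l3 l3' : List K} (h : AddRel a l1 l2 l3)
    (h' : AddRel a l1 l2 l3') : l3 = l3' := by
  rcases h with ⟨rfl, rfl⟩ | ⟨rfl, rfl⟩ | ⟨x, y, rfl, rfl, rfl⟩ |
    ⟨x₁, y₁, x₂, y₂, l, rfl, rfl, hne, hl, rfl⟩ | ⟨x, y, l, rfl, rfl, hne, hl, rfl⟩
  · rcases h' with ⟨-, rfl⟩ | ⟨rfl, rfl⟩ | ⟨x', y', e1, -⟩ | ⟨x₁', y₁', x₂', y₂', l', e1, -⟩ |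
      ⟨x', y', l', e1, -⟩
    · rfl
    · rfl
    · exact absurd e1.symm (List.cons_ne_nil _ _)
    · exact absurd e1.symm (List.cons_ne_nil _ _)
    · exact absurd e1.symm (List.cons_ne_nil _ _)
  · rcases h' with ⟨rfl, rfl⟩ | ⟨-, rfl⟩ | ⟨x', y', -, e1, -⟩ |
      ⟨x₁', y₁', x₂', y₂', l', -, e1, -⟩ | ⟨x', y', l', -, e1, -⟩
    · rfl
    · rfl
    · exact absurd e1.symm (List.cons_ne_nil _ _)
    · exact absurd e1.symm (List.cons_ne_nil _ _)
    · exact absurd e1.symm (List.cons_ne_nil _ _)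
  · rcases h' with ⟨e, -⟩ | ⟨e, -⟩ | ⟨x', y', e1, e2, rfl⟩ |
      ⟨x₁', y₁', x₂', y₂', l', e1, e2, e3, e4, rfl⟩ | ⟨x', y', l', e1, e2, e3, e4, rfl⟩
    · exact absurd e (List.cons_ne_nil _ _)
    · exact absurd e (List.cons_ne_nil _ _)
    · rfl
    · simp only [List.cons.injEq, and_true] at e1 e2
      exact absurd (e1.1.symm.trans e2.1) e3
    · simp only [List.cons.injEq, and_true] at e1 e2
      exfalso
      have h1 : -y = y := e2.2.trans e1.2.symm
      have h2 : (2 : K) * y = 0 := by linear_combination -h1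
      have h3 : y = 0 := (mul_eq_zero.1 h2).resolve_left two_ne_zero
      exact e3 (e1.2.symm.trans h3)
  · rcases h' with ⟨e, -⟩ | ⟨e, -⟩ | ⟨x', y', e1, e2, rfl⟩ |
      ⟨x₁', y₁', x₂', y₂', l', e1, e2, e3, e4, rfl⟩ | ⟨x', y', l', e1, e2, e3, e4, rfl⟩
    · exact absurd e (List.cons_ne_nil _ _)
    · exact absurd e (List.cons_ne_nil _ _)
    · simp only [List.cons.injEq, and_true] at e1 e2
      exact absurd (e1.1.trans e2.1.symm) hne
    · simp only [List.cons.injEq, and_true] at e1 e2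
      obtain ⟨rfl, rfl⟩ := e1
      obtain ⟨rfl, rfl⟩ := e2
      have : l = l' := mul_right_cancel₀ (sub_ne_zero.2 hne) (hl.trans e4.symm)
      rw [this]
    · simp only [List.cons.injEq, and_true] at e1 e2
      exact absurd (e1.1.trans e2.1.symm) hne
  · rcases h' with ⟨e, -⟩ | ⟨e, -⟩ | ⟨x', y', e1, e2, rfl⟩ |
      ⟨x₁', y₁', x₂', y₂', l', e1, e2, e3, e4, rfl⟩ | ⟨x', y', l', e1, e2, e3, e4, rfl⟩
    · exact absurd e (List.cons_ne_nil _ _)
    · exact absurd e (List.cons_ne_nil _ _)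
    · simp only [List.cons.injEq, and_true] at e1 e2
      exfalso
      have h1 : y = -y := by
        rw [← e1.2] at e2
        exact e2.2
      have h2 : (2 : K) * y = 0 := by linear_combination h1
      exact hne ((mul_eq_zero.1 h2).resolve_left two_ne_zero)
    · simp only [List.cons.injEq, and_true] at e1 e2
      exact absurd (e1.1.symm.trans e2.1) e3
    · simp only [List.cons.injEq, and_true] at e1 e2
      obtain ⟨rfl, rfl⟩ := e1
      have : l = l' :=
        mul_left_cancel₀ (mul_ne_zero two_ne_zero hne) (hl.trans e4.symm)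
      rw [this]

end rel

theorem ns_disc {K : Type} [Field K] {C : Type} [Field C] [CharZero C] [Algebra C K] {a b : C}
    (hd : 4 * a ^ 3 + 27 * b ^ 2 ≠ 0) {x y : K}
    (h : y ^ 2 = x ^ 3 + algebraMap C K a * x + algebraMap C K b) :
    (WK a b K).Nonsingular x y := by
  have hK : CharZero K := charZero_of_injective_algebraMap (algebraMap C K).injective
  rw [WK_nonsingular]
  refine ⟨h, ?_⟩
  by_contra hcon
  push Not at hcon
  obtain ⟨h1, h2⟩ := hcon
  have hy : y = 0 := by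
    have : (2 : K) * y = 0 := by linear_combination h2
    exact (mul_eq_zero.1 this).resolve_left two_ne_zero
  have h3 : algebraMap C K (4 * a ^ 3 + 27 * b ^ 2) = 0 := by
    rw [hy] at h
    simp only [map_add, map_mul, map_pow, map_ofNat]
    set A := algebraMap C K a
    set B := algebraMap C K b
    have hA : A = -3 * x ^ 2 := by linear_combination h1
    have hB : B = 2 * x ^ 3 := by
      rw [hA] at h
      linear_combination -h
    rw [hA, hB]; ring
  exact hd ((map_eq_zero _).1 h3)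

section cls
variable {ι : Type} {U : Ultrafilter ι} {k K : Type} [Field k] [CharZero k] [Field K] [Algebra k K]
  {D : Derivation k K K} {C L : Type} [Field C] [CharZero C] [Field L] [Algebra C L]
  {D' : Derivation C L L} {π : (ι → K) →+* L} {θ : (ι → k) →+* C} {a b : ι → k}

/-- the point `Q` is the class of the sequence of points `P` -/
def IsCls (U : Ultrafilter ι) (π : (ι → K) →+* L) {C : Type} [Field C] [CharZero C] [Algebra C L]
    {a' b' : C} (P : ∀ i, (Ell (a i) (b i)).G K) (Q : (Ell a' b').G L) : Prop :=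
  ((Ell a' b').coord Q = [] ∧ ∀ᶠ i in (U : Filter ι), (Ell (a i) (b i)).coord (P i) = []) ∨
  ∃ x y : ι → K, (Ell a' b').coord Q = [π x, π y] ∧
    ∀ᶠ i in (U : Filter ι), (Ell (a i) (b i)).coord (P i) = [x i, y i]

theorem IsCls.nil (h : Ult U D C L D' π θ) {P : ∀ i, (Ell (a i) (b i)).G K}
    {Q : (Ell (θ a) (θ b)).G L} (hc : IsCls U π P Q)
    (hn : ∀ᶠ i in (U : Filter ι), (Ell (a i) (b i)).coord (P i) = []) :
    (Ell (θ a) (θ b)).coord Q = [] := by
  rcases hc with ⟨h1, -⟩ | ⟨x, y, -, h2⟩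
  · exact h1
  · obtain ⟨i, h3, h4⟩ := (hn.and h2).exists
    rw [h3] at h4
    exact absurd h4.symm (List.cons_ne_nil _ _)

theorem IsCls.pair (h : Ult U D C L D' π θ) {P : ∀ i, (Ell (a i) (b i)).G K}
    {Q : (Ell (θ a) (θ b)).G L} (hc : IsCls U π P Q) {x y : ι → K}
    (hn : ∀ᶠ i in (U : Filter ι), (Ell (a i) (b i)).coord (P i) = [x i, y i]) :
    (Ell (θ a) (θ b)).coord Q = [π x, π y] := by
  rcases hc with ⟨-, h1⟩ | ⟨x', y', h1, h2⟩
  · obtain ⟨i, h3, h4⟩ := (hn.and h1).exists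
    rw [h3] at h4
    exact absurd h4 (List.cons_ne_nil _ _)
  · rw [h1]
    have h3 : π x' = π x := by
      rw [h.eq]
      filter_upwards [hn, h2] with i h3 h4
      rw [h3] at h4
      simp only [List.cons.injEq, and_true] at h4
      exact h4.1.symm
    have h4 : π y' = π y := by
      rw [h.eq]
      filter_upwards [hn, h2] with i h3 h4
      rw [h3] at h4
      simp only [List.cons.injEq, and_true] at h4
      exact h4.2.symm
    rw [h3, h4]

theorem IsCls.congr {P P' : ∀ i, (Ell (a i) (b i)).G K}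
    {Q : (Ell (θ a) (θ b)).G L} (hc : IsCls U π P Q)
    (hn : ∀ᶠ i in (U : Filter ι), P i = P' i) : IsCls U π P' Q := by
  rcases hc with ⟨h1, h2⟩ | ⟨x, y, h1, h2⟩
  · left
    refine ⟨h1, ?_⟩
    filter_upwards [h2, hn] with i h3 h4
    rw [← h4, h3]
  · right
    refine ⟨x, y, h1, ?_⟩
    filter_upwards [h2, hn] with i h3 h4
    rw [← h4, h3]

theorem IsCls.unique (h : Ult U D C L D' π θ) {P : ∀ i, (Ell (a i) (b i)).G K}
    {Q Q' : (Ell (θ a) (θ b)).G L} (hc : IsCls U π P Q) (hc' : IsCls U π P Q') : Q = Q' := by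
  apply (Ell (θ a) (θ b)).coord_inj
  rcases hc with ⟨h1, h2⟩ | ⟨x, y, h1, h2⟩
  · rw [h1, hc'.nil h h2]
  · rw [h1, hc'.pair h h2]

theorem disc_ev (h : Ult U D C L D' π θ) (hd : 4 * θ a ^ 3 + 27 * θ b ^ 2 ≠ 0) :
    ∀ᶠ i in (U : Filter ι), 4 * a i ^ 3 + 27 * b i ^ 2 ≠ 0 := by
  have h1 : θ (fun i => 4 * a i ^ 3 + 27 * b i ^ 2) = 4 * θ a ^ 3 + 27 * θ b ^ 2 := by
    have h2 : (fun i => 4 * a i ^ 3 + 27 * b i ^ 2) = 4 * a ^ 3 + 27 * b ^ 2 := by
      funext i
      rfl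
    rw [h2, map_add, map_mul, map_mul, map_pow, map_pow, map_ofNat, map_ofNat]
  rw [← h1, Ne, h.tzero] at hd
  exact Ultrafilter.eventually_not.2 hd

theorem eq_iff (h : Ult U D C L D' π θ) (x y : ι → K) :
    π y ^ 2 = π x ^ 3 + algebraMap C L (θ a) * π x + algebraMap C L (θ b) ↔
    ∀ᶠ i in (U : Filter ι), y i ^ 2 = x i ^ 3 + algebraMap k K (a i) * x i +
      algebraMap k K (b i) := by
  rw [← h.alg, ← h.alg, ← map_pow, ← map_pow, ← map_mul, ← map_add, ← map_add, h.eq]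
  rfl

theorem exists_cls (h : Ult U D C L D' π θ) (hd : 4 * θ a ^ 3 + 27 * θ b ^ 2 ≠ 0)
    (P : ∀ i, (Ell (a i) (b i)).G K) : ∃ Q : (Ell (θ a) (θ b)).G L, IsCls U π P Q := by
  by_cases h0 : ∀ᶠ i in (U : Filter ι), (Ell (a i) (b i)).coord (P i) = []
  · exact ⟨0, Or.inl ⟨rfl, h0⟩⟩
  · have h1 : ∀ᶠ i in (U : Filter ι), (Ell (a i) (b i)).coord (P i) ≠ [] :=
      Ultrafilter.eventually_not.2 h0
    have h2 : ∀ᶠ i in (U : Filter ι), ∃ z : K × K,
        (Ell (a i) (b i)).coord (P i) = [z.1, z.2] ∧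
        z.2 ^ 2 = z.1 ^ 3 + algebraMap k K (a i) * z.1 + algebraMap k K (b i) := by
      filter_upwards [h1] with i hi
      generalize P i = R at hi
      rcases R with _ | ⟨x, y, hR⟩
      · exact absurd rfl hi
      · exact ⟨(x, y), rfl, ((WK_nonsingular _ _ x y).1 hR).1⟩
    obtain ⟨z, hz⟩ := h2.choice
    have h3 := (eq_iff h (a := a) (b := b) (fun i => (z i).1) (fun i => (z i).2)).2
      (hz.mono fun i hi => hi.2)
    exact ⟨Affine.Point.some _ _ (ns_disc hd h3), Or.inr ⟨_, _, rfl, hz.mono fun i hi => hi.1⟩⟩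

theorem cls_surj (h : Ult U D C L D' π θ) (hd : 4 * θ a ^ 3 + 27 * θ b ^ 2 ≠ 0)
    (Q : (Ell (θ a) (θ b)).G L) : ∃ P : ∀ i, (Ell (a i) (b i)).G K, IsCls U π P Q := by
  rcases Q with _ | ⟨x, y, hQ⟩
  · exact ⟨fun i => 0, Or.inl ⟨rfl, Eventually.of_forall fun i => rfl⟩⟩
  · obtain ⟨x, rfl⟩ := h.surj x
    obtain ⟨y, rfl⟩ := h.surj y
    have h1 := (eq_iff h x y).1 ((WK_nonsingular _ _ _ _).1 hQ).1
    have h2 : ∀ i, ∃ P : (Ell (a i) (b i)).G K,
        (4 * a i ^ 3 + 27 * b i ^ 2 ≠ 0 ∧ y i ^ 2 = x i ^ 3 + algebraMap k K (a i) * x i +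
          algebraMap k K (b i)) → (Ell (a i) (b i)).coord P = [x i, y i] := by
      intro i
      by_cases h0 : 4 * a i ^ 3 + 27 * b i ^ 2 ≠ 0 ∧ y i ^ 2 = x i ^ 3 +
          algebraMap k K (a i) * x i + algebraMap k K (b i)
      · exact ⟨Affine.Point.some _ _ (ns_disc h0.1 h0.2), fun _ => rfl⟩
      · exact ⟨0, fun h => absurd h h0⟩
    choose P hP using h2
    refine ⟨P, Or.inr ⟨x, y, rfl, ?_⟩⟩
    filter_upwards [h1, disc_ev h hd] with i h3 h4
    exact hP i ⟨h4, h3⟩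

theorem IsCls.add (h : Ult U D C L D' π θ) (hd : 4 * θ a ^ 3 + 27 * θ b ^ 2 ≠ 0)
    {P P' : ∀ i, (Ell (a i) (b i)).G K} {Q Q' : (Ell (θ a) (θ b)).G L}
    (hc : IsCls U π P Q) (hc' : IsCls U π P' Q') : IsCls U π (fun i => P i + P' i) (Q + Q') := by
  obtain ⟨R, hR⟩ := exists_cls h hd fun i => P i + P' i
  have hL := cz (C := C) L
  have key : AddRel (algebraMap C L (θ a)) ((Ell (θ a) (θ b)).coord Q)
      ((Ell (θ a) (θ b)).coord Q') ((Ell (θ a) (θ b)).coord R) := by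
    have h0 : ∀ᶠ i in (U : Filter ι), AddRel (algebraMap k K (a i))
        ((Ell (a i) (b i)).coord (P i)) ((Ell (a i) (b i)).coord (P' i))
        ((Ell (a i) (b i)).coord (P i + P' i)) := Eventually.of_forall fun i => add_rel _ _
    unfold AddRel at h0
    rw [Ultrafilter.eventually_or, Ultrafilter.eventually_or, Ultrafilter.eventually_or,
      Ultrafilter.eventually_or] at h0
    rcases h0 with h0 | h0 | h0 | h0 | h0
    · left
      refine ⟨hc.nil h (h0.mono fun i hi => hi.1), ?_⟩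
      have h1 : IsCls U π P' R := hR.congr (h0.mono fun i hi =>
        (Ell (a i) (b i)).coord_inj hi.2)
      rw [h1.unique h hc']
    · right; left
      refine ⟨hc'.nil h (h0.mono fun i hi => hi.1), ?_⟩
      have h1 : IsCls U π P R := hR.congr (h0.mono fun i hi =>
        (Ell (a i) (b i)).coord_inj hi.2)
      rw [h1.unique h hc]
    · right; right; left
      have h1 : ∀ᶠ i in (U : Filter ι), ∃ z : K × K, (Ell (a i) (b i)).coord (P i) = [z.1, z.2] ∧
          (Ell (a i) (b i)).coord (P' i) = [z.1, -z.2] ∧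
          (Ell (a i) (b i)).coord (P i + P' i) = [] := by
        filter_upwards [h0] with i hi
        obtain ⟨x, y, e1, e2, e3⟩ := hi
        exact ⟨(x, y), e1, e2, e3⟩
      obtain ⟨z, hz⟩ := h1.choice
      refine ⟨π fun i => (z i).1, π fun i => (z i).2, hc.pair h (hz.mono fun i hi => hi.1), ?_,
        hR.nil h (hz.mono fun i hi => hi.2.2)⟩
      rw [hc'.pair h (x := fun i => (z i).1) (y := fun i => -(z i).2)
        (hz.mono fun i hi => hi.2.1), ← map_neg]
      rfl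
    · right; right; right; left
      have h1 : ∀ᶠ i in (U : Filter ι), ∃ z : (K × K) × (K × K) × K,
          (Ell (a i) (b i)).coord (P i) = [z.1.1, z.1.2] ∧
          (Ell (a i) (b i)).coord (P' i) = [z.2.1.1, z.2.1.2] ∧ z.1.1 ≠ z.2.1.1 ∧
          z.2.2 * (z.1.1 - z.2.1.1) = z.1.2 - z.2.1.2 ∧
          (Ell (a i) (b i)).coord (P i + P' i) = [z.2.2 ^ 2 - z.1.1 - z.2.1.1,
            z.2.2 * (z.1.1 - (z.2.2 ^ 2 - z.1.1 - z.2.1.1)) - z.1.2] := by
        filter_upwards [h0] with i hi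
        obtain ⟨x₁, y₁, x₂, y₂, l, e1, e2, e3, e4, e5⟩ := hi
        exact ⟨((x₁, y₁), (x₂, y₂), l), e1, e2, e3, e4, e5⟩
      obtain ⟨z, hz⟩ := h1.choice
      refine ⟨π fun i => (z i).1.1, π fun i => (z i).1.2, π fun i => (z i).2.1.1,
        π fun i => (z i).2.1.2, π fun i => (z i).2.2, hc.pair h (hz.mono fun i hi => hi.1),
        hc'.pair h (hz.mono fun i hi => hi.2.1), ?_, ?_, ?_⟩
      · rw [Ne, h.eq]
        exact Ultrafilter.eventually_not.1 (hz.mono fun i hi => hi.2.2.1)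
      · rw [← map_sub, ← map_sub, ← map_mul, h.eq]
        exact hz.mono fun i hi => hi.2.2.2.1
      · rw [hR.pair h (hz.mono fun i hi => hi.2.2.2.2)]
        simp only [← map_pow, ← map_sub, ← map_mul]
        rfl
    · right; right; right; right
      have h1 : ∀ᶠ i in (U : Filter ι), ∃ z : (K × K) × K,
          (Ell (a i) (b i)).coord (P i) = [z.1.1, z.1.2] ∧
          (Ell (a i) (b i)).coord (P' i) = [z.1.1, z.1.2] ∧ z.1.2 ≠ 0 ∧
          2 * z.1.2 * z.2 = 3 * z.1.1 ^ 2 + algebraMap k K (a i) ∧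
          (Ell (a i) (b i)).coord (P i + P' i) = [z.2 ^ 2 - z.1.1 - z.1.1,
            z.2 * (z.1.1 - (z.2 ^ 2 - z.1.1 - z.1.1)) - z.1.2] := by
        filter_upwards [h0] with i hi
        obtain ⟨x, y, l, e1, e2, e3, e4, e5⟩ := hi
        exact ⟨((x, y), l), e1, e2, e3, e4, e5⟩
      obtain ⟨z, hz⟩ := h1.choice
      refine ⟨π fun i => (z i).1.1, π fun i => (z i).1.2, π fun i => (z i).2,
        hc.pair h (hz.mono fun i hi => hi.1), hc'.pair h (hz.mono fun i hi => hi.2.1), ?_, ?_, ?_⟩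
      · rw [Ne, h.zero]
        exact Ultrafilter.eventually_not.1 (hz.mono fun i hi => hi.2.2.1)
      · have e2 : (2 : L) = π 2 := (map_ofNat π 2).symm
        have e3 : (3 : L) = π 3 := (map_ofNat π 3).symm
        rw [← h.alg, e2, e3]
        simp only [← map_pow, ← map_add, ← map_mul]
        rw [h.eq]
        exact hz.mono fun i hi => hi.2.2.2.1
      · rw [hR.pair h (hz.mono fun i hi => hi.2.2.2.2)]
        simp only [← map_pow, ← map_sub, ← map_mul]
        rfl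
  have h2 : Q + Q' = R := (Ell (θ a) (θ b)).coord_inj (rel_fun (add_rel Q Q') key)
  rw [h2]
  exact hR

theorem IsCls.smul (h : Ult U D C L D' π θ) (hd : 4 * θ a ^ 3 + 27 * θ b ^ 2 ≠ 0)
    {P : ∀ i, (Ell (a i) (b i)).G K} {Q : (Ell (θ a) (θ b)).G L} (hc : IsCls U π P Q) (n : ℕ) :
    IsCls U π (fun i => n • P i) (n • Q) := by
  induction n with
  | zero =>
    simp only [zero_nsmul]
    exact Or.inl ⟨rfl, Eventually.of_forall fun i => rfl⟩
  | succ n ih =>
    simp only [succ_nsmul]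
    exact ih.add h hd hc

theorem IsCls.lam (h : Ult U D C L D' π θ) {P : ∀ i, (Ell (a i) (b i)).G K}
    {Q : (Ell (θ a) (θ b)).G L} (hc : IsCls U π P Q) :
    (Ell (θ a) (θ b)).lam D' Q = π fun i => (Ell (a i) (b i)).lam D (P i) := by
  rcases hc with ⟨h1, h2⟩ | ⟨x, y, h1, h2⟩
  · rw [coord_nil h1, map_zero]
    symm
    rw [h.zero]
    filter_upwards [h2] with i hi
    rw [coord_nil hi, map_zero]
  · obtain ⟨hQ, rfl⟩ := coord_some h1
    change D' (π x) / (2 * π y) = _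
    rw [h.der]
    have e2 : (2 : L) = π 2 := (map_ofNat π 2).symm
    rw [e2, ← map_mul, ← h.div, h.eq]
    filter_upwards [h2] with i hi
    obtain ⟨hP, hPe⟩ := coord_some hi
    rw [hPe]
    rfl

end cls

end Pool.Agent.Helper6.EU
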