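import Pool.Agent.Helper6.EU.PresC
import Pool.Agent.Helper6.EU.KodT

/-! Reduction to fields of constants of finite transcendence degree. -/

set_option autoImplicit false
set_option linter.unusedSectionVars false
set_option linter.overlappingInstances false

open FF IntermediateField Pool.Agent.W619.PQ Pool.Agent.W603.LV Pool.Agent.W619.TW
open Pool.Agent.W602.GT (GeneralType)
open Pool.Agent.TH143.GT

namespace Pool.Agent.Helper6.EU

open EE

section
variable {C L : Type} [Field C] [CharZero C] [IsAlgClosed C] [Field L] [Algebra C L]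
  [Algebra ℂ C] [Algebra ℂ L] [IsScalarTower ℂ C L]

/-- algebraically closed subfields of finite transcendence degree -/
theorem exists_C1 (S : Set C) (hS : S.Finite) : ∃ C1 : IntermediateField ℂ C,
    IsAlgClosed C1 ∧ (∃ m : ℕ, Algebra.trdeg ℂ C1 = m) ∧ ∀ c ∈ S, c ∈ C1 := by
  let k0 : IntermediateField ℂ C := IntermediateField.adjoin ℂ S
  let C1 : IntermediateField ℂ C := acl k0
  have hmem : ∀ c ∈ S, c ∈ C1 := fun c hc => le_acl k0 (IntermediateField.subset_adjoin ℂ S hc)
  have hcl : IsAlgClosed C1 := (algebraicClosure.isAlgClosure k0 C).isAlgClosed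
  refine ⟨C1, hcl, ?_, hmem⟩
  -- a transcendence basis inside `S`
  let T : Set C1 := Set.range fun c : S => (⟨c, hmem c c.2⟩ : C1)
  have hTf : T.Finite := by
    have := hS.to_subtype
    exact Set.finite_range _
  have halg : Algebra.IsAlgebraic (Algebra.adjoin ℂ T) C1 := by
    open scoped algebraAdjoinAdjoin in
    have h1 : Algebra.IsAlgebraic (IntermediateField.adjoin ℂ T) C1 := by
      constructor
      intro z
      have h2 : IsAlgebraic k0 (z : C) := mem_acl.1 z.2
      obtain ⟨p, hp, hpz⟩ := h2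
      have h3 : ∀ e : k0, ∃ e' : IntermediateField.adjoin ℂ T, ((e' : C1) : C) = e := by
        intro e
        have h4 : k0 ≤ (IntermediateField.adjoin ℂ T).map C1.val := by
          rw [IntermediateField.adjoin_le_iff]
          intro c hc
          exact ⟨⟨c, hmem c hc⟩, IntermediateField.subset_adjoin ℂ T ⟨⟨c, hc⟩, rfl⟩, rfl⟩
        obtain ⟨e', he', he''⟩ := h4 e.2
        exact ⟨⟨e', he'⟩, he''⟩
      choose φ hφ using h3
      let φ' : k0 →+* IntermediateField.adjoin ℂ T :=
        { toFun := φ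
          map_one' := Subtype.ext (Subtype.ext ((hφ 1).trans rfl))
          map_mul' := fun u v => Subtype.ext (Subtype.ext (by
            rw [hφ]
            change (u : C) * v = ((φ u : C1) : C) * ((φ v : C1) : C)
            rw [hφ, hφ]))
          map_zero' := Subtype.ext (Subtype.ext ((hφ 0).trans rfl))
          map_add' := fun u v => Subtype.ext (Subtype.ext (by
            rw [hφ]
            change (u : C) + v = ((φ u : C1) : C) + ((φ v : C1) : C)
            rw [hφ, hφ])) }
      refine ⟨p.map φ', (Polynomial.map_ne_zero_iff φ'.injective).2 hp, ?_⟩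
      apply Subtype.ext
      rw [Polynomial.aeval_def, Polynomial.eval₂_map]
      have h5 := Polynomial.hom_eval₂ p ((algebraMap (IntermediateField.adjoin ℂ T) C1).comp φ')
        (C1.val : C1 →+* C) z
      refine h5.trans ?_
      rw [Polynomial.aeval_def] at hpz
      refine Eq.trans ?_ hpz
      apply congrArg (fun f => Polynomial.eval₂ f (z : C) p)
      ext e
      exact hφ e
    exact (IsFractionRing.comap_isAlgebraic_iff (A := Algebra.adjoin ℂ T)
      (K := IntermediateField.adjoin ℂ T) (C := C1)).2 h1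
  obtain ⟨u, -, hu2, hu3⟩ := exists_isTranscendenceBasis_between (R := ℂ) (A := C1) ∅ T
    (Set.empty_subset _) (algebraicIndependent_empty_type_iff.2
      (algebraMap ℂ C1).injective)
  have huf : u.Finite := hTf.subset hu2
  have := huf.fintype
  refine ⟨Fintype.card u, ?_⟩
  rw [← hu3.cardinalMk_eq_trdeg, Cardinal.mk_fintype]

theorem le_range_adjoin (T : Set L) {z : L} (hz : z ∈ IntermediateField.adjoin C T) :
    z ∈ IntermediateField.adjoin ℂ (Set.range (algebraMap C L) ∪ T) := by
  have h1 : IntermediateField.adjoin C T ≤ upC (C := C)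
      (IntermediateField.adjoin ℂ (Set.range (algebraMap C L) ∪ T)) (fun c =>
        subset_adjoin ℂ _ (Or.inl ⟨c, rfl⟩)) := by
    rw [IntermediateField.adjoin_le_iff]
    exact fun z hz => subset_adjoin ℂ _ (Or.inr hz)
  exact h1 hz

variable {K : Type} [Field K] [Algebra ℂ K] {n : ℕ} {x y : Fin n → L} {a b : Fin n → C}

/-- **Reduction to constants of finite transcendence degree.** -/
theorem red [Algebra.EssFiniteType ℂ K] (h1 : AlgebraicIndependent C x)
    (h2 : ∀ j, 4 * a j ^ 3 + 27 * b j ^ 2 ≠ 0)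
    (h3 : ∀ j, y j ^ 2 = x j ^ 3 + algebraMap C L (a j) * x j + algebraMap C L (b j))
    (ψ : K →ₐ[ℂ] L) (hψ : ∀ r, ψ r ∈ A0C C x y) :
    ∃ (C1 A : Type) (_ : Field C1) (_ : CharZero C1) (_ : IsAlgClosed C1) (_ : Field A)
      (_ : Algebra C1 A) (_ : Algebra ℂ C1) (_ : Algebra ℂ A) (_ : IsScalarTower ℂ C1 A)
      (_ : Algebra K A) (_ : IsScalarTower ℂ K A) (x' y' : Fin n → A) (a' b' : Fin n → C1)
      (m : ℕ), EPr x' y' a' b' ∧ Algebra.trdeg ℂ C1 = m ∧
        ∀ r : K, (∃ c : C1, algebraMap C1 A c = algebraMap K A r) →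
          ∃ c : C, algebraMap C L c = ψ r := by
  classical
  obtain ⟨s, hs⟩ := IntermediateField.fg_top ℂ K
  set T : Set L := Set.range x ∪ Set.range y with hT
  have h4 : ∀ g : K, ∃ V : Finset L, (V : Set L) ⊆ Set.range (algebraMap C L) ∪ T ∧
      ψ g ∈ IntermediateField.adjoin ℂ (V : Set L) := fun g =>
    IntermediateField.exists_finset_of_mem_adjoin (le_range_adjoin T (hψ g))
  choose V hV1 hV2 using h4
  let S : Set C := (algebraMap C L) ⁻¹' ((s.biUnion V : Finset L) : Set L) ∪
    (Set.range a ∪ Set.range b)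
  have hS : S.Finite := by
    refine Set.Finite.union ?_ ((Set.finite_range a).union (Set.finite_range b))
    exact (Finset.finite_toSet _).preimage (algebraMap C L).injective.injOn
  obtain ⟨C1, hcl, ⟨m, hm⟩, hmem⟩ := exists_C1 S hS
  have t1 : IsScalarTower C1 C L := IsScalarTower.of_algebraMap_eq fun c => rfl
  have t2 : IsScalarTower ℂ C1 L := IsScalarTower.of_algebraMap_eq fun c =>
    IsScalarTower.algebraMap_apply ℂ C L c
  let A : IntermediateField C1 L := IntermediateField.adjoin C1 T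
  have hxA : ∀ i, x i ∈ A := fun i => subset_adjoin C1 _ (Or.inl ⟨i, rfl⟩)
  have hyA : ∀ i, y i ∈ A := fun i => subset_adjoin C1 _ (Or.inr ⟨i, rfl⟩)
  have haC : ∀ i, a i ∈ C1 := fun i => hmem _ (Or.inr (Or.inl ⟨i, rfl⟩))
  have hbC : ∀ i, b i ∈ C1 := fun i => hmem _ (Or.inr (Or.inr ⟨i, rfl⟩))
  have hψA : ∀ r, ψ r ∈ A := by
    have h5 : (⊤ : IntermediateField ℂ K) ≤ (A.restrictScalars ℂ).comap ψ := by
      rw [← hs, IntermediateField.adjoin_le_iff]
      intro g hg
      have h6 : IntermediateField.adjoin ℂ (V g : Set L) ≤ A.restrictScalars ℂ := by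
        rw [IntermediateField.adjoin_le_iff]
        intro z hz
        rcases hV1 g hz with ⟨c, rfl⟩ | h7
        · have hc : c ∈ C1 := by
            apply hmem
            left
            rw [Set.mem_preimage]
            exact Finset.mem_coe.2 (Finset.mem_biUnion.2 ⟨g, hg, hz⟩)
          exact A.algebraMap_mem ⟨c, hc⟩
        · exact subset_adjoin C1 _ h7
      exact h6 (hV2 g)
    exact fun r => h5 (by trivial : r ∈ (⊤ : IntermediateField ℂ K))
  have t3 : IsScalarTower ℂ C1 A := IsScalarTower.of_algebraMap_eq fun c =>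
    Subtype.ext (IsScalarTower.algebraMap_apply ℂ C1 L c)
  let ψ' : K →+* A := (ψ : K →+* L).codRestrict A.toSubfield hψA
  let iK : Algebra K A := ψ'.toAlgebra
  have t4 : IsScalarTower ℂ K A := IsScalarTower.of_algebraMap_eq fun c =>
    Subtype.ext (by
      change algebraMap ℂ L c = ψ (algebraMap ℂ K c)
      rw [ψ.commutes])
  refine ⟨C1, A, inferInstance, charZero_of_injective_algebraMap (algebraMap ℂ C1).injective, hcl,
    inferInstance, inferInstance, inferInstance, inferInstance, t3, iK, t4,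
    fun i => ⟨x i, hxA i⟩, fun i => ⟨y i, hyA i⟩, fun i => ⟨a i, haC i⟩, fun i => ⟨b i, hbC i⟩, m,
    ⟨?_, fun i => ?_, fun i => ?_, ?_⟩, hm, ?_⟩
  · apply AlgebraicIndependent.of_comp A.val
    exact h1.restrictScalars (R := C1) (algebraMap C1 C).injective
  · intro h0
    exact h2 i (congrArg Subtype.val h0)
  · exact Subtype.ext (h3 i)
  · apply IntermediateField.map_injective A.val
    rw [IntermediateField.adjoin_map, Set.image_union, ← Set.range_comp, ← Set.range_comp]
    ext z
    constructor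
    · intro hz
      exact ⟨⟨z, hz⟩, trivial, rfl⟩
    · rintro ⟨w, -, rfl⟩
      exact w.2
  · rintro r ⟨c, hc⟩
    exact ⟨c, congrArg Subtype.val hc⟩

theorem red_gt [Algebra.EssFiniteType ℂ K] (h1 : AlgebraicIndependent C x)
    (h2 : ∀ j, 4 * a j ^ 3 + 27 * b j ^ 2 ≠ 0)
    (h3 : ∀ j, y j ^ 2 = x j ^ 3 + algebraMap C L (a j) * x j + algebraMap C L (b j))
    (ψ : K →ₐ[ℂ] L) (hψ : ∀ r, ψ r ∈ A0C C x y) {w : ℕ} (hg : GeneralType ℂ K w) (r : K) :
    ∃ c : C, algebraMap C L c = ψ r := by
  obtain ⟨C1, A, _, _, _, _, _, _, _, _, _, _, x', y', a', b', m, h4, h5, h6⟩ :=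
    red h1 h2 h3 ψ hψ
  exact h6 r (gt_const h4 h5 hg r)

theorem red_ratio [Algebra.EssFiniteType ℂ K] (h1 : AlgebraicIndependent C x)
    (h2 : ∀ j, 4 * a j ^ 3 + 27 * b j ^ 2 ≠ 0)
    (h3 : ∀ j, y j ^ 2 = x j ^ 3 + algebraMap C L (a j) * x j + algebraMap C L (b j))
    (ψ : K →ₐ[ℂ] L) (hψ : ∀ r, ψ r ∈ A0C C x y) {w : ℕ} (hw : Algebra.trdeg ℂ K = w) {N : ℕ}
    (hN : 0 < N) {ω₁ ω₂ : (Fin w → Derivation ℂ K K) → K}
    (hω₁ : Pluricanonical w N ω₁) (hω₂ : Pluricanonical w N ω₂) {D : Fin w → Derivation ℂ K K}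
    (hD : ω₂ D ≠ 0) : ∃ c : C, algebraMap C L c = ψ (ω₁ D / ω₂ D) := by
  obtain ⟨C1, A, _, _, _, _, _, _, _, _, _, _, x', y', a', b', m, h4, h5, h6⟩ :=
    red h1 h2 h3 ψ hψ
  exact h6 _ (ratio_con h4 h5 hw hN hω₁ hω₂ hD)

end

end Pool.Agent.Helper6.EU
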