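import Pool.Agent.Helper6.EU.Pts
import Pool.Agent.Helper6.EU.ClsD
import Pool.Agent.Helper6.EE.Set

/-! The ultrapower of the field of germs satisfies the hypotheses of the tower theorem. -/

set_option autoImplicit false
set_option linter.unusedSectionVars false

open WeierstrassCurve Filter Topology
open scoped PeriodPair

namespace Pool.Agent.Helper6.EU

open EE Pool.Agent.Y377.IL Pool.Agent.E8helper4.EL
open Pool.Agent.Y564.IL (t_TAY)

section

variable {ι : Type} {U : Ultrafilter ι} {D : Derivation ℂ LK LK} {C L : Type} [Field C]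
  [CharZero C] [Field L] [Algebra C L] {D' : Derivation C L L} {π : (ι → LK) →+* L}
  {θ : (ι → ℂ) →+* C} {z : ι → ℂ}

/-- curves of sequences of lattices -/
def EU (θ : (ι → ℂ) →+* C) (a b : C) : Prop :=
  ∃ Λ : ι → PeriodPair, a = θ (fun i => aL (Λ i)) ∧ b = θ (fun i => bL (Λ i))

/-- classes of sequences of holomorphic germs -/
def HU (h : Ult U D C L D' π θ) (z : ι → ℂ) : Submodule C L where
  carrier := {x | ∃ f : ι → ℂ → ℂ, (∀ i, AnalyticAt ℂ (f i) (z i)) ∧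
    x = π fun i => ty (z i) (f i)}
  add_mem' := by
    rintro _ _ ⟨f, hf, rfl⟩ ⟨g, hg, rfl⟩
    refine ⟨fun i w => f i w + g i w, fun i => (hf i).add (hg i), ?_⟩
    rw [← map_add]
    congr 1
    funext i
    exact (ty_add t_TAY (hf i) (hg i)).symm
  zero_mem' := by
    refine ⟨fun i w => 0, fun i => analyticAt_const, ?_⟩
    symm
    rw [h.zero]
    refine Eventually.of_forall fun i => ?_
    rw [ty_const t_TAY, map_zero]
  smul_mem' := by
    rintro c _ ⟨f, hf, rfl⟩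
    obtain ⟨c, rfl⟩ := h.tsurj c
    refine ⟨fun i w => c i * f i w, fun i => analyticAt_const.mul (hf i), ?_⟩
    rw [Algebra.smul_def, ← h.alg, ← map_mul]
    congr 1
    funext i
    rw [ty_mul t_TAY analyticAt_const (hf i), ty_const t_TAY]
    rfl

theorem mem_HU (h : Ult U D C L D' π θ) {f : ι → ℂ → ℂ}
    (hf : ∀ᶠ i in (U : Filter ι), AnalyticAt ℂ (f i) (z i)) :
    π (fun i => ty (z i) (f i)) ∈ HU h z := by
  classical
  refine ⟨fun i => if AnalyticAt ℂ (f i) (z i) then f i else fun _ => 0, fun i => ?_, ?_⟩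
  · dsimp only
    split_ifs with h1
    · exact h1
    · exact analyticAt_const
  · rw [h.eq]
    filter_upwards [hf] with i hi
    rw [if_pos hi]

theorem gm_div (hD : GD D) {z0 : ℂ} {x : LK} (hx : x ≠ 0) {f : ℂ → ℂ} (hf : AnalyticAt ℂ f z0)
    (hl : D x / x = D (ty z0 f)) {N : ℕ} (hN : 0 < N) : ∃ x' : LK, x' ^ N = x := by
  obtain ⟨P', hP'⟩ := div_of hD.con hN (divGm hN) (fun f hf => by
        obtain ⟨R, -, hR⟩ := exists_unit hD hf
        exact ⟨R, hR⟩) (τ := Gm) (z0 := z0) (Additive.ofMul (Units.mk0 x hx)) ⟨_, ⟨f, hf, rfl⟩, hl⟩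
  refine ⟨((Additive.toMul P' : LKˣ) : LK), ?_⟩
  have h1 := congrArg (fun u : Additive LKˣ => ((Additive.toMul u : LKˣ) : LK)) hP'
  change (((Additive.toMul P' : LKˣ) ^ (N : ℤ) : LKˣ) : LK) = x at h1
  rw [zpow_natCast, Units.val_pow_eq_pow_val] at h1
  exact h1

theorem ell_div (hD : GD D) (Λ : PeriodPair) {z0 : ℂ} (P : (Ell (aL Λ) (bL Λ)).G LK) {f : ℂ → ℂ}
    (hf : AnalyticAt ℂ f z0) (hl : (Ell (aL Λ) (bL Λ)).lam D P = D (ty z0 f)) {N : ℕ}
    (hN : 0 < N) : ∃ P' : (Ell (aL Λ) (bL Λ)).G LK, N • P' = P := by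
  obtain ⟨P', hP'⟩ := div_of hD.con hN (divEll Λ hN) (fun f hf => ptEll hD Λ hf) (z0 := z0) P
    ⟨_, ⟨f, hf, rfl⟩, hl⟩
  exact ⟨P', by rw [← hP', natCast_zsmul]⟩

theorem setupU (hD : GD D) (h : Ult U D C L D' π θ) (z : ι → ℂ) :
    Setup (EU θ) D' (HU h z) (π fun i => ty (z i) fun w => w) where
  con := h.con hD.con
  dz := by
    rw [h.der, ← map_one π]
    congr 1
    funext i
    exact hD.dz (z i)
  div := by
    have hE : ∀ τ, AE (EU θ) τ → ∀ (P : τ.G L), (∃ g ∈ HU h z, τ.lam D' P = D' g) →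
        ∀ N : ℕ, 0 < N → ∃ P' : τ.G L, (N : ℤ) • P' = P := by
      rintro _ ⟨_, _, ⟨Λ, rfl, rfl⟩, hd, rfl⟩ Q ⟨_, ⟨f, hf, rfl⟩, hl⟩ N hN
      obtain ⟨P, hP⟩ := cls_surj h hd Q
      rw [hP.lam h, h.der, h.eq] at hl
      have h1 : ∀ i, ∃ P' : (Ell (aL (Λ i)) (bL (Λ i))).G LK,
          ((Ell (aL (Λ i)) (bL (Λ i))).lam D (P i) = D (ty (z i) (f i))) → N • P' = P i := by
        intro i
        by_cases h0 : (Ell (aL (Λ i)) (bL (Λ i))).lam D (P i) = D (ty (z i) (f i))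
        · obtain ⟨P', hP'⟩ := ell_div hD (Λ i) (P i) (hf i) h0 hN
          exact ⟨P', fun _ => hP'⟩
        · exact ⟨0, fun h => absurd h h0⟩
      choose P' hP' using h1
      obtain ⟨Q', hQ'⟩ := exists_cls h hd P'
      refine ⟨Q', ?_⟩
      rw [natCast_zsmul]
      refine IsCls.unique h (hQ'.smul h hd N) (hP.congr ?_)
      filter_upwards [hl] with i hi
      exact (hP' i hi).symm
    rintro τ ((rfl | hτ) | (rfl | hτ)) P hP N hN
    · obtain ⟨_, ⟨f, hf, rfl⟩, hl⟩ := hP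
      let u : Lˣ := Additive.toMul P
      obtain ⟨x, hx⟩ := h.surj (u : L)
      have hl' : D' (u : L) / (u : L) = D' (π fun i => ty (z i) (f i)) := hl
      rw [← hx, h.der, h.der, ← h.div, h.eq] at hl'
      have hx0 : ∀ᶠ i in (U : Filter ι), x i ≠ 0 := by
        rw [← h.ne, hx]
        exact u.ne_zero
      have h1 : ∀ᶠ i in (U : Filter ι), ∃ x' : LK, x' ^ N = x i := by
        filter_upwards [hl', hx0] with i h1 h2
        exact gm_div hD h2 (hf i) h1 hN
      obtain ⟨x', hx'⟩ := h1.choice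
      have h2 : π x' ^ N = (u : L) := by
        rw [← hx, ← map_pow, h.eq]
        exact hx'
      have h3 : π x' ≠ 0 := by
        intro h0
        rw [h0, zero_pow hN.ne'] at h2
        exact u.ne_zero h2.symm
      refine ⟨Additive.ofMul (Units.mk0 _ h3), ?_⟩
      apply Additive.toMul.injective
      apply Units.ext
      change ((Units.mk0 _ h3 ^ (N : ℤ) : Lˣ) : L) = (u : L)
      rw [zpow_natCast, Units.val_pow_eq_pow_val, Units.val_mk0, h2]
    · exact hE τ hτ P hP N hN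
    · have hL := cz (C := C) L
      let p : L := P
      have hN0 : (N : L) ≠ 0 := by exact_mod_cast hN.ne'
      refine ⟨(p / N : L), ?_⟩
      change (N : ℤ) • (p / N : L) = p
      rw [zsmul_eq_mul]
      push_cast
      field_simp
    · exact hE τ hτ P hP N hN

theorem disc_U (h : Ult U D C L D' π θ) (Λ : ι → PeriodPair) :
    4 * θ (fun i => aL (Λ i)) ^ 3 + 27 * θ (fun i => bL (Λ i)) ^ 2 ≠ 0 := by
  have h1 : 4 * θ (fun i => aL (Λ i)) ^ 3 + 27 * θ (fun i => bL (Λ i)) ^ 2 =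
      θ (fun i => 4 * aL (Λ i) ^ 3 + 27 * bL (Λ i) ^ 2) := by
    have h2 : (fun i => 4 * aL (Λ i) ^ 3 + 27 * bL (Λ i) ^ 2) =
        4 * (fun i => aL (Λ i)) ^ 3 + 27 * (fun i => bL (Λ i)) ^ 2 := by
      funext i
      rfl
    rw [h2, map_add, map_mul, map_mul, map_pow, map_pow, map_ofNat, map_ofNat]
  rw [h1, Ne, h.tzero]
  exact Ultrafilter.eventually_not.1 (Eventually.of_forall fun i => disc_L (Λ i))

theorem ae_U (h : Ult U D C L D' π θ) (Λ : ι → PeriodPair) :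
    AE (EU θ) (Ell (θ fun i => aL (Λ i)) (θ fun i => bL (Λ i))) :=
  ⟨_, _, ⟨Λ, rfl, rfl⟩, disc_U h Λ, rfl⟩

/-- the point with a given logarithm -/
theorem exists_ptU (hD : GD D) (h : Ult U D C L D' π θ) (Λ : ι → PeriodPair) {f : ι → ℂ → ℂ}
    (hf : ∀ᶠ i in (U : Filter ι), AnalyticAt ℂ (f i) (z i) ∧ f i (z i) ∉ (Λ i).lattice) :
    ∃ R : (Ell (θ fun i => aL (Λ i)) (θ fun i => bL (Λ i))).G L,
      (Ell (θ fun i => aL (Λ i)) (θ fun i => bL (Λ i))).coord R =
        [π fun i => ty (z i) (fun w => ℘[Λ i] (f i w)),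
          π fun i => ty (z i) (fun w => ℘'[Λ i] (f i w) / 2)] ∧
      (Ell (θ fun i => aL (Λ i)) (θ fun i => bL (Λ i))).lam D' R =
        D' (π fun i => ty (z i) (f i)) := by
  have h1 : ∀ i, ∃ R : (Ell (aL (Λ i)) (bL (Λ i))).G LK,
      (AnalyticAt ℂ (f i) (z i) ∧ f i (z i) ∉ (Λ i).lattice) →
      (Ell (aL (Λ i)) (bL (Λ i))).coord R = [ty (z i) (fun w => ℘[Λ i] (f i w)),
        ty (z i) (fun w => ℘'[Λ i] (f i w) / 2)] ∧
      (Ell (aL (Λ i)) (bL (Λ i))).lam D R = D (ty (z i) (f i)) := by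
    intro i
    by_cases h0 : AnalyticAt ℂ (f i) (z i) ∧ f i (z i) ∉ (Λ i).lattice
    · obtain ⟨R, h1, h2⟩ := exists_pt hD (Λ i) h0.1 h0.2
      exact ⟨R, fun _ => ⟨h1, h2⟩⟩
    · exact ⟨0, fun h => absurd h h0⟩
  choose P hP using h1
  obtain ⟨R, hR⟩ := exists_cls h (disc_U h Λ) P
  refine ⟨R, ?_, ?_⟩
  · exact hR.pair h (hf.mono fun i hi => (hP i hi).1)
  · rw [hR.lam h, h.der, h.eq]
    exact hf.mono fun i hi => (hP i hi).2

/-- the unit with a given logarithm -/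
theorem exists_unitU (hD : GD D) (h : Ult U D C L D' π θ) {f : ι → ℂ → ℂ}
    (hf : ∀ᶠ i in (U : Filter ι), AnalyticAt ℂ (f i) (z i)) :
    ∃ R : (Gm : AGp C).G L, (Gm : AGp C).coord R =
        [π fun i => ty (z i) (fun w => Complex.exp (f i w))] ∧
      (Gm : AGp C).lam D' R = D' (π fun i => ty (z i) (f i)) := by
  have h0 : (π fun i => ty (z i) (fun w => Complex.exp (f i w))) ≠ 0 := by
    rw [h.ne]
    filter_upwards [hf] with i hi
    rw [Ne, ty_zero t_TAY (an_exp hi)]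
    intro h
    exact Complex.exp_ne_zero _ h.self_of_nhds
  refine ⟨Additive.ofMul (Units.mk0 _ h0), rfl, ?_⟩
  change D' (π fun i => ty (z i) (fun w => Complex.exp (f i w))) /
    (π fun i => ty (z i) (fun w => Complex.exp (f i w))) = _
  rw [h.der, h.der, ← h.div, h.eq]
  filter_upwards [hf] with i hi
  obtain ⟨R, h1, h2⟩ := exists_unit hD hi
  have h3 : ((Additive.toMul R : LKˣ) : LK) = ty (z i) (fun w => Complex.exp (f i w)) :=
    List.head_eq_of_cons_eq h1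
  have h4 : D ((Additive.toMul R : LKˣ) : LK) / ((Additive.toMul R : LKˣ) : LK) =
    D (ty (z i) (f i)) := h2
  rwa [h3] at h4

end

end Pool.Agent.Helper6.EU
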