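import Pool.Agent.Helper6.EE.GermE

/-! Ultrapowers of the field of germs. -/

set_option autoImplicit false

namespace Pool.Agent.Helper6.EU

open Filter

section ultra

variable {ι : Type} (U : Ultrafilter ι) (K : Type) [Field K]

/-- the ideal of the sequences which are zero almost everywhere for the ultrafilter -/
def uI : Ideal (ι → K) where
  carrier := {x | ∀ᶠ i in (U : Filter ι), x i = 0}
  add_mem' := fun {x y} hx hy => by
    have hx' : ∀ᶠ i in (U : Filter ι), x i = 0 := hx
    have hy' : ∀ᶠ i in (U : Filter ι), y i = 0 := hy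
    change ∀ᶠ i in (U : Filter ι), (x + y) i = 0
    filter_upwards [hx', hy'] with i h1 h2
    rw [Pi.add_apply, h1, h2, add_zero]
  zero_mem' := Eventually.of_forall fun i => rfl
  smul_mem' := fun c x hx => by
    have hx' : ∀ᶠ i in (U : Filter ι), x i = 0 := hx
    change ∀ᶠ i in (U : Filter ι), (c • x) i = 0
    filter_upwards [hx'] with i h1
    rw [smul_eq_mul, Pi.mul_apply, h1, mul_zero]

variable {U K}

theorem mem_uI {x : ι → K} : x ∈ uI U K ↔ ∀ᶠ i in (U : Filter ι), x i = 0 := Iff.rfl

variable (U K)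

theorem uI_max : (uI U K).IsMaximal := by
  classical
  rw [Ideal.isMaximal_iff]
  refine ⟨fun h => ?_, fun J x hJ hx hxJ => ?_⟩
  · obtain ⟨i, hi⟩ := (mem_uI.1 h).exists
    exact one_ne_zero hi
  · have h1 : ∀ᶠ i in (U : Filter ι), x i ≠ 0 := Ultrafilter.eventually_not.2 hx
    have h2 : 1 - (fun i => (x i)⁻¹) * x ∈ uI U K := by
      rw [mem_uI]
      filter_upwards [h1] with i hi
      change 1 - (x i)⁻¹ * x i = 0
      rw [inv_mul_cancel₀ hi, sub_self]
    have h3 : (fun i => (x i)⁻¹) * x ∈ J := J.mul_mem_left _ hxJ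
    have h4 := J.add_mem (hJ h2) h3
    rwa [sub_add_cancel] at h4

/-- the ultrapower of the field -/
def UP : Type := (ι → K) ⧸ uI U K

noncomputable instance : Field (UP U K) :=
  haveI := uI_max U K
  Ideal.Quotient.field (uI U K)

/-- the class of a sequence -/
noncomputable def uMk : (ι → K) →+* UP U K := Ideal.Quotient.mk (uI U K)

variable {U K}

theorem uMk_surj : Function.Surjective (uMk U K) := Ideal.Quotient.mk_surjective

theorem uMk_eq_zero {x : ι → K} : uMk U K x = 0 ↔ ∀ᶠ i in (U : Filter ι), x i = 0 :=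
  (Ideal.Quotient.eq_zero_iff_mem (I := uI U K)).trans mem_uI

theorem uMk_eq {x y : ι → K} : uMk U K x = uMk U K y ↔ ∀ᶠ i in (U : Filter ι), x i = y i := by
  rw [← sub_eq_zero, ← map_sub, uMk_eq_zero]
  simp only [Pi.sub_apply, sub_eq_zero]

/-- the constant sequences -/
noncomputable def ucC (U : Ultrafilter ι) (K : Type) [Field K] : K →+* UP U K :=
  (uMk U K).comp (Pi.constRingHom ι K)

theorem uc_char [CharZero K] : CharZero (UP U K) :=
  charZero_of_injective_ringHom (ucC U K).injective

theorem uc_closed [IsAlgClosed K] : IsAlgClosed (UP U K) := by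
  apply IsAlgClosed.of_exists_root
  intro p hp hirr
  obtain ⟨q, hq1, hq2, hq3⟩ := Polynomial.lifts_and_natDegree_eq_and_monic
    (f := uMk U K) (p := p) (by
      rw [Polynomial.lifts_iff_coeff_lifts]
      intro n
      exact uMk_surj _) hp
  have h1 : ∀ i : ι, ∃ z : K, (q.map (Pi.evalRingHom (fun _ : ι => K) i)).eval z = 0 := by
    intro i
    refine IsAlgClosed.exists_root _ ?_
    have h2 := hq3.natDegree_map (Pi.evalRingHom (fun _ : ι => K) i)
    intro h3
    rw [Polynomial.degree_eq_natDegree (hq3.map _).ne_zero, h2, hq2] at h3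
    have h4 := hirr.natDegree_pos
    have h5 : p.natDegree = 0 := by exact_mod_cast h3
    omega
  choose z hz using h1
  refine ⟨uMk _ _ z, ?_⟩
  have h2 : q.eval z = 0 := by
    funext i
    have h3 := hz i
    rw [Polynomial.eval_map] at h3
    have h4 := Polynomial.eval₂_at_apply (p := q) (Pi.evalRingHom (fun _ : ι => K) i) z
    exact h4.symm.trans h3
  rw [← hq1, Polynomial.eval_map, Polynomial.eval₂_at_apply, h2, map_zero]

end ultra

section diff

variable {ι : Type} {U : Ultrafilter ι} {k K : Type} [Field k] [Field K] [Algebra k K]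

/-- the map of the constants -/
noncomputable def uMap (U : Ultrafilter ι) (k K : Type) [Field k] [Field K] [Algebra k K] :
    UP U k →+* UP U K :=
  Ideal.Quotient.lift (uI U k) ((uMk U K).comp ((algebraMap k K).compLeft ι)) (by
    intro c hc
    have h1 : ∀ᶠ i in (U : Filter ι), c i = 0 := hc
    rw [RingHom.comp_apply, uMk_eq_zero]
    filter_upwards [h1] with i hi
    change algebraMap k K (c i) = 0
    rw [hi, map_zero])

theorem uMap_mk (c : ι → k) : uMap U k K (uMk U k c) = uMk U K fun i => algebraMap k K (c i) :=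
  rfl

/-- derivations of quotients -/
theorem der_of {C L : Type} [Field C] [Field L] [Algebra C L] (d : L → L)
    (hadd : ∀ x y, d (x + y) = d x + d y) (hmul : ∀ x y, d (x * y) = x * d y + y * d x)
    (hc : ∀ a : C, d (algebraMap C L a) = 0) : ∃ D' : Derivation C L L, ∀ x, D' x = d x :=
  ⟨Derivation.mk'
    { toFun := d
      map_add' := hadd
      map_smul' := fun a y => by
        rw [RingHom.id_apply, Algebra.smul_def, Algebra.smul_def, hmul, hc, mul_zero, add_zero] }
    (fun y z => hmul y z), fun _ => rfl⟩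

/-- An ultrapower of the differential field `K` with the field of constants `k`. -/
structure Ult (U : Ultrafilter ι) (D : Derivation k K K) (C L : Type) [Field C] [Field L]
    [Algebra C L] (D' : Derivation C L L) (π : (ι → K) →+* L) (θ : (ι → k) →+* C) : Prop where
  surj : Function.Surjective π
  tsurj : Function.Surjective θ
  zero : ∀ x, π x = 0 ↔ ∀ᶠ i in (U : Filter ι), x i = 0
  tzero : ∀ c, θ c = 0 ↔ ∀ᶠ i in (U : Filter ι), c i = 0
  alg : ∀ c : ι → k, π (fun i => algebraMap k K (c i)) = algebraMap C L (θ c)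
  der : ∀ x, D' (π x) = π fun i => D (x i)

theorem exists_ult (U : Ultrafilter ι) [CharZero k] [IsAlgClosed k] (D : Derivation k K K) :
    ∃ (C L : Type) (_ : Field C) (_ : Field L) (_ : Algebra C L) (_ : Algebra k C)
      (_ : Algebra k L) (_ : IsScalarTower k C L) (_ : CharZero C) (_ : IsAlgClosed C)
      (D' : Derivation C L L) (π : (ι → K) →+* L) (θ : (ι → k) →+* C),
      Ult U D C L D' π θ ∧ ∀ c : k, algebraMap k C c = θ fun _ => c := by
  classical
  have hD : ∀ y : UP U K, ∃ y' : UP U K, ∀ x, uMk U K x = y →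
      uMk U K (fun i => D (x i)) = y' := by
    intro y
    obtain ⟨x, rfl⟩ := uMk_surj y
    refine ⟨uMk U K fun i => D (x i), fun x' hx' => ?_⟩
    rw [uMk_eq] at hx' ⊢
    filter_upwards [hx'] with i hi
    rw [hi]
  choose d hd using hD
  have hd' : ∀ x, d (uMk U K x) = uMk U K fun i => D (x i) := fun x => (hd _ x rfl).symm
  let iA : Algebra (UP U k) (UP U K) := (uMap U k K).toAlgebra
  let iB : Algebra k (UP U k) := (ucC U k).toAlgebra
  let iC : Algebra k (UP U K) := ((uMap U k K).comp (ucC U k)).toAlgebra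
  have hal : ∀ c : ι → k, uMk U K (fun i => algebraMap k K (c i)) =
      algebraMap (UP U k) (UP U K) (uMk U k c) := fun c => rfl
  have hadd : ∀ y z, d (y + z) = d y + d z := by
    intro y z
    obtain ⟨y, rfl⟩ := uMk_surj y
    obtain ⟨z, rfl⟩ := uMk_surj z
    rw [← map_add, hd', hd', hd', ← map_add]
    congr 1
    funext i
    exact map_add D _ _
  have hmul : ∀ y z, d (y * z) = y * d z + z * d y := by
    intro y z
    obtain ⟨y, rfl⟩ := uMk_surj y
    obtain ⟨z, rfl⟩ := uMk_surj z
    rw [← map_mul, hd', hd', hd', ← map_mul, ← map_mul, ← map_add]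
    congr 1
    funext i
    exact D.leibniz _ _
  have hc : ∀ c, d (algebraMap (UP U k) (UP U K) c) = 0 := by
    intro c
    obtain ⟨c, rfl⟩ := uMk_surj c
    rw [← hal, hd', uMk_eq_zero]
    exact Eventually.of_forall fun i => D.map_algebraMap _
  obtain ⟨D', hD'⟩ := der_of d hadd hmul hc
  refine ⟨UP U k, UP U K, inferInstance, inferInstance, iA, iB, iC,
    IsScalarTower.of_algebraMap_eq fun c => rfl, uc_char, uc_closed, D', uMk U K, uMk U k,
    ⟨uMk_surj, uMk_surj, fun x => uMk_eq_zero, fun x => uMk_eq_zero, hal,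
      fun x => (hD' _).trans (hd' x)⟩,
    fun c => rfl⟩

variable {D : Derivation k K K} {C L : Type} [Field C] [Field L] [Algebra C L]
  {D' : Derivation C L L} {π : (ι → K) →+* L} {θ : (ι → k) →+* C}

theorem Ult.eq (h : Ult U D C L D' π θ) {x y : ι → K} :
    π x = π y ↔ ∀ᶠ i in (U : Filter ι), x i = y i := by
  rw [← sub_eq_zero, ← map_sub, h.zero]
  simp only [Pi.sub_apply, sub_eq_zero]

theorem Ult.teq (h : Ult U D C L D' π θ) {x y : ι → k} :
    θ x = θ y ↔ ∀ᶠ i in (U : Filter ι), x i = y i := by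
  rw [← sub_eq_zero, ← map_sub, h.tzero]
  simp only [Pi.sub_apply, sub_eq_zero]

theorem Ult.inv (h : Ult U D C L D' π θ) (x : ι → K) : π (fun i => (x i)⁻¹) = (π x)⁻¹ := by
  by_cases h0 : π x = 0
  · rw [h0, inv_zero, h.zero]
    filter_upwards [(h.zero x).1 h0] with i hi
    rw [hi, inv_zero]
  · apply eq_inv_of_mul_eq_one_left
    rw [← map_mul, ← map_one π, h.eq]
    have h1 : ∀ᶠ i in (U : Filter ι), x i ≠ 0 :=
      Ultrafilter.eventually_not.2 fun h1 => h0 ((h.zero x).2 h1)
    filter_upwards [h1] with i hi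
    exact inv_mul_cancel₀ hi

theorem Ult.div (h : Ult U D C L D' π θ) (x y : ι → K) :
    π (fun i => x i / y i) = π x / π y := by
  rw [div_eq_mul_inv, ← h.inv, ← map_mul]
  congr 1
  funext i
  exact div_eq_mul_inv _ _

theorem Ult.con (h : Ult U D C L D' π θ) (hC : ∀ x, D x = 0 → ∃ c : k, algebraMap k K c = x) :
    ∀ x, D' x = 0 → ∃ c : C, algebraMap C L c = x := by
  intro y hy
  obtain ⟨y, rfl⟩ := h.surj y
  rw [h.der, h.zero] at hy
  have h1 : ∀ i, ∃ c : k, D (y i) = 0 → algebraMap k K c = y i := by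
    intro i
    by_cases h0 : D (y i) = 0
    · obtain ⟨c, hc⟩ := hC _ h0
      exact ⟨c, fun _ => hc⟩
    · exact ⟨0, fun h => absurd h h0⟩
  choose c hc using h1
  refine ⟨θ c, ?_⟩
  rw [← h.alg, h.eq]
  filter_upwards [hy] with i hi
  exact hc i hi

theorem Ult.ne (h : Ult U D C L D' π θ) {x : ι → K} :
    π x ≠ 0 ↔ ∀ᶠ i in (U : Filter ι), x i ≠ 0 := by
  rw [Ne, h.zero]
  exact Ultrafilter.eventually_not.symm

end diff

end Pool.Agent.Helper6.EU
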